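import Mathlib

set_option autoImplicit false

open scoped ComplexConjugate

namespace Pool.Agent.H213Z.Quad3

/-- Laurent polynomials with real coefficients -/
abbrev LaG : Type := AddMonoidAlgebra ℝ ℤ

/-- the `ℓ¹` norm -/
noncomputable def laN (P : LaG) : ℝ := ∑ n ∈ P.coeff.support, ‖P.coeff n‖

lemma laN_eq_of_subset (P : LaG) (t : Finset ℤ) (h : P.coeff.support ⊆ t) :
    laN P = ∑ n ∈ t, ‖P.coeff n‖ := by
  unfold laN
  apply Finset.sum_subset h
  intro n _ hn
  rw [Finsupp.notMem_support_iff] at hn
  rw [hn]; simp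

lemma laN_zero : laN 0 = 0 := by
  simp [laN]

lemma laN_add (P Q : LaG) : laN (P + Q) ≤ laN P + laN Q := by
  classical
  rw [laN_eq_of_subset (P + Q) (P.coeff.support ∪ Q.coeff.support)
      (by rw [AddMonoidAlgebra.coeff_add]; exact Finsupp.support_add),
    laN_eq_of_subset P (P.coeff.support ∪ Q.coeff.support) Finset.subset_union_left,
    laN_eq_of_subset Q (P.coeff.support ∪ Q.coeff.support) Finset.subset_union_right,
    ← Finset.sum_add_distrib]
  refine Finset.sum_le_sum fun n _ => ?_
  rw [AddMonoidAlgebra.coeff_add, Finsupp.add_apply]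
  exact norm_add_le _ _

lemma laN_smul (c : ℝ) (P : LaG) : laN (c • P) = ‖c‖ * laN P := by
  rw [laN_eq_of_subset (c • P) P.coeff.support
    (by rw [AddMonoidAlgebra.coeff_smul]; exact Finsupp.support_smul), laN, Finset.mul_sum]
  refine Finset.sum_congr rfl fun n _ => ?_
  rw [AddMonoidAlgebra.coeff_smul, Finsupp.smul_apply, norm_smul]

lemma laN_single (n : ℤ) (c : ℝ) : laN (AddMonoidAlgebra.single n c) = ‖c‖ := by
  rw [laN_eq_of_subset _ {n}
    (by rw [AddMonoidAlgebra.coeff_single]; exact Finsupp.support_single_subset)]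
  rw [Finset.sum_singleton, AddMonoidAlgebra.coeff_single, Finsupp.single_eq_same]

lemma laN_sum {ι : Type} (t : Finset ι) (g : ι → LaG) :
    laN (∑ i ∈ t, g i) ≤ ∑ i ∈ t, laN (g i) := by
  classical
  induction t using Finset.induction_on with
  | empty => simp [laN_zero]
  | insert a s ha ih =>
    rw [Finset.sum_insert ha, Finset.sum_insert ha]
    exact (laN_add _ _).trans (by linarith)

lemma la_eq_sum_single (P : LaG) :
    P = ∑ n ∈ P.coeff.support, AddMonoidAlgebra.single n (P.coeff n) := by
  conv_lhs => rw [← AddMonoidAlgebra.sum_coeff_single P]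
  rfl

lemma laN_mul (P Q : LaG) : laN (P * Q) ≤ laN P * laN Q := by
  have h : P * Q = ∑ m ∈ P.coeff.support, ∑ n ∈ Q.coeff.support,
      AddMonoidAlgebra.single (m + n) (P.coeff m * Q.coeff n) := by
    conv_lhs => rw [la_eq_sum_single P, la_eq_sum_single Q]
    rw [Finset.sum_mul_sum]
    simp only [AddMonoidAlgebra.single_mul_single]
  rw [h]
  refine (laN_sum _ _).trans ?_
  unfold laN
  rw [Finset.sum_mul_sum]
  refine Finset.sum_le_sum fun m _ => ?_
  refine (laN_sum _ _).trans (le_of_eq ?_)
  refine Finset.sum_congr rfl fun n _ => ?_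
  rw [laN_single, norm_mul]

lemma laN_neg (P : LaG) : laN (-P) = laN P := by
  have := laN_smul (-1) P
  simpa using this

/-- type synonym carrying the norm -/
def LaTy : Type := LaG

noncomputable instance : CommRing LaTy := inferInstanceAs (CommRing LaG)

noncomputable instance : Algebra ℝ LaTy := inferInstanceAs (Algebra ℝ LaG)

/-- the group seminorm -/
noncomputable def laGS : AddGroupSeminorm LaTy where
  toFun := laN
  map_zero' := laN_zero
  add_le' := laN_add
  neg' := laN_neg

noncomputable instance : SeminormedAddCommGroup LaTy :=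
  AddGroupSeminorm.toSeminormedAddCommGroup laGS

noncomputable instance : SeminormedCommRing LaTy :=
  { (inferInstance : SeminormedAddCommGroup LaTy), (inferInstance : CommRing LaTy) with
    norm_mul_le := laN_mul }

noncomputable instance : NormedAlgebra ℝ LaTy :=
  { (inferInstance : Algebra ℝ LaTy) with
    norm_smul_le := fun c P => (laN_smul c P).le }

/-- abstract description of the real Wiener algebra -/
structure WB (B : Type) [NormedCommRing B] [NormedAlgebra ℝ B] where
  τ : ℤ → B
  τ_zero : τ 0 = 1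
  τ_add : ∀ m n, τ (m + n) = τ m * τ n
  τ_norm : ∀ n, ‖τ n‖ ≤ 1
  ind : ∀ p : B → Prop, IsClosed {x | p x} → (∀ x y, p x → p y → p (x + y)) →
    (∀ (c : ℝ) n, p (c • τ n)) → ∀ x, p x
  bound : ∀ (F : Type) [NormedAddCommGroup F] [NormedSpace ℝ F] (U : B →L[ℝ] F) (C : ℝ),
    (∀ n, ‖U (τ n)‖ ≤ C) → ∀ x, ‖U x‖ ≤ C * ‖x‖
  exists_ext : ∀ (F : Type) [NormedAddCommGroup F] [NormedSpace ℝ F]
    [CompleteSpace F] (v : ℤ → F) (C : ℝ),
    (∀ n, ‖v n‖ ≤ C) → ∃ U : B →L[ℝ] F, ∀ n, U (τ n) = v n

/-- the linear map with given values on the monomials -/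
noncomputable def laMap {F : Type} [AddCommGroup F] [Module ℝ F] (v : ℤ → F) :
    LaG →ₗ[ℝ] F where
  toFun P := P.coeff.sum fun n a => a • v n
  map_add' P Q := by
    rw [AddMonoidAlgebra.coeff_add]
    refine Finsupp.sum_add_index' (fun n => ?_) (fun n a b => ?_)
    · rw [zero_smul]
    · rw [add_smul]
  map_smul' c P := by
    rw [AddMonoidAlgebra.coeff_smul]
    refine (Finsupp.sum_smul_index' (fun n => ?_)).trans ?_
    · rw [zero_smul]
    · rw [Finsupp.smul_sum]
      refine Finset.sum_congr rfl fun n _ => ?_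
      simp only [smul_eq_mul, mul_smul, RingHom.id_apply]

lemma laMap_single {F : Type} [AddCommGroup F] [Module ℝ F] (v : ℤ → F) (n : ℤ)
    (a : ℝ) : laMap v (AddMonoidAlgebra.single n a) = a • v n := by
  change ((AddMonoidAlgebra.single n a : LaG).coeff.sum fun n a => a • v n) = _
  rw [AddMonoidAlgebra.coeff_single]
  refine Finsupp.sum_single_index ?_
  rw [zero_smul]

lemma laMap_bound {F : Type} [NormedAddCommGroup F] [NormedSpace ℝ F] (v : ℤ → F)
    (C : ℝ) (hv : ∀ n, ‖v n‖ ≤ C) (P : LaG) :
    ‖laMap v P‖ ≤ C * laN P := by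
  change ‖∑ n ∈ P.coeff.support, (P.coeff n) • v n‖ ≤ _
  refine (norm_sum_le _ _).trans ?_
  unfold laN
  rw [Finset.mul_sum]
  refine Finset.sum_le_sum fun n _ => ?_
  rw [norm_smul]
  have := mul_le_mul_of_nonneg_left (hv n) (norm_nonneg (P.coeff n))
  linarith

theorem exists_WB : ∃ (B : Type) (_ : NormedCommRing B) (_ : NormedAlgebra ℝ B)
    (_ : CompleteSpace B), Nonempty (WB B) := by
  classical
  let B := UniformSpace.Completion LaTy
  let ι : LaG →ₐ[ℝ] B :=
    { (UniformSpace.Completion.coeRingHom : LaTy →+* B) with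
      commutes' := fun c => rfl }
  have hdense : DenseRange ι := UniformSpace.Completion.denseRange_coe (α := LaTy)
  have hnorm : ∀ P : LaG, ‖ι P‖ = laN P := fun P =>
    UniformSpace.Completion.norm_coe (E := LaTy) P
  have hsm : ∀ (n : ℤ) (a : ℝ), (AddMonoidAlgebra.single n a : LaG)
      = a • AddMonoidAlgebra.single n (1 : ℝ) := by
    intro n a
    rw [AddMonoidAlgebra.smul_single, smul_eq_mul, mul_one]
  refine ⟨B, inferInstance, inferInstance, inferInstance, ⟨{
    τ := fun n => ι (AddMonoidAlgebra.single n 1)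
    τ_zero := ?_
    τ_add := ?_
    τ_norm := ?_
    ind := ?_
    bound := ?_
    exists_ext := ?_ }⟩⟩
  · exact map_one ι
  · intro m n
    rw [← map_mul, AddMonoidAlgebra.single_mul_single, one_mul]
  · intro n
    rw [hnorm, laN_single]
    simp
  · intro p hc hadd hs
    refine isClosed_property hdense hc ?_
    intro P
    induction P using AddMonoidAlgebra.induction_linear with
    | zero =>
      have := hs 0 0
      rw [zero_smul] at this
      rwa [map_zero]
    | add f g hf hg =>
      rw [map_add]
      exact hadd _ _ hf hg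
    | single n a =>
      rw [hsm, map_smul]
      exact hs a n
  · intro F _ _ U C hU
    refine isClosed_property hdense (isClosed_le (by fun_prop) (by fun_prop)) ?_
    intro P
    have h1 : U (ι P) = laMap (fun n => U (ι (AddMonoidAlgebra.single n 1))) P := by
      induction P using AddMonoidAlgebra.induction_linear with
      | zero => simp
      | add f g hf hg => rw [map_add, map_add, map_add, hf, hg]
      | single n a => rw [laMap_single, hsm, map_smul, map_smul]
    rw [h1, hnorm]
    exact laMap_bound _ C hU P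
  · intro F _ _ _ v C hv
    refine ⟨(laMap v).extendOfNorm ι.toLinearMap, fun n => ?_⟩
    have h1 := LinearMap.extendOfNorm_eq (f := laMap v) (e := ι.toLinearMap) hdense
      ⟨C, fun P => by
        have h2 : ‖ι.toLinearMap P‖ = laN P := hnorm P
        rw [h2]
        exact laMap_bound v C hv P⟩ (AddMonoidAlgebra.single n 1)
    rw [laMap_single, one_smul] at h1
    exact h1

end Pool.Agent.H213Z.Quad3
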