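import Mathlib
import Pool.Agent.H213Z.Quad3.Wie

set_option autoImplicit false
set_option linter.unusedSectionVars false
set_option linter.deprecated false

open scoped ComplexConjugate
open Set Metric Filter Topology

namespace Pool.Agent.H213Z.Quad3

variable {B : Type} [NormedCommRing B] [NormedAlgebra ℝ B] [CompleteSpace B]

namespace WB

variable (W : WB B)

open Classical in
/-- extension of a bounded family to a continuous linear map -/
noncomputable def ext {F : Type} [NormedAddCommGroup F] [NormedSpace ℝ F] (v : ℤ → F) :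
    B →L[ℝ] F :=
  if h : ∃ U : B →L[ℝ] F, ∀ n, U (W.τ n) = v n then h.choose else 0

omit [CompleteSpace B] in
lemma ext_τ {F : Type} [NormedAddCommGroup F] [NormedSpace ℝ F] [CompleteSpace F] (v : ℤ → F)
    (C : ℝ) (hv : ∀ n, ‖v n‖ ≤ C) (n : ℤ) : W.ext v (W.τ n) = v n := by
  have h := W.exists_ext F v C hv
  unfold ext
  rw [dif_pos h]
  exact h.choose_spec n

omit [CompleteSpace B] in
lemma hext {F : Type} [NormedAddCommGroup F] [NormedSpace ℝ F] (U V : B →L[ℝ] F)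
    (h : ∀ n, U (W.τ n) = V (W.τ n)) (x : B) : U x = V x := by
  have := W.bound F (U - V) 0 (fun n => by simp [h n]) x
  simpa [sub_eq_zero] using this

omit [CompleteSpace B] in
lemma mul_of {A : Type} [NormedCommRing A] [NormedAlgebra ℝ A] (U : B →L[ℝ] A)
    (h : ∀ m n, U (W.τ (m + n)) = U (W.τ m) * U (W.τ n)) (x y : B) : U (x * y) = U x * U y := by
  have h1 : ∀ m y, U (W.τ m * y) = U (W.τ m) * U y := by
    intro m y
    exact W.hext (U.comp (ContinuousLinearMap.mul ℝ B (W.τ m)))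
      ((ContinuousLinearMap.mul ℝ A (U (W.τ m))).comp U)
      (fun n => by simp [← W.τ_add, h]) y
  have := W.hext (U.comp (ContinuousLinearMap.mul ℝ B y))
      ((ContinuousLinearMap.mul ℝ A (U y)).comp U)
      (fun n => by simp [mul_comm y, h1, mul_comm (U y)]) x
  simpa [mul_comm] using this

/-- the variable -/
def T : B := W.τ 1
/-- its inverse -/
def S : B := W.τ (-1)
/-- flip -/
noncomputable def σ : B →L[ℝ] B := W.ext fun n => W.τ (-n)
/-- sign -/
noncomputable def ι : B →L[ℝ] B := W.ext fun n => ((-1 : ℝ) ^ n) • W.τ n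
/-- projection on nonnegative modes -/
noncomputable def P : B →L[ℝ] B := W.ext fun n => if 0 ≤ n then W.τ n else 0
/-- projection on even nonpositive modes -/
noncomputable def Q : B →L[ℝ] B := W.ext fun n => if n ≤ 0 ∧ Even n then W.τ n else 0
/-- primitive -/
noncomputable def J : B →L[ℝ] B := W.ext fun n => if 0 ≤ n then ((n : ℝ) + 1)⁻¹ • W.τ n else 0
/-- the multiplier of the inverse linearised operator -/
noncomputable def mu (n : ℤ) : ℝ := if n = 0 then 1 / 2 else (1 - n) / (1 + n)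
/-- inverse of the linearised operator -/
noncomputable def M : B →L[ℝ] B := W.ext fun n => if n ≤ 0 ∧ Even n then mu n • W.τ (-n) else 0
/-- coefficient 0 -/
noncomputable def c0 : B →L[ℝ] ℝ := W.ext fun n => if n = 0 then 1 else 0
/-- coefficient -1 -/
noncomputable def cm : B →L[ℝ] ℝ := W.ext fun n => if n = -1 then 1 else 0
/-- composition -/
noncomputable def C (y : B) : B →L[ℝ] B :=
  W.ext fun n => if 0 ≤ n ∧ ‖y‖ ≤ 1 then y ^ n.toNat else 0
/-- holomorphic function of the nonnegative modes -/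
noncomputable def H (z : ℂ) : B →L[ℝ] ℂ :=
  W.ext fun n => if 0 ≤ n ∧ ‖z‖ ≤ 1 then z ^ n.toNat else 0
/-- evaluation on the circle -/
noncomputable def ev (z : ℂ) : B →L[ℝ] ℂ := W.ext fun n => if ‖z‖ = 1 then z ^ n else 0

omit [CompleteSpace B] in
include W in
lemma norm_one_le : ‖(1 : B)‖ ≤ 1 := by
  have := W.τ_norm 0
  rwa [W.τ_zero] at this

omit [CompleteSpace B] in
include W in
lemma norm_pow_le' (y : B) (c : ℝ) (hc : ‖y‖ ≤ c) (k : ℕ) : ‖y ^ k‖ ≤ c ^ k := by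
  induction k with
  | zero => simpa using W.norm_one_le
  | succ k ih =>
    rw [pow_succ, pow_succ]
    exact (norm_mul_le _ _).trans
      (mul_le_mul ih hc (norm_nonneg _) ((norm_nonneg _).trans ih))

omit [CompleteSpace B] in
lemma ST : W.S * W.T = 1 := by
  unfold S T
  rw [← W.τ_add]; simp [W.τ_zero]

omit [CompleteSpace B] in
lemma TS : W.T * W.S = 1 := by rw [mul_comm, W.ST]

omit [CompleteSpace B] in
lemma T_mul (n : ℤ) : W.T * W.τ n = W.τ (n + 1) := by
  unfold T; rw [← W.τ_add, add_comm]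

omit [CompleteSpace B] in
lemma S_mul (n : ℤ) : W.S * W.τ n = W.τ (n - 1) := by
  unfold S; rw [← W.τ_add]; congr 1; ring

omit [CompleteSpace B] in
lemma norm_T : ‖W.T‖ ≤ 1 := W.τ_norm _
omit [CompleteSpace B] in
lemma norm_S : ‖W.S‖ ≤ 1 := W.τ_norm _

lemma σ_τ (n : ℤ) : W.σ (W.τ n) = W.τ (-n) := W.ext_τ _ 1 (fun n => W.τ_norm _) n

lemma abs_sign (n : ℤ) : |(-1 : ℝ) ^ n| = 1 := by
  rw [abs_zpow]; simp

lemma ι_τ (n : ℤ) : W.ι (W.τ n) = ((-1 : ℝ) ^ n) • W.τ n :=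
  W.ext_τ _ 1 (fun n => by
    rw [norm_smul, Real.norm_eq_abs, abs_sign, one_mul]; exact W.τ_norm _) n

lemma P_τ (n : ℤ) : W.P (W.τ n) = if 0 ≤ n then W.τ n else 0 :=
  W.ext_τ _ 1 (fun n => by
    split_ifs
    · exact W.τ_norm _
    · simp) n

lemma Q_τ (n : ℤ) : W.Q (W.τ n) = if n ≤ 0 ∧ Even n then W.τ n else 0 :=
  W.ext_τ _ 1 (fun n => by
    split_ifs
    · exact W.τ_norm _
    · simp) n

lemma J_τ (n : ℤ) : W.J (W.τ n) = if 0 ≤ n then ((n : ℝ) + 1)⁻¹ • W.τ n else 0 :=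
  W.ext_τ _ 1 (fun n => by
    split_ifs with h
    · rw [norm_smul]
      have h1 : (0 : ℝ) ≤ n := by exact_mod_cast h
      have h2 : ‖((n : ℝ) + 1)⁻¹‖ ≤ 1 := by
        rw [Real.norm_of_nonneg (by positivity)]
        exact inv_le_one_of_one_le₀ (by linarith)
      exact (mul_le_mul h2 (W.τ_norm n) (norm_nonneg _) zero_le_one).trans (by simp)
    · simp) n

lemma mu_le (n : ℤ) (h : n ≤ 0 ∧ Even n) : |mu n| ≤ 3 := by
  unfold mu
  split_ifs with h0
  · rw [abs_of_pos] <;> norm_num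
  · have h2 : n ≤ -2 := by
      obtain ⟨h1, k, hk⟩ := h
      omega
    have h3 : (n : ℝ) ≤ -2 := by exact_mod_cast h2
    rw [abs_div, abs_of_pos (by linarith), abs_of_neg (by linarith), div_le_iff₀ (by linarith)]
    linarith

lemma M_τ (n : ℤ) : W.M (W.τ n) = if n ≤ 0 ∧ Even n then mu n • W.τ (-n) else 0 :=
  W.ext_τ _ 3 (fun n => by
    split_ifs with h
    · rw [norm_smul, Real.norm_eq_abs]
      exact (mul_le_mul (mu_le n h) (W.τ_norm _) (norm_nonneg _) (by norm_num)).trans (by simp)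
    · simp) n

omit [CompleteSpace B] in
lemma c0_τ (n : ℤ) : W.c0 (W.τ n) = if n = 0 then 1 else 0 :=
  W.ext_τ _ 1 (fun n => by split_ifs <;> simp) n

omit [CompleteSpace B] in
lemma cm_τ (n : ℤ) : W.cm (W.τ n) = if n = -1 then 1 else 0 :=
  W.ext_τ _ 1 (fun n => by split_ifs <;> simp) n

lemma C_τ (y : B) (hy : ‖y‖ ≤ 1) (n : ℤ) : W.C y (W.τ n) = if 0 ≤ n then y ^ n.toNat else 0 := by
  have := W.ext_τ (fun n : ℤ => if 0 ≤ n ∧ ‖y‖ ≤ 1 then y ^ n.toNat else 0) 1 (fun n => by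
    split_ifs with h
    · simpa using W.norm_pow_le' y 1 h.2 n.toNat
    · simp) n
  unfold C
  rw [this]
  simp [hy]

omit [CompleteSpace B] in
lemma H_τ (z : ℂ) (hz : ‖z‖ ≤ 1) (n : ℤ) : W.H z (W.τ n) = if 0 ≤ n then z ^ n.toNat else 0 := by
  have := W.ext_τ (fun n : ℤ => if 0 ≤ n ∧ ‖z‖ ≤ 1 then z ^ n.toNat else 0) 1 (fun n => by
    split_ifs with h
    · rw [norm_pow]; exact pow_le_one₀ (norm_nonneg _) h.2
    · simp) n
  unfold H
  rw [this]
  simp [hz]

omit [CompleteSpace B] in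
lemma ev_τ (z : ℂ) (hz : ‖z‖ = 1) (n : ℤ) : W.ev z (W.τ n) = z ^ n := by
  have := W.ext_τ (fun n : ℤ => if ‖z‖ = 1 then z ^ n else 0) 1 (fun n => by
    simp [hz, norm_zpow]) n
  unfold ev
  rw [this]
  simp [hz]

lemma σ_mul (x y : B) : W.σ (x * y) = W.σ x * W.σ y :=
  W.mul_of _ (fun m n => by rw [σ_τ, σ_τ, σ_τ, ← W.τ_add, neg_add]) x y

lemma ι_mul (x y : B) : W.ι (x * y) = W.ι x * W.ι y :=
  W.mul_of _ (fun m n => by
    rw [ι_τ, ι_τ, ι_τ, zpow_add₀ (by norm_num), W.τ_add, smul_mul_smul_comm]) x y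

omit [CompleteSpace B] in
lemma ev_mul (z : ℂ) (hz : ‖z‖ = 1) (x y : B) : W.ev z (x * y) = W.ev z x * W.ev z y :=
  W.mul_of _ (fun m n => by
    have : z ≠ 0 := by rintro rfl; simp at hz
    rw [W.ev_τ z hz, W.ev_τ z hz, W.ev_τ z hz, zpow_add₀ this]) x y

lemma σ_one : W.σ 1 = 1 := by rw [← W.τ_zero, σ_τ, neg_zero]
lemma ι_one : W.ι 1 = 1 := by rw [← W.τ_zero, ι_τ]; simp
lemma P_one : W.P 1 = 1 := by rw [← W.τ_zero, P_τ]; simp
omit [CompleteSpace B] in
lemma c0_one : W.c0 1 = 1 := by rw [← W.τ_zero, c0_τ]; simp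
omit [CompleteSpace B] in
lemma ev_one (z : ℂ) (hz : ‖z‖ = 1) : W.ev z 1 = 1 := by rw [← W.τ_zero, W.ev_τ z hz]; simp
lemma C_one (y : B) (hy : ‖y‖ ≤ 1) : W.C y 1 = 1 := by rw [← W.τ_zero, W.C_τ y hy]; simp [W.τ_zero]
lemma σ_T : W.σ W.T = W.S := W.σ_τ 1
lemma σ_S : W.σ W.S = W.T := by unfold S T; rw [σ_τ, neg_neg]
lemma ι_T : W.ι W.T = -W.T := by unfold T; rw [ι_τ]; simp
lemma ι_S : W.ι W.S = -W.S := by unfold S; rw [ι_τ]; simp
lemma P_T : W.P W.T = W.T := by unfold T; rw [P_τ]; simp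
omit [CompleteSpace B] in
lemma ev_T (z : ℂ) (hz : ‖z‖ = 1) : W.ev z W.T = z := by unfold T; rw [W.ev_τ z hz]; simp
omit [CompleteSpace B] in
lemma ev_S (z : ℂ) (hz : ‖z‖ = 1) : W.ev z W.S = z⁻¹ := by unfold S; rw [W.ev_τ z hz]; simp

lemma norm_σ (x : B) : ‖W.σ x‖ ≤ ‖x‖ := by
  simpa using W.bound B W.σ 1 (fun n => by rw [σ_τ]; exact W.τ_norm _) x

lemma norm_ι (x : B) : ‖W.ι x‖ ≤ ‖x‖ := by
  simpa using W.bound B W.ι 1 (fun n => by
    rw [ι_τ, norm_smul, Real.norm_eq_abs, abs_sign, one_mul]; exact W.τ_norm _) x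

omit [CompleteSpace B] in
lemma norm_ev (z : ℂ) (hz : ‖z‖ = 1) (x : B) : ‖W.ev z x‖ ≤ ‖x‖ := by
  simpa using W.bound ℂ (W.ev z) 1 (fun n => by rw [W.ev_τ z hz]; simp [norm_zpow, hz]) x

omit [CompleteSpace B] in
lemma norm_H (z : ℂ) (hz : ‖z‖ ≤ 1) (x : B) : ‖W.H z x‖ ≤ ‖x‖ := by
  simpa using W.bound ℂ (W.H z) 1 (fun n => by
    rw [W.H_τ z hz]
    split_ifs
    · rw [norm_pow]; exact pow_le_one₀ (norm_nonneg _) hz
    · simp) x

lemma norm_C (y : B) (hy : ‖y‖ ≤ 1) (x : B) : ‖W.C y x‖ ≤ ‖x‖ := by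
  simpa using W.bound B (W.C y) 1 (fun n => by
    rw [W.C_τ y hy]
    split_ifs
    · simpa using W.norm_pow_le' y 1 hy n.toNat
    · simp) x

omit [CompleteSpace B] in
include W in
lemma pow_sub_le (y y' : B) (hy : ‖y‖ ≤ 1 / 2) (hy' : ‖y'‖ ≤ 1 / 2) (k : ℕ) :
    ‖y ^ k - y' ^ k‖ ≤ 2 * k * (1 / 2) ^ k * ‖y - y'‖ := by
  induction k with
  | zero => simp
  | succ k ih =>
    have h1 : y ^ (k + 1) - y' ^ (k + 1) = y * (y ^ k - y' ^ k) + (y - y') * y' ^ k := by ring
    rw [h1]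
    have h2 := W.norm_pow_le' y' _ hy' k
    have h3 : ‖y * (y ^ k - y' ^ k)‖ ≤ 1 / 2 * (2 * k * (1 / 2) ^ k * ‖y - y'‖) :=
      (norm_mul_le _ _).trans (mul_le_mul hy ih (norm_nonneg _) (by norm_num))
    have h4 : ‖(y - y') * y' ^ k‖ ≤ ‖y - y'‖ * (1 / 2) ^ k :=
      (norm_mul_le _ _).trans (mul_le_mul_of_nonneg_left h2 (norm_nonneg _))
    refine (norm_add_le _ _).trans ((add_le_add h3 h4).trans (le_of_eq ?_))
    push_cast
    ring

lemma two_mul_half_pow (k : ℕ) : 2 * (k : ℝ) * (1 / 2) ^ k ≤ 1 := by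
  have h : (2 : ℝ) * k ≤ 2 ^ k := by
    have : 2 * k ≤ 2 ^ k := Nat.mul_le_pow (by norm_num) k
    exact_mod_cast this
  rw [one_div, inv_pow, ← div_eq_mul_inv, div_le_one (by positivity)]
  exact h

lemma norm_C_sub (y y' : B) (hy : ‖y‖ ≤ 1 / 2) (hy' : ‖y'‖ ≤ 1 / 2) (x : B) :
    ‖W.C y x - W.C y' x‖ ≤ ‖y - y'‖ * ‖x‖ := by
  have := W.bound B (W.C y - W.C y') ‖y - y'‖ (fun n => by
    rw [ContinuousLinearMap.sub_apply, W.C_τ y (by linarith), W.C_τ y' (by linarith)]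
    split_ifs
    · refine (W.pow_sub_le y y' hy hy' _).trans ?_
      exact mul_le_of_le_one_left (norm_nonneg _) (two_mul_half_pow _)
    · simp) x
  simpa using this

lemma σσ (x : B) : W.σ (W.σ x) = x :=
  W.hext (W.σ.comp W.σ) (ContinuousLinearMap.id ℝ B) (fun n => by simp [σ_τ]) x

lemma sign_neg (n : ℤ) : (-1 : ℝ) ^ (-n) = (-1 : ℝ) ^ n := by
  rcases Int.even_or_odd n with h | h
  · rw [h.neg_one_zpow, h.neg.neg_one_zpow]
  · rw [h.neg_one_zpow, h.neg.neg_one_zpow]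

lemma ισ (x : B) : W.ι (W.σ x) = W.σ (W.ι x) :=
  W.hext (W.ι.comp W.σ) (W.σ.comp W.ι) (fun n => by
    simp only [ContinuousLinearMap.comp_apply, σ_τ, ι_τ, map_smul, sign_neg]) x

lemma ιP (x : B) : W.ι (W.P x) = W.P (W.ι x) :=
  W.hext (W.ι.comp W.P) (W.P.comp W.ι) (fun n => by
    simp only [ContinuousLinearMap.comp_apply, P_τ, ι_τ, map_smul]
    split_ifs <;> simp [ι_τ]) x

lemma ιJ (x : B) : W.ι (W.J x) = W.J (W.ι x) :=
  W.hext (W.ι.comp W.J) (W.J.comp W.ι) (fun n => by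
    simp only [ContinuousLinearMap.comp_apply, J_τ, ι_τ, map_smul]
    split_ifs
    · rw [map_smul, ι_τ, smul_comm]
    · simp) x

lemma ιM (x : B) : W.ι (W.M x) = W.M x :=
  W.hext (W.ι.comp W.M) W.M (fun n => by
    simp only [ContinuousLinearMap.comp_apply, M_τ]
    split_ifs with h
    · rw [map_smul, ι_τ, h.2.neg.neg_one_zpow, one_smul]
    · simp) x

lemma PM (x : B) : W.P (W.M x) = W.M x :=
  W.hext (W.P.comp W.M) W.M (fun n => by
    simp only [ContinuousLinearMap.comp_apply, M_τ]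
    split_ifs with h
    · rw [map_smul, P_τ, if_pos (by omega)]
    · simp) x

lemma PJ (x : B) : W.P (W.J x) = W.J x :=
  W.hext (W.P.comp W.J) W.J (fun n => by
    simp only [ContinuousLinearMap.comp_apply, J_τ]
    split_ifs with h
    · rw [map_smul, P_τ, if_pos h]
    · simp) x

lemma PP (x : B) : W.P (W.P x) = W.P x :=
  W.hext (W.P.comp W.P) W.P (fun n => by
    simp only [ContinuousLinearMap.comp_apply, P_τ]
    split_ifs with h
    · rw [P_τ, if_pos h]
    · simp) x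

lemma P_mul {x y : B} (hx : W.P x = x) (hy : W.P y = y) : W.P (x * y) = x * y := by
  have h1 : ∀ m : ℤ, 0 ≤ m → ∀ y, W.P (W.τ m * W.P y) = W.τ m * W.P y := by
    intro m hm y
    exact W.hext (W.P.comp ((ContinuousLinearMap.mul ℝ B (W.τ m)).comp W.P))
      ((ContinuousLinearMap.mul ℝ B (W.τ m)).comp W.P) (fun n => by
        simp only [ContinuousLinearMap.comp_apply, P_τ, ContinuousLinearMap.mul_apply']
        split_ifs with h
        · rw [← W.τ_add, P_τ, if_pos (by omega)]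
        · simp) y
  have h2 := W.hext (W.P.comp ((ContinuousLinearMap.mul ℝ B y).comp W.P))
      ((ContinuousLinearMap.mul ℝ B y).comp W.P) (fun n => by
        simp only [ContinuousLinearMap.comp_apply, P_τ, ContinuousLinearMap.mul_apply']
        split_ifs with h
        · have := h1 n h y
          rw [hy] at this
          rw [mul_comm, this]
        · simp) x
  simp only [ContinuousLinearMap.comp_apply, ContinuousLinearMap.mul_apply', hx] at h2
  rw [mul_comm, h2]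

lemma P_pow {y : B} (hy : W.P y = y) (k : ℕ) : W.P (y ^ k) = y ^ k := by
  induction k with
  | zero => simpa using W.P_one
  | succ k ih => rw [pow_succ]; exact W.P_mul ih hy

lemma P_C {y : B} (hy : W.P y = y) (hn : ‖y‖ ≤ 1) (x : B) : W.P (W.C y x) = W.C y x :=
  W.hext (W.P.comp (W.C y)) (W.C y) (fun n => by
    simp only [ContinuousLinearMap.comp_apply, W.C_τ y hn]
    split_ifs with h
    · exact W.P_pow hy _
    · simp) x

lemma σ_pow (y : B) (k : ℕ) : W.σ (y ^ k) = W.σ y ^ k := by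
  induction k with
  | zero => simpa using W.σ_one
  | succ k ih => rw [pow_succ, σ_mul, ih, pow_succ]

lemma ι_pow (y : B) (k : ℕ) : W.ι (y ^ k) = W.ι y ^ k := by
  induction k with
  | zero => simpa using W.ι_one
  | succ k ih => rw [pow_succ, ι_mul, ih, pow_succ]

omit [CompleteSpace B] in
lemma ev_pow (z : ℂ) (hz : ‖z‖ = 1) (y : B) (k : ℕ) : W.ev z (y ^ k) = W.ev z y ^ k := by
  induction k with
  | zero => simpa using W.ev_one z hz
  | succ k ih => rw [pow_succ, W.ev_mul z hz, ih, pow_succ]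

lemma σ_C (y : B) (hn : ‖y‖ ≤ 1) (x : B) : W.σ (W.C y x) = W.C (W.σ y) x :=
  W.hext (W.σ.comp (W.C y)) (W.C (W.σ y)) (fun n => by
    simp only [ContinuousLinearMap.comp_apply, W.C_τ y hn, W.C_τ _ ((W.norm_σ y).trans hn)]
    split_ifs with h
    · exact W.σ_pow _ _
    · simp) x

lemma ι_C (y : B) (hn : ‖y‖ ≤ 1) (x : B) : W.ι (W.C y x) = W.C (W.ι y) x :=
  W.hext (W.ι.comp (W.C y)) (W.C (W.ι y)) (fun n => by
    simp only [ContinuousLinearMap.comp_apply, W.C_τ y hn, W.C_τ _ ((W.norm_ι y).trans hn)]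
    split_ifs with h
    · exact W.ι_pow _ _
    · simp) x

lemma ev_C (z : ℂ) (hz : ‖z‖ = 1) (y : B) (hn : ‖y‖ ≤ 1) (x : B) :
    W.ev z (W.C y x) = W.H (W.ev z y) x :=
  W.hext ((W.ev z).comp (W.C y)) (W.H (W.ev z y)) (fun n => by
    simp only [ContinuousLinearMap.comp_apply, W.C_τ y hn,
      W.H_τ _ ((W.norm_ev z hz y).trans hn)]
    split_ifs with h
    · exact W.ev_pow z hz _ _
    · simp) x

lemma ev_P (z : ℂ) (hz : ‖z‖ = 1) (x : B) : W.ev z (W.P x) = W.H z x :=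
  W.hext ((W.ev z).comp W.P) (W.H z) (fun n => by
    simp only [ContinuousLinearMap.comp_apply, W.P_τ, W.H_τ _ hz.le]
    split_ifs with h
    · rw [W.ev_τ z hz, ← zpow_natCast, Int.toNat_of_nonneg h]
    · simp) x

lemma ev_σ (z : ℂ) (hz : ‖z‖ = 1) (x : B) : W.ev z (W.σ x) = conj (W.ev z x) :=
  W.hext ((W.ev z).comp W.σ) ((Complex.conjCLE : ℂ →L[ℝ] ℂ).comp (W.ev z)) (fun n => by
    simp only [ContinuousLinearMap.comp_apply, W.σ_τ, W.ev_τ z hz]
    have h : conj z = z⁻¹ := (Complex.inv_eq_conj hz).symm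
    simp [map_zpow₀, h]) x

omit [CompleteSpace B] in
lemma H_conj (z : ℂ) (hz : ‖z‖ ≤ 1) (x : B) : W.H (conj z) x = conj (W.H z x) :=
  W.hext (W.H (conj z)) ((Complex.conjCLE : ℂ →L[ℝ] ℂ).comp (W.H z)) (fun n => by
    simp only [ContinuousLinearMap.comp_apply, W.H_τ z hz, W.H_τ (conj z) (by simpa using hz)]
    split_ifs <;> simp) x

lemma H_neg (z : ℂ) (hz : ‖z‖ ≤ 1) (x : B) : W.H (-z) x = W.H z (W.ι x) :=
  W.hext (W.H (-z)) ((W.H z).comp W.ι) (fun n => by
    simp only [ContinuousLinearMap.comp_apply, W.ι_τ, map_smul, W.H_τ z hz,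
      W.H_τ (-z) (by simpa using hz)]
    split_ifs with h
    · obtain ⟨k, rfl⟩ := Int.eq_ofNat_of_zero_le h
      simp only [Int.toNat_natCast, zpow_natCast, Complex.real_smul]
      rw [neg_pow]; push_cast; ring
    · simp) x

lemma ev_σP (z : ℂ) (hz : ‖z‖ = 1) (x : B) : W.ev z (W.σ (W.P x)) = W.H z⁻¹ x := by
  rw [W.ev_σ z hz, W.ev_P z hz, ← W.H_conj z hz.le, Complex.inv_eq_conj hz]

lemma P_Sσ {y : B} (hy : W.P y = y) : W.P (W.S * W.σ y) = 0 := by
  have := W.hext (W.P.comp ((ContinuousLinearMap.mul ℝ B W.S).comp (W.σ.comp W.P))) 0 (fun n => by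
    simp only [ContinuousLinearMap.comp_apply, P_τ, ContinuousLinearMap.mul_apply']
    split_ifs with h
    · rw [σ_τ, S_mul, P_τ, if_neg (by omega)]; simp
    · simp) y
  simpa [hy] using this

lemma cm_P {y : B} (hy : W.P y = y) : W.cm y = 0 := by
  have := W.hext (W.cm.comp W.P) 0 (fun n => by
    simp only [ContinuousLinearMap.comp_apply, P_τ]
    split_ifs with h
    · rw [cm_τ, if_neg (by omega)]; simp
    · simp) y
  simpa [hy] using this

lemma cm_Sσ (y : B) : W.cm (W.S * W.σ y) = W.c0 y :=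
  W.hext (W.cm.comp ((ContinuousLinearMap.mul ℝ B W.S).comp W.σ)) W.c0 (fun n => by
    simp only [ContinuousLinearMap.comp_apply, ContinuousLinearMap.mul_apply', σ_τ, S_mul, cm_τ,
      c0_τ]
    congr 1
    apply propext
    omega) y

lemma dec1 (x : B) : W.P x + W.S * W.σ (W.P (W.σ (W.T * x))) = x :=
  W.hext (W.P + (ContinuousLinearMap.mul ℝ B W.S).comp (W.σ.comp (W.P.comp (W.σ.comp
      (ContinuousLinearMap.mul ℝ B W.T))))) (ContinuousLinearMap.id ℝ B) (fun n => by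
    simp only [ContinuousLinearMap.comp_apply, ContinuousLinearMap.mul_apply', σ_τ, T_mul, P_τ,
      ContinuousLinearMap.add_apply, ContinuousLinearMap.id_apply]
    by_cases h : 0 ≤ n
    · rw [if_pos h, if_neg (by omega)]; simp
    · rw [if_neg h, if_pos (by omega), σ_τ, S_mul]; simp) x

lemma dec2 (x : B) :
    W.P x + W.cm x • W.S + W.S * (W.S * W.σ (W.P (W.σ (W.T * (W.T * x))))) = x :=
  W.hext (W.P + W.cm.smulRight W.S + (ContinuousLinearMap.mul ℝ B W.S).comp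
      ((ContinuousLinearMap.mul ℝ B W.S).comp (W.σ.comp (W.P.comp (W.σ.comp
      ((ContinuousLinearMap.mul ℝ B W.T).comp (ContinuousLinearMap.mul ℝ B W.T)))))))
      (ContinuousLinearMap.id ℝ B) (fun n => by
    simp only [ContinuousLinearMap.comp_apply, ContinuousLinearMap.mul_apply', σ_τ, T_mul, P_τ,
      ContinuousLinearMap.add_apply, ContinuousLinearMap.id_apply,
      ContinuousLinearMap.smulRight_apply, cm_τ]
    by_cases h : 0 ≤ n
    · rw [if_pos h, if_neg (by omega), if_neg (by omega)]; simp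
    · by_cases h1 : n = -1
      · subst h1; simp [S]
      · rw [if_neg h, if_neg h1, if_pos (by omega), σ_τ, S_mul, S_mul]
        simp only [zero_smul, zero_add]
        congr 1; ring) x

lemma QL (w : B) : W.Q ((2 : ℝ) • W.σ (W.J (W.M w)) + W.M w - W.σ (W.M w)) = W.Q w :=
  W.hext (W.Q.comp ((2 : ℝ) • W.σ.comp (W.J.comp W.M) + W.M - W.σ.comp W.M)) W.Q (fun n => by
    simp only [ContinuousLinearMap.comp_apply, ContinuousLinearMap.add_apply,
      ContinuousLinearMap.sub_apply, ContinuousLinearMap.smul_apply, M_τ, Q_τ]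
    split_ifs with h
    · have h0 : 0 ≤ -n := by omega
      simp only [map_smul, J_τ, if_pos h0, σ_τ, neg_neg, map_add, map_sub, Q_τ, if_pos h]
      by_cases h1 : n = 0
      · subst h1; simp [mu, smul_smul]
      · rw [if_neg (by omega)]
        have h2 : n ≤ -2 := by
          obtain ⟨h1, k, hk⟩ := h
          omega
        have h3 : (n : ℝ) ≤ -2 := by exact_mod_cast h2
        simp only [mu, if_neg h1, smul_smul, smul_zero, add_zero, ← sub_smul]
        have h4 : (1 + n : ℝ) ≠ 0 := by linarith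
        have h5 : (-n + 1 : ℝ) ≠ 0 := by linarith
        have : 2 * ((1 - (n : ℝ)) / (1 + n) * (((-n : ℤ) : ℝ) + 1)⁻¹) - (1 - n) / (1 + n) = 1 := by
          push_cast
          field_simp
          ring
        rw [this, one_smul]
    · simp) w

lemma parity {X : B} (h1 : W.ι X = X) (h2 : W.Q X = 0) :
    W.T * (W.T * W.P (W.S * (W.S * X))) = X := by
  set A : B →L[ℝ] B := ContinuousLinearMap.id ℝ B - (ContinuousLinearMap.mul ℝ B W.T).comp
    ((ContinuousLinearMap.mul ℝ B W.T).comp (W.P.comp ((ContinuousLinearMap.mul ℝ B W.S).comp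
      (ContinuousLinearMap.mul ℝ B W.S)))) with hA
  have hAτ : ∀ n, A (W.τ n) = if n ≤ 1 then W.τ n else 0 := by
    intro n
    simp only [hA, ContinuousLinearMap.comp_apply, ContinuousLinearMap.mul_apply',
      ContinuousLinearMap.sub_apply, ContinuousLinearMap.id_apply, S_mul, P_τ]
    by_cases h : n ≤ 1
    · rw [if_pos h, if_neg (by omega)]; simp
    · rw [if_neg h, if_pos (by omega), T_mul, T_mul, sub_eq_zero]; congr 1; ring
  have h3 := W.hext A (W.Q + (1 / 2 : ℝ) • A.comp (ContinuousLinearMap.id ℝ B - W.ι)) (fun n => by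
    simp only [ContinuousLinearMap.comp_apply, ContinuousLinearMap.add_apply,
      ContinuousLinearMap.sub_apply, ContinuousLinearMap.smul_apply,
      ContinuousLinearMap.id_apply, ι_τ, Q_τ, map_sub, map_smul, hAτ]
    rcases Int.even_or_odd n with h | h
    · rw [h.neg_one_zpow, one_smul, sub_self, smul_zero, add_zero]
      obtain ⟨k, hk⟩ := h
      by_cases h4 : n ≤ 0
      · rw [if_pos (by omega), if_pos ⟨h4, ⟨k, hk⟩⟩]
      · rw [if_neg (by omega), if_neg (fun h => h4 h.1)]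
    · rw [h.neg_one_zpow, if_neg (show ¬ (n ≤ 0 ∧ Even n) from
        fun h' => (Int.not_even_iff_odd.2 h) h'.2), zero_add, neg_smul, one_smul, sub_neg_eq_add, ← two_smul ℝ, smul_smul]
      norm_num) X
  simp only [ContinuousLinearMap.comp_apply, ContinuousLinearMap.add_apply,
    ContinuousLinearMap.sub_apply, ContinuousLinearMap.smul_apply, ContinuousLinearMap.id_apply,
    h1, h2, sub_self, map_zero, smul_zero, add_zero] at h3
  simp only [hA, ContinuousLinearMap.comp_apply, ContinuousLinearMap.mul_apply',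
      ContinuousLinearMap.sub_apply, ContinuousLinearMap.id_apply] at h3
  exact (sub_eq_zero.1 h3).symm

end WB

/-- geometric series -/
noncomputable def inv1 (y : B) : B := ∑' n : ℕ, y ^ n

lemma inv1_mul (y : B) (hy : ‖y‖ < 1) : inv1 y * (1 - y) = 1 :=
  geom_series_mul_neg y hy

lemma WB.norm_inv1 (W : WB B) (y : B) (hy : ‖y‖ ≤ 1 / 2) : ‖inv1 y‖ ≤ 2 := by
  have h := tsum_geometric_le_of_norm_lt_one y (by linarith)
  have h1 := W.norm_one_le
  have h2 : (1 - ‖y‖)⁻¹ ≤ 2 := by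
    rw [inv_le_comm₀ (by linarith) (by norm_num)]; linarith
  unfold inv1
  linarith

lemma inv1_eq (y : B) (hy : ‖y‖ < 1) : inv1 y = 1 + y * inv1 y := by
  have := inv1_mul y hy
  linear_combination this

lemma WB.norm_inv1_sub (W : WB B) (y y' : B) (hy : ‖y‖ ≤ 1 / 2) (hy' : ‖y'‖ ≤ 1 / 2) :
    ‖inv1 y - inv1 y'‖ ≤ 4 * ‖y - y'‖ := by
  have h1 := inv1_mul y (by linarith)
  have h2 := inv1_mul y' (by linarith)
  have h3 : inv1 y - inv1 y' = inv1 y * (inv1 y' * (y - y')) := by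
    linear_combination (inv1 y') * h1 - (inv1 y) * h2
  rw [h3]
  have h4 := W.norm_inv1 y hy
  have h5 := W.norm_inv1 y' hy'
  calc _ ≤ ‖inv1 y‖ * (‖inv1 y'‖ * ‖y - y'‖) :=
        (norm_mul_le _ _).trans (mul_le_mul_of_nonneg_left (norm_mul_le _ _) (norm_nonneg _))
    _ ≤ 2 * (2 * ‖y - y'‖) := by gcongr
    _ = _ := by ring

lemma WB.P_inv1 (W : WB B) {y : B} (hP : W.P y = y) (hy : ‖y‖ < 1) : W.P (inv1 y) = inv1 y := by
  unfold inv1
  rw [W.P.map_tsum (summable_geometric_of_norm_lt_one hy)]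
  exact tsum_congr fun n => W.P_pow hP n

lemma WB.σ_inv1 (W : WB B) {y : B} (hy : ‖y‖ < 1) : W.σ (inv1 y) = inv1 (W.σ y) := by
  unfold inv1
  rw [W.σ.map_tsum (summable_geometric_of_norm_lt_one hy)]
  exact tsum_congr fun n => W.σ_pow y n

lemma WB.ι_inv1 (W : WB B) {y : B} (hy : ‖y‖ < 1) : W.ι (inv1 y) = inv1 (W.ι y) := by
  unfold inv1
  rw [W.ι.map_tsum (summable_geometric_of_norm_lt_one hy)]
  exact tsum_congr fun n => W.ι_pow y n

lemma WB.ev_inv1 (W : WB B) (z : ℂ) (hz : ‖z‖ = 1) {y : B} (hy : ‖y‖ < 1) :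
    W.ev z (inv1 y) = (1 - W.ev z y)⁻¹ := by
  have h := congrArg (W.ev z) (inv1_mul y hy)
  rw [W.ev_mul z hz, map_sub, W.ev_one z hz] at h
  exact eq_inv_of_mul_eq_one_left h

end Pool.Agent.H213Z.Quad3
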