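import Mathlib
import Pool.Agent.H213Z.Quad3.Ops

set_option autoImplicit false
set_option linter.unusedSectionVars false

open Set Metric Filter Topology

namespace Pool.Agent.H213Z.Quad3

/-- bounded and Lipschitz on a set -/
def BL {V Y : Type} [NormedAddCommGroup V] [NormedAddCommGroup Y] (U : Set V) (f : V → Y) : Prop :=
  ∃ C : ℝ, 0 ≤ C ∧ (∀ x ∈ U, ‖f x‖ ≤ C) ∧ ∀ x ∈ U, ∀ y ∈ U, ‖f x - f y‖ ≤ C * ‖x - y‖

section general

variable {V Y Y' : Type} [NormedAddCommGroup V] [NormedAddCommGroup Y] [NormedAddCommGroup Y']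
  {U : Set V}

lemma BL.of {f : V → Y} (C₁ C₂ : ℝ) (h1 : ∀ x ∈ U, ‖f x‖ ≤ C₁)
    (h2 : ∀ x ∈ U, ∀ y ∈ U, ‖f x - f y‖ ≤ C₂ * ‖x - y‖) : BL U f :=
  ⟨max 0 (max C₁ C₂), le_max_left _ _,
    fun x hx => (h1 x hx).trans ((le_max_left _ _).trans (le_max_right _ _)),
    fun x hx y hy => (h2 x hx y hy).trans (mul_le_mul_of_nonneg_right
      ((le_max_right _ _).trans (le_max_right _ _)) (norm_nonneg _))⟩

lemma BL.const (c : Y) : BL U (fun _ => c) :=
  BL.of ‖c‖ 0 (fun _ _ => le_rfl) (fun _ _ _ _ => by simp)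

lemma BL.add {f g : V → Y} (hf : BL U f) (hg : BL U g) : BL U (fun x => f x + g x) := by
  obtain ⟨C, -, h1, h2⟩ := hf
  obtain ⟨D, -, h3, h4⟩ := hg
  refine BL.of (C + D) (C + D)
    (fun x hx => (norm_add_le _ _).trans (add_le_add (h1 x hx) (h3 x hx))) fun x hx y hy => ?_
  have : f x + g x - (f y + g y) = (f x - f y) + (g x - g y) := by abel
  rw [this, add_mul]
  exact (norm_add_le _ _).trans (add_le_add (h2 x hx y hy) (h4 x hx y hy))

lemma BL.neg {f : V → Y} (hf : BL U f) : BL U (fun x => -f x) := by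
  obtain ⟨C, -, h1, h2⟩ := hf
  refine BL.of C C (fun x hx => by simpa using h1 x hx) fun x hx y hy => ?_
  rw [neg_sub_neg, norm_sub_rev]
  exact h2 x hx y hy

lemma BL.sub {f g : V → Y} (hf : BL U f) (hg : BL U g) : BL U (fun x => f x - g x) := by
  simpa [sub_eq_add_neg] using hf.add hg.neg

lemma BL.clm [NormedSpace ℝ Y] [NormedSpace ℝ Y'] (L : Y →L[ℝ] Y') {f : V → Y} (hf : BL U f) :
    BL U (fun x => L (f x)) := by
  obtain ⟨C, -, h1, h2⟩ := hf
  refine BL.of (‖L‖ * C) (‖L‖ * C) (fun x hx => (L.le_opNorm _).trans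
    (mul_le_mul_of_nonneg_left (h1 x hx) (norm_nonneg _))) fun x hx y hy => ?_
  rw [← map_sub, mul_assoc]
  exact (L.le_opNorm _).trans (mul_le_mul_of_nonneg_left (h2 x hx y hy) (norm_nonneg _))

lemma BL.prod {f : V → Y} {g : V → Y'} (hf : BL U f) (hg : BL U g) :
    BL U (fun x => (f x, g x)) := by
  obtain ⟨C, -, h1, h2⟩ := hf
  obtain ⟨D, -, h3, h4⟩ := hg
  refine BL.of (max C D) (max C D) (fun x hx => ?_) fun x hx y hy => ?_
  · rw [Prod.norm_def]
    exact max_le_max (h1 x hx) (h3 x hx)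
  · rw [Prod.mk_sub_mk, Prod.norm_def]
    exact max_le ((h2 x hx y hy).trans (mul_le_mul_of_nonneg_right (le_max_left _ _)
      (norm_nonneg _))) ((h4 x hx y hy).trans (mul_le_mul_of_nonneg_right (le_max_right _ _)
      (norm_nonneg _)))

lemma BL.smul [NormedSpace ℝ Y] {c : V → ℝ} {f : V → Y} (hc : BL U c) (hf : BL U f) :
    BL U (fun x => c x • f x) := by
  obtain ⟨C, hC, h1, h2⟩ := hc
  obtain ⟨D, hD, h3, h4⟩ := hf
  refine BL.of (C * D) (C * D + C * D) (fun x hx => ?_) fun x hx y hy => ?_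
  · rw [norm_smul]
    exact mul_le_mul (h1 x hx) (h3 x hx) (norm_nonneg _) hC
  · have : c x • f x - c y • f y = c x • (f x - f y) + (c x - c y) • f y := by
      rw [smul_sub, sub_smul]; abel
    rw [this]
    refine (norm_add_le _ _).trans ?_
    rw [norm_smul, norm_smul]
    have h5 := mul_le_mul (h1 x hx) (h4 x hx y hy) (norm_nonneg _) hC
    have h6 := mul_le_mul (h2 x hx y hy) (h3 y hy) (norm_nonneg _) (by positivity)
    nlinarith

lemma BL.mul {A : Type} [NormedRing A] {f g : V → A} (hf : BL U f) (hg : BL U g) :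
    BL U (fun x => f x * g x) := by
  obtain ⟨C, hC, h1, h2⟩ := hf
  obtain ⟨D, hD, h3, h4⟩ := hg
  refine BL.of (C * D) (C * D + C * D) (fun x hx => ?_) fun x hx y hy => ?_
  · exact (norm_mul_le _ _).trans (mul_le_mul (h1 x hx) (h3 x hx) (norm_nonneg _) hC)
  · have : f x * g x - f y * g y = f x * (g x - g y) + (f x - f y) * g y := by
      rw [mul_sub, sub_mul]; abel
    rw [this]
    refine (norm_add_le _ _).trans ?_
    have h5 := (norm_mul_le _ _).trans (mul_le_mul (h1 x hx) (h4 x hx y hy) (norm_nonneg _) hC)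
    have h6 := (norm_mul_le _ _).trans
      (mul_le_mul (h2 x hx y hy) (h3 y hy) (norm_nonneg _) (by positivity))
    nlinarith

end general

section alg

variable {B : Type} [NormedCommRing B] [NormedAlgebra ℝ B] [CompleteSpace B]
  {V : Type} [NormedAddCommGroup V] {U : Set V}

lemma BL.comp (W : WB B) {y x : V → B} (hn : ∀ v ∈ U, ‖y v‖ ≤ 1 / 2) (hy : BL U y) (hx : BL U x) :
    BL U (fun v => W.C (y v) (x v)) := by
  obtain ⟨C, hC, h1, h2⟩ := hy
  obtain ⟨D, hD, h3, h4⟩ := hx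
  refine BL.of D (D + C * D) (fun v hv => ?_) fun v hv w hw => ?_
  · exact (W.norm_C _ (by linarith [hn v hv]) _).trans (h3 v hv)
  · have : W.C (y v) (x v) - W.C (y w) (x w)
        = W.C (y v) (x v - x w) + (W.C (y v) (x w) - W.C (y w) (x w)) := by
      rw [map_sub]; abel
    rw [this]
    refine (norm_add_le _ _).trans ?_
    have h5 := (W.norm_C _ (by linarith [hn v hv]) (x v - x w)).trans (h4 v hv w hw)
    have h6 := (W.norm_C_sub _ _ (hn v hv) (hn w hw) (x w)).trans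
      (mul_le_mul (h2 v hv w hw) (h3 w hw) (norm_nonneg _) (by positivity))
    nlinarith

lemma BL.inv (W : WB B) {y : V → B} (hn : ∀ v ∈ U, ‖y v‖ ≤ 1 / 2) (hy : BL U y) :
    BL U (fun v => inv1 (y v)) := by
  obtain ⟨C, hC, h1, h2⟩ := hy
  refine BL.of 2 (4 * C) (fun v hv => W.norm_inv1 _ (hn v hv)) fun v hv w hw => ?_
  refine (W.norm_inv1_sub _ _ (hn v hv) (hn w hw)).trans ?_
  have := h2 v hv w hw
  nlinarith

end alg

/-- small-parameter fixed points -/
theorem exists_fixed {X : Type} [NormedAddCommGroup X] [NormedSpace ℝ X] [CompleteSpace X]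
    (x₀ : X) (G : ℝ × X → X) (hG : BL (Icc (0 : ℝ) (1 / 10) ×ˢ closedBall x₀ 1) G) :
    ∃ a₀ : ℝ, 0 < a₀ ∧ ∀ a : ℝ, 0 < a → a ≤ a₀ → ∃ x ∈ closedBall x₀ 1, x = x₀ + a • G (a, x) := by
  obtain ⟨C, hC, h1, h2⟩ := hG
  refine ⟨min (1 / 10) (1 / (2 * C + 2)), by positivity, fun a ha ha' => ?_⟩
  have ha1 : a ≤ 1 / 10 := ha'.trans (min_le_left _ _)
  have ha2 : a * C ≤ 1 / 2 := by
    have h := ha'.trans (min_le_right _ _)
    rw [le_div_iff₀ (by positivity)] at h
    nlinarith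
  set f : X → X := fun x => x₀ + a • G (a, x) with hf
  have hm : MapsTo f (closedBall x₀ 1) (closedBall x₀ 1) := by
    intro x hx
    rw [mem_closedBall, dist_eq_norm, hf]
    simp only [add_sub_cancel_left, norm_smul, Real.norm_of_nonneg ha.le]
    have := h1 (a, x) ⟨⟨ha.le, ha1⟩, hx⟩
    nlinarith
  have hc : ContractingWith (1 / 2 : NNReal) (hm.restrict f _ _) := by
    refine ⟨by norm_num, LipschitzWith.of_dist_le_mul fun x y => ?_⟩
    have h3 := h2 (a, x.1) ⟨⟨ha.le, ha1⟩, x.2⟩ (a, y.1) ⟨⟨ha.le, ha1⟩, y.2⟩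
    have h4 : ‖((a, x.1) : ℝ × X) - (a, y.1)‖ = ‖x.1 - y.1‖ := by
      simp [Prod.norm_def]
    rw [h4] at h3
    rw [Subtype.dist_eq, Subtype.dist_eq, dist_eq_norm, dist_eq_norm]
    simp only [MapsTo.val_restrict_apply, hf, add_sub_add_left_eq_sub, ← smul_sub, norm_smul,
      Real.norm_of_nonneg ha.le]
    have h5 := norm_nonneg (x.1 - y.1)
    push_cast
    nlinarith
  obtain ⟨y, hy, hfix, -⟩ := hc.exists_fixedPoint' isClosed_closedBall.isComplete hm
    (mem_closedBall_self zero_le_one) (edist_ne_top _ _)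
  exact ⟨y, hy, hfix.symm⟩

end Pool.Agent.H213Z.Quad3
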