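import Mathlib
import Pool.Agent.H213Z.Quad3.BL

set_option autoImplicit false
set_option linter.unusedSectionVars false
set_option maxHeartbeats 400000

open Set Metric Filter Topology

namespace Pool.Agent.H213Z.Quad3

variable {B : Type} [NormedCommRing B] [NormedAlgebra ℝ B] [CompleteSpace B]

namespace WB

variable (W : WB B) (v : ℝ × ℝ × B × B)

/-- auxiliary element -/
noncomputable def V1 : B := W.S * inv1 (v.1 • W.S)
/-- auxiliary element -/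
noncomputable def V2 : B := -(W.S * inv1 (-(v.1 • W.S)))
/-- auxiliary element -/
noncomputable def U1 : B := (2 * v.1 * v.1 * v.2.1) • W.V1 v
/-- auxiliary element -/
noncomputable def U2 : B := (2 * v.1 * v.1 * v.2.1) • W.V2 v
/-- auxiliary element -/
noncomputable def So1 : B :=
  (2 * v.1 * v.2.1) • (W.V1 v * W.C (W.U1 v) v.2.2.2 + W.V2 v * W.C (W.U2 v) v.2.2.2)
/-- auxiliary element -/
noncomputable def So : B := v.2.2.1 + v.1 • W.So1 v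
/-- auxiliary element -/
noncomputable def wo : B := (2 : ℝ) • W.So v + v.1 • (W.So v * W.So v)
/-- auxiliary element -/
noncomputable def Z1 : B := 1 + (2 * v.1 * v.2.1) • W.T
/-- auxiliary element -/
noncomputable def Z : B := v.1 • W.Z1 v
/-- auxiliary element -/
noncomputable def yy : B := -((v.1 * v.2.1) • W.T)
/-- auxiliary element -/
noncomputable def Uh : B := -((v.1 * v.2.1) • inv1 (W.yy v))
/-- auxiliary element -/
noncomputable def Sh : B :=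
  W.C (W.Z v) v.2.2.1 + W.S * W.σ v.2.2.2 + W.Uh v * W.C (W.Uh v) v.2.2.2
/-- auxiliary element -/
noncomputable def wh : B := (2 : ℝ) • W.Sh v + v.1 • (W.Sh v * W.Sh v)
/-- auxiliary element -/
noncomputable def g1 : B := W.σ (W.T * (W.T * W.wh v))
/-- auxiliary element -/
noncomputable def Go : B :=
  W.U2 v * W.C (W.U2 v) (W.J (W.g1 v)) - W.U1 v * W.C (W.U1 v) (W.J (W.g1 v))
/-- auxiliary element -/
noncomputable def pto : B := W.T * W.J (W.wo v) + (2 * v.1 * v.1 * v.2.1) • W.Go v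
/-- auxiliary element -/
noncomputable def phh : B := (2 * v.2.1) • W.T + W.Z1 v * W.C (W.Z v) (W.J (W.wo v))
  + (2 * v.1 * v.2.1) • (W.Uh v * W.C (W.Uh v) (W.J (W.g1 v)) - W.S * W.σ (W.J (W.g1 v)))
/-- auxiliary element -/
noncomputable def Wo : B :=
  W.σ (W.pto v) + W.S * (W.So v - W.σ (W.So v)) + v.1 • (W.σ (W.pto v) * W.So v)
/-- auxiliary element -/
noncomputable def X : B := W.σ (W.phh v) + W.Sh v + v.1 • (W.σ (W.phh v) * W.Sh v)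
/-- auxiliary element -/
noncomputable def mh : B := W.σ (W.T * (1 + v.1 • W.X v) + W.σ (W.Sh v))
/-- auxiliary element -/
noncomputable def m : B := 1 + v.1 • W.mh v
/-- auxiliary element -/
noncomputable def k1 : B := W.P (W.S * W.Wo v)
/-- auxiliary element -/
noncomputable def No : B :=
  (2 * v.2.1) • (W.V1 v * W.C (W.U1 v) (W.m v) - W.V2 v * W.C (W.U2 v) (W.m v))
/-- auxiliary element -/
noncomputable def Ro : B := W.σ (W.J ((2 : ℝ) • W.So1 v + W.So v * W.So v))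
  + (2 * v.1 * v.2.1) • (W.T * W.σ (W.Go v)) + (W.So1 v - W.σ (W.So1 v))
  + W.T * (W.σ (W.pto v) * W.So v)
/-- auxiliary element -/
noncomputable def Bh : B := W.Z1 v * W.C (W.Z v) (W.k1 v)
  + v.2.1 • (W.C (W.Uh v) (W.mh v)
    - (v.2.1 • (W.T * inv1 (W.yy v))) * (1 + v.1 • W.C (W.Uh v) (W.mh v))) - W.P (W.X v)
/-- auxiliary number -/
noncomputable def Rq : ℝ := -(W.c0 (W.Bh v) + (1 / 2) * W.cm (W.Sh v * W.Sh v))
/-- the fixed point map -/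
noncomputable def G : ℝ × B × B :=
  (W.Rq v, -W.M (W.Ro v - W.T * W.No v), W.Rq v • (1 : B) + W.Bh v)

end WB

/-- the parameter domain -/
def Dom (B : Type) [NormedCommRing B] : Set (ℝ × ℝ × B × B) :=
  Icc (0 : ℝ) (1 / 10) ×ˢ closedBall ((1 : ℝ), (0 : B), (0 : B)) 1

lemma Dom.facts {v : ℝ × ℝ × B × B} (hv : v ∈ Dom B) :
    0 ≤ v.1 ∧ v.1 ≤ 1 / 10 ∧ 0 ≤ v.2.1 ∧ v.2.1 ≤ 2 ∧ ‖v.2.2.1‖ ≤ 1 ∧ ‖v.2.2.2‖ ≤ 1 := by
  obtain ⟨⟨h1, h2⟩, h3⟩ := hv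
  rw [mem_closedBall, dist_eq_norm, Prod.norm_def, max_le_iff, Prod.norm_def, max_le_iff] at h3
  obtain ⟨h4, h5, h6⟩ := h3
  simp only [Prod.fst_sub, Prod.snd_sub, sub_zero, Real.norm_eq_abs, abs_le] at h4 h5 h6
  exact ⟨h1, h2, by linarith [h4.1], by linarith [h4.2], h5, h6⟩

lemma bl_a : BL (Dom B) (fun v => v.1) :=
  BL.of 1 1 (fun v hv => by
    obtain ⟨h1, h2, h3, h4, h5, h6⟩ := Dom.facts hv
    rw [Real.norm_of_nonneg h1]; linarith)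
    (fun x _ y _ => by rw [one_mul]; exact norm_fst_le (x - y))
lemma bl_q : BL (Dom B) (fun v => v.2.1) :=
  BL.of 2 1 (fun v hv => by
    obtain ⟨h1, h2, h3, h4, h5, h6⟩ := Dom.facts hv
    rw [Real.norm_of_nonneg h3]; linarith)
    (fun x _ y _ => by
      rw [one_mul]; exact (norm_fst_le (x - y).2).trans (norm_snd_le (x - y)))
lemma bl_s : BL (Dom B) (fun v => v.2.2.1) :=
  BL.of 1 1 (fun v hv => (Dom.facts hv).2.2.2.2.1)
    (fun x _ y _ => by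
      rw [one_mul]
      exact ((norm_fst_le (x - y).2.2).trans (norm_snd_le (x - y).2)).trans (norm_snd_le (x - y)))
lemma bl_p : BL (Dom B) (fun v => v.2.2.2) :=
  BL.of 1 1 (fun v hv => (Dom.facts hv).2.2.2.2.2)
    (fun x _ y _ => by
      rw [one_mul]
      exact ((norm_snd_le (x - y).2.2).trans (norm_snd_le (x - y).2)).trans (norm_snd_le (x - y)))
lemma bl_aq : BL (Dom B) (fun v => v.1 * v.2.1) := bl_a.mul bl_q
lemma bl_2q : BL (Dom B) (fun v => 2 * v.2.1) := (BL.const 2).mul bl_q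
lemma bl_2aq : BL (Dom B) (fun v => 2 * v.1 * v.2.1) := ((BL.const 2).mul bl_a).mul bl_q
lemma bl_2aaq : BL (Dom B) (fun v => 2 * v.1 * v.1 * v.2.1) :=
  (((BL.const 2).mul bl_a).mul bl_a).mul bl_q

namespace WB

variable (W : WB B)

lemma n_smul (c d e : ℝ) (x : B) (hc : 0 ≤ c) (hd : c ≤ d) (he : ‖x‖ ≤ e) : ‖c • x‖ ≤ d * e := by
  rw [norm_smul, Real.norm_of_nonneg hc]
  exact mul_le_mul hd he (norm_nonneg _) (hc.trans hd)

lemma n_aS {v : ℝ × ℝ × B × B} (hv : v ∈ Dom B) : ‖v.1 • W.S‖ ≤ 1 / 2 := by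
  obtain ⟨h1, h2, h3, h4, h5, h6⟩ := Dom.facts hv
  have := n_smul _ _ _ _ h1 h2 W.norm_S
  linarith

lemma n_aS' {v : ℝ × ℝ × B × B} (hv : v ∈ Dom B) : ‖-(v.1 • W.S)‖ ≤ 1 / 2 := by
  rw [norm_neg]; exact W.n_aS hv

lemma n_V1 {v : ℝ × ℝ × B × B} (hv : v ∈ Dom B) : ‖W.V1 v‖ ≤ 2 :=
  (norm_mul_le _ _).trans ((mul_le_mul W.norm_S (W.norm_inv1 _ (W.n_aS hv)) (norm_nonneg _)
    zero_le_one).trans (by norm_num))

lemma n_V2 {v : ℝ × ℝ × B × B} (hv : v ∈ Dom B) : ‖W.V2 v‖ ≤ 2 := by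
  unfold V2
  rw [norm_neg]
  exact (norm_mul_le _ _).trans ((mul_le_mul W.norm_S (W.norm_inv1 _ (W.n_aS' hv)) (norm_nonneg _)
    zero_le_one).trans (by norm_num))

lemma c_2aaq {v : ℝ × ℝ × B × B} (hv : v ∈ Dom B) :
    0 ≤ 2 * v.1 * v.1 * v.2.1 ∧ 2 * v.1 * v.1 * v.2.1 ≤ 1 / 25 := by
  obtain ⟨h1, h2, h3, h4, h5, h6⟩ := Dom.facts hv
  refine ⟨by positivity, ?_⟩
  have : v.1 * v.1 ≤ 1 / 100 := by nlinarith
  nlinarith

lemma c_aq {v : ℝ × ℝ × B × B} (hv : v ∈ Dom B) : 0 ≤ v.1 * v.2.1 ∧ v.1 * v.2.1 ≤ 1 / 5 := by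
  obtain ⟨h1, h2, h3, h4, h5, h6⟩ := Dom.facts hv
  refine ⟨by positivity, by nlinarith⟩

lemma n_U1 {v : ℝ × ℝ × B × B} (hv : v ∈ Dom B) : ‖W.U1 v‖ ≤ 1 / 2 := by
  have := n_smul _ _ _ _ (c_2aaq hv).1 (c_2aaq hv).2 (W.n_V1 hv)
  unfold U1
  linarith

lemma n_U2 {v : ℝ × ℝ × B × B} (hv : v ∈ Dom B) : ‖W.U2 v‖ ≤ 1 / 2 := by
  have := n_smul _ _ _ _ (c_2aaq hv).1 (c_2aaq hv).2 (W.n_V2 hv)
  unfold U2
  linarith

lemma n_Z {v : ℝ × ℝ × B × B} (hv : v ∈ Dom B) : ‖W.Z v‖ ≤ 1 / 2 := by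
  obtain ⟨h1, h2, h3, h4, h5, h6⟩ := Dom.facts hv
  have h7 : ‖(2 * v.1 * v.2.1) • W.T‖ ≤ 2 / 5 * 1 :=
    n_smul _ _ _ _ (by positivity) (by nlinarith) W.norm_T
  have h8 : ‖W.Z1 v‖ ≤ 2 := by
    unfold Z1
    have := W.norm_one_le
    exact (norm_add_le _ _).trans (by linarith)
  have := n_smul _ _ _ _ h1 h2 h8
  unfold Z
  linarith

lemma n_yy {v : ℝ × ℝ × B × B} (hv : v ∈ Dom B) : ‖W.yy v‖ ≤ 1 / 2 := by
  have := n_smul _ _ _ _ (c_aq hv).1 (c_aq hv).2 W.norm_T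
  unfold yy
  rw [norm_neg]
  linarith

lemma n_Uh {v : ℝ × ℝ × B × B} (hv : v ∈ Dom B) : ‖W.Uh v‖ ≤ 1 / 2 := by
  have := n_smul _ _ _ _ (c_aq hv).1 (c_aq hv).2 (W.norm_inv1 _ (W.n_yy hv))
  unfold Uh
  rw [norm_neg]
  linarith

lemma bl_V1 : BL (Dom B) W.V1 :=
  (BL.const _).mul (BL.inv W (fun _ hv => W.n_aS hv) (bl_a.smul (BL.const _)))
lemma bl_V2 : BL (Dom B) W.V2 :=
  ((BL.const _).mul (BL.inv W (fun _ hv => W.n_aS' hv) (bl_a.smul (BL.const _)).neg)).neg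
lemma bl_U1 : BL (Dom B) W.U1 := bl_2aaq.smul W.bl_V1
lemma bl_U2 : BL (Dom B) W.U2 := bl_2aaq.smul W.bl_V2
lemma bl_C1 {x : ℝ × ℝ × B × B → B} (hx : BL (Dom B) x) :
    BL (Dom B) (fun v => W.C (W.U1 v) (x v)) := BL.comp W (fun _ hv => W.n_U1 hv) W.bl_U1 hx
lemma bl_C2 {x : ℝ × ℝ × B × B → B} (hx : BL (Dom B) x) :
    BL (Dom B) (fun v => W.C (W.U2 v) (x v)) := BL.comp W (fun _ hv => W.n_U2 hv) W.bl_U2 hx
lemma bl_So1 : BL (Dom B) W.So1 :=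
  bl_2aq.smul ((W.bl_V1.mul (W.bl_C1 bl_p)).add (W.bl_V2.mul (W.bl_C2 bl_p)))
lemma bl_So : BL (Dom B) W.So := bl_s.add (bl_a.smul W.bl_So1)
lemma bl_wo : BL (Dom B) W.wo :=
  ((BL.const 2).smul W.bl_So).add (bl_a.smul (W.bl_So.mul W.bl_So))
lemma bl_Z1 : BL (Dom B) W.Z1 := (BL.const 1).add (bl_2aq.smul (BL.const _))
lemma bl_Z : BL (Dom B) W.Z := bl_a.smul W.bl_Z1
lemma bl_yy : BL (Dom B) W.yy := (bl_aq.smul (BL.const _)).neg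
lemma bl_iy : BL (Dom B) (fun v => inv1 (W.yy v)) := BL.inv W (fun _ hv => W.n_yy hv) W.bl_yy
lemma bl_Uh : BL (Dom B) W.Uh := (bl_aq.smul W.bl_iy).neg
lemma bl_CZ {x : ℝ × ℝ × B × B → B} (hx : BL (Dom B) x) :
    BL (Dom B) (fun v => W.C (W.Z v) (x v)) := BL.comp W (fun _ hv => W.n_Z hv) W.bl_Z hx
lemma bl_Ch {x : ℝ × ℝ × B × B → B} (hx : BL (Dom B) x) :
    BL (Dom B) (fun v => W.C (W.Uh v) (x v)) := BL.comp W (fun _ hv => W.n_Uh hv) W.bl_Uh hx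
lemma bl_Sh : BL (Dom B) W.Sh :=
  ((W.bl_CZ bl_s).add ((BL.const _).mul (bl_p.clm W.σ))).add (W.bl_Uh.mul (W.bl_Ch bl_p))
lemma bl_wh : BL (Dom B) W.wh :=
  ((BL.const 2).smul W.bl_Sh).add (bl_a.smul (W.bl_Sh.mul W.bl_Sh))
lemma bl_g1 : BL (Dom B) W.g1 := ((BL.const _).mul ((BL.const _).mul W.bl_wh)).clm W.σ
lemma bl_Go : BL (Dom B) W.Go :=
  (W.bl_U2.mul (W.bl_C2 (W.bl_g1.clm W.J))).sub (W.bl_U1.mul (W.bl_C1 (W.bl_g1.clm W.J)))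
lemma bl_pto : BL (Dom B) W.pto :=
  ((BL.const _).mul (W.bl_wo.clm W.J)).add (bl_2aaq.smul W.bl_Go)
lemma bl_phh : BL (Dom B) W.phh :=
  ((bl_2q.smul (BL.const _)).add (W.bl_Z1.mul (W.bl_CZ (W.bl_wo.clm W.J)))).add
    (bl_2aq.smul ((W.bl_Uh.mul (W.bl_Ch (W.bl_g1.clm W.J))).sub
      ((BL.const _).mul ((W.bl_g1.clm W.J).clm W.σ))))
lemma bl_Wo : BL (Dom B) W.Wo :=
  ((W.bl_pto.clm W.σ).add ((BL.const _).mul (W.bl_So.sub (W.bl_So.clm W.σ)))).add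
    (bl_a.smul ((W.bl_pto.clm W.σ).mul W.bl_So))
lemma bl_X : BL (Dom B) W.X :=
  ((W.bl_phh.clm W.σ).add W.bl_Sh).add (bl_a.smul ((W.bl_phh.clm W.σ).mul W.bl_Sh))
lemma bl_mh : BL (Dom B) W.mh :=
  (((BL.const _).mul ((BL.const _).add (bl_a.smul W.bl_X))).add (W.bl_Sh.clm W.σ)).clm W.σ
lemma bl_m : BL (Dom B) W.m := (BL.const _).add (bl_a.smul W.bl_mh)
lemma bl_k1 : BL (Dom B) W.k1 := ((BL.const _).mul W.bl_Wo).clm W.P
lemma bl_No : BL (Dom B) W.No :=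
  bl_2q.smul ((W.bl_V1.mul (W.bl_C1 W.bl_m)).sub (W.bl_V2.mul (W.bl_C2 W.bl_m)))
lemma bl_Ro : BL (Dom B) W.Ro :=
  (((((((BL.const 2).smul W.bl_So1).add (W.bl_So.mul W.bl_So)).clm W.J).clm W.σ).add
    (bl_2aq.smul ((BL.const _).mul (W.bl_Go.clm W.σ)))).add
    (W.bl_So1.sub (W.bl_So1.clm W.σ))).add ((BL.const _).mul ((W.bl_pto.clm W.σ).mul W.bl_So))
lemma bl_Bh : BL (Dom B) W.Bh :=
  ((W.bl_Z1.mul (W.bl_CZ W.bl_k1)).add (bl_q.smul ((W.bl_Ch W.bl_mh).sub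
    ((bl_q.smul ((BL.const _).mul W.bl_iy)).mul
      ((BL.const _).add (bl_a.smul (W.bl_Ch W.bl_mh))))))).sub (W.bl_X.clm W.P)
lemma bl_Rq : BL (Dom B) W.Rq :=
  ((W.bl_Bh.clm W.c0).add ((BL.const _).mul ((W.bl_Sh.mul W.bl_Sh).clm W.cm))).neg
lemma bl_G : BL (Dom B) W.G :=
  W.bl_Rq.prod ((((W.bl_Ro.sub ((BL.const _).mul W.bl_No)).clm W.M).neg).prod
    ((W.bl_Rq.smul (BL.const _)).add W.bl_Bh))

/-- the fixed point equations -/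
structure Fixed (v : ℝ × ℝ × B × B) : Prop where
  dom : v ∈ Dom B
  hq : v.2.1 = 1 + v.1 * W.Rq v
  hs : v.2.2.1 = W.M (-(v.1 • (W.Ro v - W.T * W.No v)))
  hp : v.2.2.2 = v.1 • (W.Rq v • (1 : B) + W.Bh v)

theorem exists_Fixed : ∃ v : ℝ × ℝ × B × B, W.Fixed v ∧ 0 < v.1 ∧ v.1 ≤ 1 / 100 ∧ 0 < v.2.1 ∧
    v.1 * (‖W.wo v‖ + 2 * ‖W.g1 v‖) ≤ 1 / 2 := by
  obtain ⟨a₀, ha₀, h⟩ := exists_fixed ((1 : ℝ), (0 : B), (0 : B)) W.G W.bl_G
  obtain ⟨C₁, hC₁, h1, -⟩ := W.bl_Rq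
  obtain ⟨C₂, hC₂, h2, -⟩ := W.bl_wo
  obtain ⟨C₃, hC₃, h3, -⟩ := W.bl_g1
  set a := min (min a₀ (1 / 100)) (1 / (2 * (C₁ + C₂ + 2 * C₃) + 2)) with ha
  have ha0 : 0 < a := by positivity
  have ha1 : a ≤ a₀ := (min_le_left _ _).trans (min_le_left _ _)
  have ha2 : a ≤ 1 / 100 := (min_le_left _ _).trans (min_le_right _ _)
  have ha3 : a * (C₁ + C₂ + 2 * C₃) ≤ 1 / 2 := by
    have h := min_le_right (min a₀ (1 / 100)) (1 / (2 * (C₁ + C₂ + 2 * C₃) + 2))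
    rw [← ha, le_div_iff₀ (by positivity)] at h
    nlinarith
  obtain ⟨x, hx, hfix⟩ := h a ha0 ha1
  have hdom : (a, x) ∈ Dom B := ⟨⟨ha0.le, by linarith⟩, hx⟩
  have e1 : x.1 = 1 + a * W.Rq (a, x) := by
    have := congrArg Prod.fst hfix
    simpa [G] using this
  have e2 : x.2.1 = W.M (-(a • (W.Ro (a, x) - W.T * W.No (a, x)))) := by
    have := congrArg (fun y => y.2.1) hfix
    rw [map_neg, map_smul, ← smul_neg]
    simpa only [G, Prod.snd_add, Prod.fst_add, Prod.smul_snd, Prod.smul_fst, zero_add] using this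
  have e3 : x.2.2 = a • (W.Rq (a, x) • (1 : B) + W.Bh (a, x)) := by
    have := congrArg (fun y => y.2.2) hfix
    simpa [G] using this
  refine ⟨(a, x), ⟨hdom, e1, e2, e3⟩, ha0, ha2, ?_, ?_⟩
  · have h4 := h1 _ hdom
    rw [Real.norm_eq_abs, abs_le] at h4
    change 0 < x.1
    rw [e1]
    nlinarith [h4.1]
  · have h5 := h2 _ hdom
    have h6 := h3 _ hdom
    change a * _ ≤ _
    nlinarith

section algebra

variable {W} {v : ℝ × ℝ × B × B}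

lemma ι_V1 (hv : v ∈ Dom B) : W.ι (W.V1 v) = W.V2 v := by
  unfold V1 V2
  rw [ι_mul, W.ι_inv1 (by linarith [W.n_aS hv]), map_smul, ι_S, smul_neg, neg_mul]

lemma ι_V2 (hv : v ∈ Dom B) : W.ι (W.V2 v) = W.V1 v := by
  unfold V1 V2
  rw [map_neg, ι_mul, W.ι_inv1 (by linarith [W.n_aS' hv]), map_neg, map_smul, ι_S, smul_neg,
    neg_mul, neg_neg, neg_neg]

lemma ι_U1 (hv : v ∈ Dom B) : W.ι (W.U1 v) = W.U2 v := by
  unfold U1 U2; rw [map_smul, ι_V1 hv]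

lemma ι_U2 (hv : v ∈ Dom B) : W.ι (W.U2 v) = W.U1 v := by
  unfold U1 U2; rw [map_smul, ι_V2 hv]

lemma ι_C1 (hv : v ∈ Dom B) (x : B) : W.ι (W.C (W.U1 v) x) = W.C (W.U2 v) x := by
  rw [W.ι_C _ (by linarith [W.n_U1 hv]), ι_U1 hv]

lemma ι_C2 (hv : v ∈ Dom B) (x : B) : W.ι (W.C (W.U2 v) x) = W.C (W.U1 v) x := by
  rw [W.ι_C _ (by linarith [W.n_U2 hv]), ι_U2 hv]

lemma Fixed.ι_s (h : W.Fixed v) : W.ι v.2.2.1 = v.2.2.1 := by rw [h.hs, ιM]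
lemma Fixed.P_s (h : W.Fixed v) : W.P v.2.2.1 = v.2.2.1 := by rw [h.hs, PM]

lemma ι_So1 (hv : v ∈ Dom B) : W.ι (W.So1 v) = W.So1 v := by
  unfold So1
  rw [map_smul, map_add, ι_mul, ι_mul, ι_V1 hv, ι_V2 hv, ι_C1 hv, ι_C2 hv, add_comm]

lemma Fixed.ι_So (h : W.Fixed v) : W.ι (W.So v) = W.So v := by
  unfold So
  rw [map_add, map_smul, h.ι_s, ι_So1 h.dom]

lemma Fixed.ι_wo (h : W.Fixed v) : W.ι (W.wo v) = W.wo v := by
  unfold wo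
  rw [map_add, map_smul, map_smul, ι_mul, h.ι_So]

lemma ι_Go (hv : v ∈ Dom B) : W.ι (W.Go v) = -W.Go v := by
  unfold Go
  rw [map_sub, ι_mul, ι_mul, ι_U1 hv, ι_U2 hv, ι_C1 hv, ι_C2 hv, neg_sub]

lemma Fixed.ι_pto (h : W.Fixed v) : W.ι (W.pto v) = -W.pto v := by
  unfold pto
  rw [map_add, map_smul, ι_mul, ι_T, ιJ, h.ι_wo, ι_Go h.dom, smul_neg, neg_mul, neg_add]

lemma Fixed.ι_Wo (h : W.Fixed v) : W.ι (W.Wo v) = -W.Wo v := by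
  unfold Wo
  simp only [map_add, map_smul, map_sub, ι_mul, ισ, h.ι_pto, h.ι_So, ι_S, map_neg]
  simp only [neg_mul, smul_neg, neg_add]

lemma Fixed.ι_k1 (h : W.Fixed v) : W.ι (W.k1 v) = W.k1 v := by
  unfold k1
  rw [ιP, ι_mul, ι_S, h.ι_Wo, neg_mul_neg]

lemma ι_No (hv : v ∈ Dom B) : W.ι (W.No v) = -W.No v := by
  unfold No
  rw [map_smul, map_sub, ι_mul, ι_mul, ι_V1 hv, ι_V2 hv, ι_C1 hv, ι_C2 hv, ← smul_neg, neg_sub]

lemma P_add {x y : B} (hx : W.P x = x) (hy : W.P y = y) : W.P (x + y) = x + y := by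
  rw [map_add, hx, hy]
lemma P_sub {x y : B} (hx : W.P x = x) (hy : W.P y = y) : W.P (x - y) = x - y := by
  rw [map_sub, hx, hy]
lemma P_neg {x : B} (hx : W.P x = x) : W.P (-x) = -x := by rw [map_neg, hx]
lemma P_smul (c : ℝ) {x : B} (hx : W.P x = x) : W.P (c • x) = c • x := by rw [map_smul, hx]

lemma P_σV1 (hv : v ∈ Dom B) : W.P (W.σ (W.V1 v)) = W.σ (W.V1 v) := by
  unfold V1
  have h1 : ‖v.1 • W.S‖ < 1 := by linarith [W.n_aS hv]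
  rw [σ_mul, W.σ_inv1 h1, σ_S]
  refine W.P_mul W.P_T (W.P_inv1 ?_ ((W.norm_σ _).trans_lt h1))
  rw [map_smul, σ_S]
  exact P_smul _ W.P_T

lemma P_σV2 (hv : v ∈ Dom B) : W.P (W.σ (W.V2 v)) = W.σ (W.V2 v) := by
  unfold V2
  have h1 : ‖-(v.1 • W.S)‖ < 1 := by linarith [W.n_aS' hv]
  rw [map_neg, σ_mul, W.σ_inv1 h1, σ_S]
  refine P_neg (W.P_mul W.P_T (W.P_inv1 ?_ ((W.norm_σ _).trans_lt h1)))
  rw [map_neg, map_smul, σ_S]
  exact P_neg (P_smul _ W.P_T)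

lemma P_σC1 (hv : v ∈ Dom B) (x : B) : W.P (W.σ (W.C (W.U1 v) x)) = W.σ (W.C (W.U1 v) x) := by
  have h1 : ‖W.U1 v‖ ≤ 1 := by linarith [W.n_U1 hv]
  rw [W.σ_C _ h1]
  refine W.P_C ?_ ((W.norm_σ _).trans h1) _
  unfold U1
  rw [map_smul]
  exact P_smul _ (P_σV1 hv)

lemma P_σC2 (hv : v ∈ Dom B) (x : B) : W.P (W.σ (W.C (W.U2 v) x)) = W.σ (W.C (W.U2 v) x) := by
  have h1 : ‖W.U2 v‖ ≤ 1 := by linarith [W.n_U2 hv]
  rw [W.σ_C _ h1]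
  refine W.P_C ?_ ((W.norm_σ _).trans h1) _
  unfold U2
  rw [map_smul]
  exact P_smul _ (P_σV2 hv)

lemma P_SNo (hv : v ∈ Dom B) : W.P (W.S * W.No v) = 0 := by
  rw [← W.σσ (W.No v)]
  apply W.P_Sσ
  unfold No
  rw [map_smul, map_sub, σ_mul, σ_mul]
  exact P_smul _ (P_sub (W.P_mul (P_σV1 hv) (P_σC1 hv _)) (W.P_mul (P_σV2 hv) (P_σC2 hv _)))

lemma TWo (v : ℝ × ℝ × B × B) : W.T * W.Wo v = ((2 : ℝ) • W.σ (W.J v.2.2.1) + v.2.2.1
    - W.σ v.2.2.1) + v.1 • W.Ro v := by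
  have h1 : W.wo v = (2 : ℝ) • v.2.2.1 + v.1 • ((2 : ℝ) • W.So1 v + W.So v * W.So v) := by
    unfold wo
    nth_rewrite 1 [So]
    module
  have h2 : W.σ (W.pto v) = W.S * ((2 : ℝ) • W.σ (W.J v.2.2.1)
      + v.1 • W.σ (W.J ((2 : ℝ) • W.So1 v + W.So v * W.So v)))
      + (2 * v.1 * v.1 * v.2.1) • W.σ (W.Go v) := by
    unfold pto
    rw [map_add, map_smul, σ_mul, σ_T, h1]
    simp only [map_add, map_smul]
  have h3 : W.σ (W.So v) = W.σ v.2.2.1 + v.1 • W.σ (W.So1 v) := by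
    unfold So; rw [map_add, map_smul]
  have h4 : W.So v = v.2.2.1 + v.1 • W.So1 v := rfl
  have h5 := W.TS
  unfold Wo Ro
  generalize W.σ (W.J ((2 : ℝ) • W.So1 v + W.So v * W.So v)) = y1 at *
  generalize W.σ (W.pto v) * W.So v = y2
  rw [h2, h3, h4]
  simp only [Algebra.smul_def, map_mul, map_ofNat]
  linear_combination (2 * W.σ (W.J v.2.2.1) + algebraMap ℝ B v.1 * y1 + v.2.2.1
    + algebraMap ℝ B v.1 * W.So1 v - W.σ v.2.2.1 - algebraMap ℝ B v.1 * W.σ (W.So1 v)) * h5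

lemma Fixed.outerK (h : W.Fixed v) :
    v.1 • (W.T * W.k1 v) + W.U1 v * W.C (W.U1 v) (W.m v) - W.U2 v * W.C (W.U2 v) (W.m v)
      = W.σ (W.T + v.1 • W.pto v) * (1 + v.1 • W.So v) - W.σ (W.T * (1 + v.1 • W.So v)) := by
  have h1 : W.ι (W.T * W.Wo v - v.1 • (W.T * W.No v)) = W.T * W.Wo v - v.1 • (W.T * W.No v) := by
    rw [map_sub, map_smul, ι_mul, ι_mul, ι_T, h.ι_Wo, ι_No h.dom, neg_mul_neg, neg_mul_neg]
  have h2 : W.Q (W.T * W.Wo v - v.1 • (W.T * W.No v)) = 0 := by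
    have h3 := W.QL (-(v.1 • (W.Ro v - W.T * W.No v)))
    rw [← h.hs] at h3
    rw [TWo, map_sub, map_add, h3]
    simp only [map_neg, map_smul, map_sub]
    module
  have h3 := W.parity h1 h2
  have h5 := W.ST
  have h4 : W.S * (W.S * (W.T * W.Wo v - v.1 • (W.T * W.No v)))
      = W.S * W.Wo v - v.1 • (W.S * W.No v) := by
    simp only [Algebra.smul_def]
    linear_combination (W.S * W.Wo v - algebraMap ℝ B v.1 * W.S * W.No v) * h5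
  rw [h4, map_sub, map_smul, P_SNo h.dom, smul_zero, sub_zero] at h3
  change W.T * (W.T * W.k1 v) = _ at h3
  simp only [σ_mul, map_add, map_smul, σ_T, σ_one]
  unfold Wo No at h3
  generalize W.C (W.U1 v) (W.m v) = c1 at *
  generalize W.C (W.U2 v) (W.m v) = c2 at *
  unfold U1 U2
  simp only [Algebra.smul_def, map_mul, map_ofNat] at h3 ⊢
  linear_combination (algebraMap ℝ B v.1 * W.S) * h3 + (algebraMap ℝ B v.1 *
    (W.σ (W.pto v) + W.S * (W.So v - W.σ (W.So v))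
      + algebraMap ℝ B v.1 * (W.σ (W.pto v) * W.So v)
      - algebraMap ℝ B v.1 * (2 * algebraMap ℝ B v.2.1 * (W.V1 v * c1 - W.V2 v * c2))
      - W.T * W.k1 v)) * h5

lemma P_Z1 (v : ℝ × ℝ × B × B) : W.P (W.Z1 v) = W.Z1 v := P_add W.P_one (P_smul _ W.P_T)
lemma P_Z (v : ℝ × ℝ × B × B) : W.P (W.Z v) = W.Z v := P_smul _ (P_Z1 v)
lemma P_iy (hv : v ∈ Dom B) : W.P (inv1 (W.yy v)) = inv1 (W.yy v) :=
  W.P_inv1 (P_neg (P_smul _ W.P_T)) (by linarith [W.n_yy hv])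
lemma P_Uh (hv : v ∈ Dom B) : W.P (W.Uh v) = W.Uh v := P_neg (P_smul _ (P_iy hv))
lemma P_CZ (hv : v ∈ Dom B) (x : B) : W.P (W.C (W.Z v) x) = W.C (W.Z v) x :=
  W.P_C (P_Z v) (by linarith [W.n_Z hv]) x
lemma P_Ch (hv : v ∈ Dom B) (x : B) : W.P (W.C (W.Uh v) x) = W.C (W.Uh v) x :=
  W.P_C (P_Uh hv) (by linarith [W.n_Uh hv]) x

lemma P_Bh (hv : v ∈ Dom B) : W.P (W.Bh v) = W.Bh v :=
  P_sub (P_add (W.P_mul (P_Z1 v) (P_CZ hv _)) (P_smul _ (P_sub (P_Ch hv _)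
    (W.P_mul (P_smul _ (W.P_mul W.P_T (P_iy hv))) (P_add W.P_one (P_smul _ (P_Ch hv _)))))))
    (W.PP _)

lemma Fixed.P_p (h : W.Fixed v) : W.P v.2.2.2 = v.2.2.2 := by
  rw [h.hp]
  exact P_smul _ (P_add (P_smul _ W.P_one) (P_Bh h.dom))

lemma Fixed.cm_wh (h : W.Fixed v) : W.cm (W.wh v) = 0 := by
  have h1 : W.cm (W.Sh v) = W.c0 v.2.2.2 := by
    unfold Sh
    rw [map_add, map_add, W.cm_P (P_CZ h.dom _), W.cm_P (W.P_mul (P_Uh h.dom) (P_Ch h.dom _)),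
      cm_Sσ, zero_add, add_zero]
  have h2 : W.c0 v.2.2.2 = v.1 * (W.Rq v + W.c0 (W.Bh v)) := by
    rw [h.hp, map_smul, map_add, map_smul, c0_one, smul_eq_mul, smul_eq_mul, mul_one]
  unfold wh
  rw [map_add, map_smul, map_smul, h1, h2, smul_eq_mul, smul_eq_mul]
  unfold Rq
  ring

lemma Fixed.holeK (h : W.Fixed v) :
    v.1 • (W.Z v * W.C (W.Z v) (W.k1 v)) + W.S * W.σ (W.P (W.m v))
      - W.Uh v * W.C (W.Uh v) (W.m v)
      = W.σ (v.1 • (1 + v.1 • W.phh v)) * (1 + v.1 • W.Sh v) + W.σ (W.T * (1 + v.1 • W.Sh v)) := by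
  have h5 := W.ST
  have e1 : W.σ (v.1 • (1 + v.1 • W.phh v)) * (1 + v.1 • W.Sh v) + W.σ (W.T * (1 + v.1 • W.Sh v))
      = v.1 • (1 + v.1 • W.X v) + W.S * W.σ 1 + v.1 • (W.S * W.σ (W.Sh v)) := by
    simp only [σ_mul, map_add, map_smul, σ_T, σ_one]
    unfold X
    simp only [Algebra.smul_def]
    ring
  have e2 : W.m v = W.σ (W.T * (v.1 • (1 + v.1 • W.X v) + W.S * W.σ 1
      + v.1 • (W.S * W.σ (W.Sh v)))) := by
    have : W.T * (v.1 • (1 + v.1 • W.X v) + W.S * W.σ 1 + v.1 • (W.S * W.σ (W.Sh v)))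
        = 1 + v.1 • (W.T * (1 + v.1 • W.X v) + W.σ (W.Sh v)) := by
      simp only [Algebra.smul_def, σ_one]
      linear_combination (1 + algebraMap ℝ B v.1 * W.σ (W.Sh v)) * h5
    rw [this, map_add, map_smul, σ_one]
    rfl
  have e3 : W.P (W.S * W.σ (W.Sh v)) = v.2.2.2 := by
    have : W.S * W.σ (W.Sh v) = W.S * W.σ (W.C (W.Z v) v.2.2.1) + v.2.2.2
        + W.S * W.σ (W.Uh v * W.C (W.Uh v) v.2.2.2) := by
      unfold Sh
      rw [map_add, map_add, W.σ_mul W.S, σσ, σ_S]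
      linear_combination (v.2.2.2) * h5
    rw [this, map_add, map_add, W.P_Sσ (P_CZ h.dom _),
      W.P_Sσ (W.P_mul (P_Uh h.dom) (P_Ch h.dom _)), h.P_p, zero_add, add_zero]
  have e4 := W.dec1 (v.1 • (1 + v.1 • W.X v) + W.S * W.σ 1 + v.1 • (W.S * W.σ (W.Sh v)))
  rw [← e2] at e4
  rw [e1, ← e4]
  simp only [map_add, map_smul, W.P_Sσ W.P_one, e3, P_one]
  have e5 : W.C (W.Uh v) (W.m v) = 1 + v.1 • W.C (W.Uh v) (W.mh v) := by
    unfold m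
    rw [map_add, map_smul, W.C_one _ (by linarith [W.n_Uh h.dom])]
  have e6 := inv1_eq (W.yy v) (by linarith [W.n_yy h.dom])
  have e7 := h.hp
  have e8 : algebraMap ℝ B v.2.1 = 1 + algebraMap ℝ B v.1 * algebraMap ℝ B (W.Rq v) := by
    rw [h.hq, map_add, map_mul, map_one]
  rw [e5]
  unfold Bh at e7
  generalize W.C (W.Uh v) (W.mh v) = c1 at *
  generalize W.C (W.Z v) (W.k1 v) = c2 at *
  unfold Uh Z
  generalize inv1 (W.yy v) = iy at *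
  unfold yy at e6
  simp only [Algebra.smul_def, map_mul, mul_one] at e6 e7 ⊢
  linear_combination (algebraMap ℝ B v.1 * algebraMap ℝ B v.2.1
    * (1 + algebraMap ℝ B v.1 * c1)) * e6 - algebraMap ℝ B v.1 * e7 + algebraMap ℝ B v.1 * e8

end algebra

end WB

end Pool.Agent.H213Z.Quad3
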