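import Mathlib
import Pool.Agent.H213Z.Quad3.Ops

set_option autoImplicit false
set_option linter.unusedSectionVars false
set_option maxHeartbeats 400000

open Set Metric Filter Topology

namespace Pool.Agent.H213Z.Quad3

variable {B : Type} [NormedCommRing B] [NormedAlgebra ℝ B] [CompleteSpace B]

lemma cpow_sub_le (z w : ℂ) (hz : ‖z‖ ≤ 1) (hw : ‖w‖ ≤ 1) (k : ℕ) :
    ‖z ^ k - w ^ k‖ ≤ k * ‖z - w‖ := by
  induction k with
  | zero => simp
  | succ k ih =>
    have h1 : z ^ (k + 1) - w ^ (k + 1) = z * (z ^ k - w ^ k) + (z - w) * w ^ k := by ring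
    rw [h1]
    have h2 : ‖w ^ k‖ ≤ 1 := by rw [norm_pow]; exact pow_le_one₀ (norm_nonneg _) hw
    have h3 : ‖z * (z ^ k - w ^ k)‖ ≤ 1 * (k * ‖z - w‖) := by
      rw [norm_mul]; exact mul_le_mul hz ih (norm_nonneg _) zero_le_one
    have h4 : ‖(z - w) * w ^ k‖ ≤ ‖z - w‖ * 1 := by
      rw [norm_mul]; exact mul_le_mul_of_nonneg_left h2 (norm_nonneg _)
    refine (norm_add_le _ _).trans ((add_le_add h3 h4).trans (le_of_eq ?_))
    push_cast
    ring

namespace WB

variable (W : WB B)

lemma HJ_τ (z : ℂ) (hz : ‖z‖ ≤ 1) (n : ℤ) : z * W.H z (W.J (W.τ n))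
    = if 0 ≤ n then z ^ (n.toNat + 1) / ((n.toNat : ℂ) + 1) else 0 := by
  rw [J_τ]
  split_ifs with h
  · rw [map_smul, W.H_τ z hz, if_pos h, Complex.real_smul]
    obtain ⟨k, rfl⟩ := Int.eq_ofNat_of_zero_le h
    simp only [Int.toNat_natCast]
    push_cast
    ring
  · simp

lemma lip_I (x : B) (z w : ℂ) (hz : ‖z‖ ≤ 1) (hw : ‖w‖ ≤ 1) :
    ‖z * W.H z (W.J x) - w * W.H w (W.J x)‖ ≤ ‖z - w‖ * ‖x‖ := by
  have := W.bound ℂ ((ContinuousLinearMap.mul ℝ ℂ z).comp ((W.H z).comp W.J)
    - (ContinuousLinearMap.mul ℝ ℂ w).comp ((W.H w).comp W.J)) ‖z - w‖ (fun n => by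
      simp only [sub_apply, ContinuousLinearMap.comp_apply, ContinuousLinearMap.mul_apply',
        W.HJ_τ z hz, W.HJ_τ w hw]
      split_ifs
      · rw [← sub_div, norm_div]
        have h1 : ‖((n.toNat : ℂ) + 1)‖ = (n.toNat : ℝ) + 1 := by
          have : ((n.toNat : ℂ) + 1) = ((n.toNat + 1 : ℕ) : ℂ) := by push_cast; ring
          rw [this, Complex.norm_natCast]; push_cast; ring
        rw [h1, div_le_iff₀ (by positivity)]
        have := cpow_sub_le z w hz hw (n.toNat + 1)
        push_cast at this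
        linarith
      · simp) x
  simpa using this

lemma contOn_H (x : B) : ContinuousOn (fun z => W.H z x) (closedBall 0 1) := by
  refine W.ind (fun x => ContinuousOn (fun z => W.H z x) (closedBall 0 1)) ?_ ?_ ?_ x
  · refine isClosed_of_closure_subset fun x hx => ?_
    refine continuousOn_of_uniform_approx_of_continuousOn fun u hu => ?_
    obtain ⟨ε, hε, h⟩ := Metric.mem_uniformity_dist.1 hu
    obtain ⟨y, hy, hxy⟩ := Metric.mem_closure_iff.1 hx ε hε
    refine ⟨fun z => W.H z y, hy, fun z hz => h ?_⟩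
    rw [dist_eq_norm, ← map_sub]
    rw [dist_eq_norm] at hxy
    exact (W.norm_H z (by simpa using hz) _).trans_lt hxy
  · intro x y hx hy
    simp only [map_add]
    exact hx.add hy
  · intro c n
    have : ContinuousOn (fun z : ℂ => c • (if 0 ≤ n then z ^ n.toNat else 0)) (closedBall 0 1) := by
      split_ifs <;> fun_prop
    refine this.congr fun z hz => ?_
    simp only [map_smul, W.H_τ z (by simpa using hz)]

lemma deriv_I (x : B) (z : ℂ) (hz : z ∈ closedBall (0 : ℂ) 1) :
    HasDerivWithinAt (fun z => z * W.H z (W.J x)) (W.H z x) (closedBall 0 1) z := by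
  have hz' : ‖z‖ ≤ 1 := by simpa using hz
  refine W.ind (fun x => HasDerivWithinAt (fun z => z * W.H z (W.J x)) (W.H z x)
    (closedBall 0 1) z) ?_ ?_ ?_ x
  · refine isClosed_of_closure_subset fun x hx => ?_
    rw [mem_setOf_eq, hasDerivWithinAt_iff_isLittleO, Asymptotics.isLittleO_iff]
    intro ε hε
    obtain ⟨y, hy, hxy⟩ := Metric.mem_closure_iff.1 hx (ε / 3) (by positivity)
    rw [mem_setOf_eq, hasDerivWithinAt_iff_isLittleO, Asymptotics.isLittleO_iff] at hy
    rw [dist_eq_norm] at hxy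
    filter_upwards [hy (show 0 < ε / 3 by positivity), self_mem_nhdsWithin] with w h1 hw
    have hw' : ‖w‖ ≤ 1 := by simpa using hw
    have h2 := W.lip_I (x - y) w z hw' hz'
    have h3 := W.norm_H z hz' (x - y)
    have h4 : w * W.H w (W.J x) - z * W.H z (W.J x) - (w - z) • W.H z x
        = (w * W.H w (W.J y) - z * W.H z (W.J y) - (w - z) • W.H z y)
          + (w * W.H w (W.J (x - y)) - z * W.H z (W.J (x - y))) - (w - z) * W.H z (x - y) := by
      simp only [map_sub, smul_eq_mul]; ring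
    rw [h4]
    refine (norm_sub_le _ _).trans ((add_le_add (norm_add_le _ _) le_rfl).trans ?_)
    rw [norm_mul]
    have h5 := norm_nonneg (w - z)
    have h6 : ‖w - z‖ * ‖W.H z (x - y)‖ ≤ ‖w - z‖ * (ε / 3) :=
      mul_le_mul_of_nonneg_left (h3.trans hxy.le) h5
    have h7 : ‖w - z‖ * ‖x - y‖ ≤ ‖w - z‖ * (ε / 3) := mul_le_mul_of_nonneg_left hxy.le h5
    nlinarith
  · intro x y hx hy
    simp only [map_add, mul_add]
    exact hx.add hy
  · intro c n
    have : HasDerivWithinAt (fun z : ℂ => (c : ℂ) * (if 0 ≤ n then z ^ (n.toNat + 1)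
        / ((n.toNat : ℂ) + 1) else 0)) (W.H z (c • W.τ n)) (closedBall 0 1) z := by
      rw [map_smul, W.H_τ z hz', Complex.real_smul]
      refine HasDerivWithinAt.const_mul _ ?_
      split_ifs
      · have h1 := ((hasDerivAt_pow (n.toNat + 1) z).div_const ((n.toNat : ℂ) + 1))
        have h2 : ((n.toNat : ℂ) + 1) ≠ 0 := by exact_mod_cast Nat.succ_ne_zero n.toNat
        have h3 : ((n.toNat + 1 : ℕ) : ℂ) * z ^ (n.toNat + 1 - 1) / ((n.toNat : ℂ) + 1)
            = z ^ n.toNat := by
          rw [Nat.add_sub_cancel]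
          push_cast
          field_simp
        rw [h3] at h1
        exact h1.hasDerivWithinAt
      · exact hasDerivWithinAt_const _ _ _
    refine this.congr (fun w hw => ?_) ?_
    · rw [map_smul, map_smul, ← W.HJ_τ w (by simpa using hw), Complex.real_smul]; ring
    · rw [map_smul, map_smul, ← W.HJ_τ z hz', Complex.real_smul]; ring

lemma diffOn_H (x : B) : DifferentiableOn ℂ (fun z => W.H z x) (ball 0 1) := by
  have h1 : ∀ z ∈ ball (0 : ℂ) 1, HasDerivAt (fun z => z * W.H z (W.J x)) (W.H z x) z :=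
    fun z hz => (W.deriv_I x z (ball_subset_closedBall hz)).hasDerivAt
      (mem_of_superset (isOpen_ball.mem_nhds hz) ball_subset_closedBall)
  have h2 : DifferentiableOn ℂ (fun z => z * W.H z (W.J x)) (ball 0 1) :=
    fun z hz => (h1 z hz).differentiableAt.differentiableWithinAt
  exact (h2.deriv isOpen_ball).congr fun z hz => (h1 z hz).deriv.symm

end WB

end Pool.Agent.H213Z.Quad3
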