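import Mathlib

set_option autoImplicit false
set_option maxHeartbeats 400000

open Set Metric Filter Topology MeasureTheory Complex
open scoped Real ComplexConjugate

namespace Pool.Agent.H213Z.Quad3

/-- the antiholomorphic part of a real linear map -/
noncomputable def dbar (L : ℂ →L[ℝ] ℂ) : ℂ := (L 1 + I * L I) / 2

lemma dbar_key (L : ℂ →L[ℝ] ℂ) (e : ℂ) : I * L e - L (I * e) = 2 * I * conj e * dbar L := by
  have h1 : e = e.re • (1 : ℂ) + e.im • I := by
    simp [Complex.re_add_im]
  have h2 : I * e = (-e.im) • (1 : ℂ) + e.re • I := by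
    apply Complex.ext <;> simp
  have h3 : conj e = e.re - e.im * I := by
    apply Complex.ext <;> simp
  have h4 : L e = e.re * L 1 + e.im * L I := by
    conv_lhs => rw [h1]
    rw [map_add, map_smul, map_smul, Complex.real_smul, Complex.real_smul]
  have h5 : L (I * e) = -e.im * L 1 + e.re * L I := by
    rw [h2, map_add, map_smul, map_smul, Complex.real_smul, Complex.real_smul, Complex.ofReal_neg]
  rw [h3, h4, h5, dbar]
  linear_combination (-(e.re : ℂ) * L I + e.im * L 1 + e.im * I * L I) * I_sq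

lemma dbar_add (L L' : ℂ →L[ℝ] ℂ) : dbar (L + L') = dbar L + dbar L' := by
  simp only [dbar, add_apply]; ring

lemma dbar_smul (c : ℂ) (L : ℂ →L[ℝ] ℂ) : dbar (c • L) = c * dbar L := by
  simp only [dbar, smul_apply, smul_eq_mul]; ring

lemma circleIntegral_pm (W : ℂ → ℂ) (c : ℂ) (R : ℝ) :
    (∮ z in C(c, R), W z) = ∫ y in (-π)..π, W (c + R * exp (y * I)) * (I * R * exp (y * I)) := by
  have hper : Function.Periodic (fun y : ℝ => W (c + R * exp (y * I)) * (I * R * exp (y * I)))
      (2 * π) := by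
    intro y
    have : exp (((y + 2 * π : ℝ) : ℂ) * I) = exp (y * I) := by
      push_cast
      rw [add_mul, Complex.exp_add, Complex.exp_two_pi_mul_I, mul_one]
    simp only [this]
  have h := hper.intervalIntegral_add_eq 0 (-π)
  rw [zero_add, show -π + 2 * π = π by ring] at h
  rw [← h, circleIntegral]
  refine intervalIntegral.integral_congr fun y _ => ?_
  simp only [deriv_circleMap, circleMap, smul_eq_mul, zero_add]
  ring

theorem green_annulus (W : ℂ → ℂ) (W' : ℂ → ℂ →L[ℝ] ℂ) (c : ℂ) (r R : ℝ) (hr : 0 ≤ r)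
    (hrR : r ≤ R) (hc : ContinuousOn W (closedBall c R \ ball c r))
    (hd : ∀ z ∈ ball c R \ closedBall c r, HasFDerivAt W (W' z) z)
    (hB : ContinuousOn (fun z => dbar (W' z)) (ball c R \ closedBall c r))
    (M : ℝ) (hM : ∀ z ∈ ball c R \ closedBall c r, ‖dbar (W' z)‖ ≤ M) :
    (∮ z in C(c, R), W z) - (∮ z in C(c, r), W z)
      = 2 * I * ∫ z in ball c R \ closedBall c r, dbar (W' z) := by
  have hpi := Real.pi_pos
  set pm : ℝ × ℝ → ℂ := fun p => c + p.1 * exp (p.2 * I) with hpm
  set f : ℝ × ℝ → ℂ := fun p => W (pm p) * (I * p.1 * exp (p.2 * I)) with hf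
  set g : ℝ × ℝ → ℂ := fun p => -(W (pm p) * exp (p.2 * I)) with hg
  have hnorm : ∀ p : ℝ × ℝ, 0 ≤ p.1 → dist (pm p) c = p.1 := by
    intro p hp
    rw [dist_eq_norm, hpm]
    simp [Complex.norm_exp_ofReal_mul_I, abs_of_nonneg hp]
  have hpmc : Continuous pm := by rw [hpm]; fun_prop
  set O : Set (ℝ × ℝ) := Ioo r R ×ˢ Ioo (-π) π with hO
  have hOm : MeasurableSet O := measurableSet_Ioo.prod measurableSet_Ioo
  have hmO : MapsTo pm O (ball c R \ closedBall c r) := by
    intro p hp
    have := hnorm p (hr.trans hp.1.1.le)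
    refine ⟨by rw [mem_ball, this]; exact hp.1.2, ?_⟩
    rw [mem_closedBall, this, not_le]; exact hp.1.1
  have hmI : MapsTo pm (Icc (r, -π) (R, π)) (closedBall c R \ ball c r) := by
    intro p hp
    have h1 : r ≤ p.1 := hp.1.1
    have h2 : p.1 ≤ R := hp.2.1
    have := hnorm p (hr.trans h1)
    refine ⟨by rw [mem_closedBall, this]; exact h2, ?_⟩
    rw [mem_ball, this, not_lt]; exact h1
  have hWc : ContinuousOn (fun p => W (pm p)) (Icc (r, -π) (R, π)) :=
    hc.comp hpmc.continuousOn hmI
  let c1 : ℝ × ℝ →L[ℝ] ℂ := Complex.ofRealCLM.comp (ContinuousLinearMap.fst ℝ ℝ ℝ)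
  let c2 : ℝ × ℝ →L[ℝ] ℂ := Complex.ofRealCLM.comp (ContinuousLinearMap.snd ℝ ℝ ℝ)
  have key : ∀ x ∈ O, HasFDerivAt f (fderiv ℝ f x) x ∧ HasFDerivAt g (fderiv ℝ g x) x ∧
      fderiv ℝ f x (1, 0) + fderiv ℝ g x (0, 1) = 2 * I * (x.1 • dbar (W' (pm x))) := by
    intro x hx
    have d1 : HasFDerivAt (fun p : ℝ × ℝ => (p.1 : ℂ)) c1 x := c1.hasFDerivAt
    have d2 : HasFDerivAt (fun p : ℝ × ℝ => (p.2 : ℂ)) c2 x := c2.hasFDerivAt
    have dE := (d2.mul_const I).cexp
    have dpm : HasFDerivAt pm _ x := (d1.mul dE).const_add c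
    have dW := (hd _ (hmO hx)).comp x dpm
    have df : HasFDerivAt f _ x := dW.mul ((d1.const_mul I).mul dE)
    have dg : HasFDerivAt g _ x := (dW.mul dE).neg
    refine ⟨df.differentiableAt.hasFDerivAt, dg.differentiableAt.hasFDerivAt, ?_⟩
    rw [df.fderiv, dg.fderiv]
    have hk := dbar_key (W' (pm x)) (exp (x.2 * I))
    have he : conj (exp (x.2 * I)) * exp (x.2 * I) = 1 := by
      rw [Complex.conj_mul', Complex.norm_exp_ofReal_mul_I]; simp
    have hl : (W' (pm x)) (x.1 * (exp (x.2 * I) * I)) = x.1 * (W' (pm x)) (I * exp (x.2 * I)) := by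
      rw [mul_comm (exp _) I, ← Complex.real_smul, map_smul, Complex.real_smul]
    simp only [add_apply, smul_apply, neg_apply, ContinuousLinearMap.comp_apply, c1, c2,
      ContinuousLinearMap.coe_fst', ContinuousLinearMap.coe_snd', Complex.ofRealCLM_apply,
      smul_eq_mul, Function.comp_apply, Pi.mul_apply, Complex.ofReal_one, Complex.ofReal_zero,
      mul_zero, mul_one, zero_add, add_zero, Complex.real_smul, hl]
    linear_combination (x.1 * exp (x.2 * I)) * hk + (2 * I * x.1 * dbar (W' (pm x))) * he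
  have hae : (Icc (r, -π) (R, π) : Set (ℝ × ℝ)) =ᵐ[volume] O := by
    rw [Icc_prod_eq, hO]
    exact Measure.set_prod_ae_eq Ioo_ae_eq_Icc.symm Ioo_ae_eq_Icc.symm
  have hint : IntegrableOn (fun x : ℝ × ℝ => 2 * I * (x.1 • dbar (W' (pm x)))) O := by
    refine IntegrableOn.of_bound ?_ ?_ (2 * (R * M)) ?_
    · rw [hO, Measure.volume_eq_prod, Measure.prod_prod]
      exact ENNReal.mul_lt_top (by simp) (by simp)
    · refine ContinuousOn.aestronglyMeasurable ?_ hOm
      exact continuousOn_const.mul (continuous_fst.continuousOn.smul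
        (hB.comp hpmc.continuousOn hmO))
    · refine (ae_restrict_mem hOm).mono fun x hx => ?_
      have h1 := hM _ (hmO hx)
      have h2 : 0 ≤ x.1 := hr.trans hx.1.1.le
      rw [norm_mul, norm_mul, norm_smul, Real.norm_of_nonneg h2]
      simp only [Complex.norm_ofNat, Complex.norm_I, mul_one]
      gcongr
      · exact h2.trans hx.1.2.le
      · exact hx.1.2.le
  have hdiv := integral_divergence_prod_Icc_of_hasFDerivAt_off_countable_of_le f g
    (fun x => fderiv ℝ f x) (fun x => fderiv ℝ g x) (r, -π) (R, π) ⟨hrR, by simp; linarith⟩ ∅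
    countable_empty (hWc.mul (by fun_prop)) (hWc.mul (by fun_prop)).neg
    (fun x hx => (key x hx.1).1) (fun x hx => (key x hx.1).2.1)
    ((hint.congr_fun (fun x hx => (key x hx).2.2.symm) hOm).congr_set_ae hae)
  rw [setIntegral_congr_set hae, setIntegral_congr_fun hOm (fun x hx => (key x hx).2.2)] at hdiv
  have hgg : (∫ x in r..R, g (x, π)) = ∫ x in r..R, g (x, -π) := by
    refine intervalIntegral.integral_congr fun x _ => ?_
    have : exp (((-π : ℝ) : ℂ) * I) = exp ((π : ℝ) * I) := by
      push_cast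
      rw [neg_mul, Complex.exp_neg, Complex.exp_pi_mul_I]; norm_num
    simp only [hg, hpm, this]
  simp only [hgg, sub_self, zero_add] at hdiv
  rw [circleIntegral_pm, circleIntegral_pm, ← hdiv, integral_const_mul]
  congr 1
  have hAm : MeasurableSet (ball c R \ closedBall c r) :=
    measurableSet_ball.diff measurableSet_closedBall
  rw [← integral_indicator hAm, ← integral_add_left_eq_self _ c,
    ← Complex.integral_comp_polarCoord_symm]
  have hsub : polarCoord.target ∩ O = O := by
    rw [inter_eq_right]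
    intro p hp
    exact ⟨hr.trans_lt hp.1.1, hp.2⟩
  rw [← hsub, ← setIntegral_indicator hOm]
  refine setIntegral_congr_fun polarCoord.open_target.measurableSet fun p hp => ?_
  have h1 : c + Complex.polarCoord.symm p = pm p := by
    rw [Complex.polarCoord_symm_apply, hpm]
    simp only [Complex.exp_mul_I, Complex.ofReal_cos, Complex.ofReal_sin]
  simp only [h1]
  by_cases hpO : p ∈ O
  · rw [indicator_of_mem hpO, indicator_of_mem (hmO hpO)]
  · rw [indicator_of_notMem hpO, indicator_of_notMem, smul_zero]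
    intro hA
    apply hpO
    have h0 : 0 < p.1 := hp.1
    have := hnorm p h0.le
    refine ⟨⟨?_, ?_⟩, hp.2⟩
    · have h2 := hA.2
      rwa [mem_closedBall, this, not_le] at h2
    · have h2 := hA.1
      rwa [mem_ball, this] at h2

end Pool.Agent.H213Z.Quad3
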