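import Mathlib
import Pool.Agent.H213Z.Quad3.Green

set_option autoImplicit false
set_option maxHeartbeats 400000

open Set Metric Filter Topology MeasureTheory Complex
open scoped Real ComplexConjugate

namespace Pool.Agent.H213Z.Quad3

/-- the open disc with two holes -/
def DD (a ρ : ℝ) : Set ℂ := ball 0 1 \ (closedBall (a : ℂ) ρ ∪ closedBall (-a : ℂ) ρ)
/-- its closure -/
def DC (a ρ : ℝ) : Set ℂ := closedBall 0 1 \ (ball (a : ℂ) ρ ∪ ball (-a : ℂ) ρ)

lemma DD_sub (a ρ : ℝ) : DD a ρ ⊆ DC a ρ := fun _ hz =>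
  ⟨ball_subset_closedBall hz.1, fun h => hz.2 (h.imp (fun h => ball_subset_closedBall h)
    (fun h => ball_subset_closedBall h))⟩

lemma DD_open (a ρ : ℝ) : IsOpen (DD a ρ) :=
  isOpen_ball.sdiff (isClosed_closedBall.union isClosed_closedBall)

lemma DC_compact (a ρ : ℝ) : IsCompact (DC a ρ) :=
  (isCompact_closedBall 0 1).diff (isOpen_ball.union isOpen_ball)

lemma exists_cut (c : ℂ) (ρ : ℝ) (hρ : 0 < ρ) : ∃ (χ : ℂ → ℂ) (χ' : ℂ → ℂ →L[ℝ] ℂ),
    (∀ z, HasFDerivAt χ (χ' z) z) ∧ Continuous χ' ∧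
    (∀ z ∈ ball c (2 * ρ), χ z = 1 ∧ χ' z = 0) ∧
    (∀ z ∉ closedBall c (3 * ρ), χ z = 0 ∧ χ' z = 0) := by
  let b : ContDiffBump c := ⟨2 * ρ, 3 * ρ, by linarith, by linarith⟩
  have hb : ContDiff ℝ 1 (fun z => ((b z : ℝ) : ℂ)) :=
    Complex.ofRealCLM.contDiff.comp b.contDiff
  refine ⟨fun z => ((b z : ℝ) : ℂ), fderiv ℝ (fun z => ((b z : ℝ) : ℂ)),
    fun z => (hb.differentiable (by simp) z).hasFDerivAt, hb.continuous_fderiv (by simp), ?_, ?_⟩
  · have h1 : ∀ z ∈ ball c (2 * ρ), ((b z : ℝ) : ℂ) = 1 := by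
      intro z hz
      rw [b.one_of_mem_closedBall (ball_subset_closedBall hz)]; simp
    intro z hz
    refine ⟨h1 z hz, ?_⟩
    have : (fun z => ((b z : ℝ) : ℂ)) =ᶠ[𝓝 z] fun _ => 1 :=
      Filter.mem_of_superset (isOpen_ball.mem_nhds hz) h1
    rw [this.fderiv_eq]; simp
  · have h1 : ∀ z ∈ (closedBall c (3 * ρ))ᶜ, ((b z : ℝ) : ℂ) = 0 := by
      intro z hz
      rw [mem_compl_iff, mem_closedBall, not_le] at hz
      rw [b.zero_of_le_dist hz.le]; simp
    intro z hz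
    refine ⟨h1 z hz, ?_⟩
    have : (fun z => ((b z : ℝ) : ℂ)) =ᶠ[𝓝 z] fun _ => 0 :=
      Filter.mem_of_superset (isClosed_closedBall.isOpen_compl.mem_nhds hz) h1
    rw [this.fderiv_eq]; simp

lemma continuous_dbar : Continuous dbar := by
  unfold dbar; fun_prop

lemma dbar_zero : dbar 0 = 0 := by simp [dbar]

lemma zz (L : ℂ →L[ℝ] ℂ) (c : ℂ) : (0 : ℂ) • L + c • (0 : ℂ →L[ℝ] ℂ) = 0 := by
  apply ContinuousLinearMap.ext
  intro x
  simp only [add_apply, smul_apply, smul_eq_mul, zero_apply]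
  ring

section

variable {a ρ : ℝ} {W : ℂ → ℂ} {W' : ℂ → ℂ →L[ℝ] ℂ}

lemma cut_cont (hc : ContinuousOn W (DC a ρ))
    (hB : ContinuousOn (fun z => dbar (W' z)) (DD a ρ))
    {χ : ℂ → ℂ} {χ' : ℂ → ℂ →L[ℝ] ℂ} (h1 : ∀ z, HasFDerivAt χ (χ' z) z) (h2 : Continuous χ') :
    ContinuousOn (fun z => dbar (χ z • W' z + W z • χ' z)) (DD a ρ) := by
  have hχ : Continuous χ := continuous_iff_continuousAt.2 fun z => (h1 z).continuousAt
  simp only [dbar_add, dbar_smul]
  exact (hχ.continuousOn.mul hB).add ((hc.mono (DD_sub a ρ)).mul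
    (continuous_dbar.comp h2).continuousOn)

lemma cut_bdd (hc : ContinuousOn W (DC a ρ)) {M : ℝ} (hM : ∀ z ∈ DD a ρ, ‖dbar (W' z)‖ ≤ M)
    {χ : ℂ → ℂ} {χ' : ℂ → ℂ →L[ℝ] ℂ} (h1 : ∀ z, HasFDerivAt χ (χ' z) z) (h2 : Continuous χ') :
    ∃ M', 0 ≤ M' ∧ ∀ z ∈ DD a ρ, ‖dbar (χ z • W' z + W z • χ' z)‖ ≤ M' := by
  have hχ : Continuous χ := continuous_iff_continuousAt.2 fun z => (h1 z).continuousAt
  obtain ⟨C₁, hC₁⟩ := (DC_compact a ρ).exists_bound_of_continuousOn hχ.continuousOn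
  obtain ⟨C₂, hC₂⟩ := (DC_compact a ρ).exists_bound_of_continuousOn
    (hc.mul (continuous_dbar.comp h2).continuousOn)
  refine ⟨max 0 (C₁ * M + C₂), le_max_left _ _, fun z hz => le_trans ?_ (le_max_right _ _)⟩
  rw [dbar_add, dbar_smul, dbar_smul]
  refine (norm_add_le _ _).trans (add_le_add ?_ (hC₂ z (DD_sub a ρ hz)))
  rw [norm_mul]
  have := hC₁ z (DD_sub a ρ hz)
  exact mul_le_mul this (hM z hz) (norm_nonneg _) ((norm_nonneg _).trans this)

lemma int_DD {B : ℂ → ℂ} (hB : ContinuousOn B (DD a ρ)) {M : ℝ} (hM : ∀ z ∈ DD a ρ, ‖B z‖ ≤ M) :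
    IntegrableOn B (DD a ρ) := by
  refine IntegrableOn.of_bound ?_ (hB.aestronglyMeasurable (DD_open a ρ).measurableSet) M ?_
  · exact lt_of_le_of_lt (measure_mono (DD_sub a ρ)) (DC_compact a ρ).measure_lt_top
  · exact (ae_restrict_mem (DD_open a ρ).measurableSet).mono hM

lemma hole_piece (hρ : 0 < ρ) (hc : ContinuousOn W (DC a ρ))
    (hd : ∀ z ∈ DD a ρ, HasFDerivAt W (W' z) z)
    (hB : ContinuousOn (fun z => dbar (W' z)) (DD a ρ))
    {M : ℝ} (hM : ∀ z ∈ DD a ρ, ‖dbar (W' z)‖ ≤ M) (c : ℂ)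
    (hs1 : closedBall c (4 * ρ) \ ball c ρ ⊆ DC a ρ)
    (hs2 : ball c (4 * ρ) \ closedBall c ρ ⊆ DD a ρ)
    (hs3 : ∀ z ∈ DD a ρ, z ∉ closedBall c ρ)
    {χ : ℂ → ℂ} {χ' : ℂ → ℂ →L[ℝ] ℂ} (h1 : ∀ z, HasFDerivAt χ (χ' z) z) (h2 : Continuous χ')
    (h3 : ∀ z ∈ ball c (2 * ρ), χ z = 1 ∧ χ' z = 0)
    (h4 : ∀ z ∉ closedBall c (3 * ρ), χ z = 0 ∧ χ' z = 0) :
    -(∮ z in C(c, ρ), W z) = 2 * I * ∫ z in DD a ρ, dbar (χ z • W' z + W z • χ' z) := by
  have hχ : Continuous χ := continuous_iff_continuousAt.2 fun z => (h1 z).continuousAt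
  obtain ⟨M', -, hM'⟩ := cut_bdd hc hM h1 h2
  have hg := green_annulus (fun z => χ z * W z) (fun z => χ z • W' z + W z • χ' z) c ρ (4 * ρ)
    hρ.le (by linarith) (hχ.continuousOn.mul (hc.mono hs1))
    (fun z hz => (h1 z).mul (hd z (hs2 hz))) ((cut_cont hc hB h1 h2).mono hs2) M'
    (fun z hz => hM' z (hs2 hz))
  have e1 : (∮ z in C(c, 4 * ρ), χ z * W z) = 0 := by
    rw [circleIntegral.integral_congr (g := fun _ => 0) (by linarith)]
    · simp [circleIntegral]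
    · intro z hz
      have : z ∉ closedBall c (3 * ρ) := by
        rw [mem_sphere] at hz
        rw [mem_closedBall, hz]; linarith
      simp [(h4 z this).1]
  have e2 : (∮ z in C(c, ρ), χ z * W z) = ∮ z in C(c, ρ), W z := by
    refine circleIntegral.integral_congr hρ.le fun z hz => ?_
    have : z ∈ ball c (2 * ρ) := by
      rw [mem_sphere] at hz
      rw [mem_ball, hz]; linarith
    simp [(h3 z this).1]
  rw [e1, e2, zero_sub] at hg
  rw [hg]
  congr 1
  symm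
  refine setIntegral_eq_of_subset_of_forall_diff_eq_zero (DD_open a ρ).measurableSet hs2 ?_
  intro z hz
  have h5 : z ∉ closedBall c (3 * ρ) := by
    intro h
    apply hz.2
    refine ⟨?_, hs3 z hz.1⟩
    rw [mem_closedBall] at h
    rw [mem_ball]; linarith
  rw [(h4 z h5).1, (h4 z h5).2, zz, dbar_zero]

theorem greenD (hρ : 0 < ρ) (h1 : 4 * ρ < a) (h2 : a < 1 / 4) (hc : ContinuousOn W (DC a ρ))
    (hd : ∀ z ∈ DD a ρ, HasFDerivAt W (W' z) z)
    (hB : ContinuousOn (fun z => dbar (W' z)) (DD a ρ))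
    {M : ℝ} (hM : ∀ z ∈ DD a ρ, ‖dbar (W' z)‖ ≤ M) :
    (∮ z in C(0, 1), W z) - (∮ z in C((a : ℂ), ρ), W z) - (∮ z in C((-a : ℂ), ρ), W z)
      = 2 * I * ∫ z in DD a ρ, dbar (W' z) := by
  have ha : 0 < a := by linarith
  have hda : dist (a : ℂ) (-a : ℂ) = 2 * a := by
    rw [dist_eq_norm, sub_neg_eq_add, ← two_mul, norm_mul]; simp [abs_of_pos ha]
  have hn1 : dist (a : ℂ) 0 = a := by simp [abs_of_pos ha]
  have hn2 : dist (-a : ℂ) 0 = a := by simp [abs_of_pos ha]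
  have t1 := fun z : ℂ => dist_triangle z (a : ℂ) 0
  have t2 := fun z : ℂ => dist_triangle z (-a : ℂ) 0
  have t3 := fun z : ℂ => dist_triangle_left (a : ℂ) (-a : ℂ) z
  simp only [hn1, hn2, hda] at t1 t2 t3
  obtain ⟨χ₁, χ₁', a1, a2, a3, a4⟩ := exists_cut (a : ℂ) ρ hρ
  obtain ⟨χ₂, χ₂', b1, b2, b3, b4⟩ := exists_cut (-a : ℂ) ρ hρ
  have p1 := hole_piece hρ hc hd hB hM (a : ℂ)
    (fun z hz => by
      have := t1 z; have := t3 z
      simp only [DC, mem_diff, mem_closedBall, mem_ball, mem_union, not_or, not_lt] at hz ⊢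
      exact ⟨by linarith [hz.1], hz.2, by linarith [hz.1]⟩)
    (fun z hz => by
      have := t1 z; have := t3 z
      simp only [DD, mem_diff, mem_closedBall, mem_ball, mem_union, not_or, not_le] at hz ⊢
      exact ⟨by linarith [hz.1], hz.2, by linarith [hz.1]⟩)
    (fun z hz h => hz.2 (Or.inl h)) a1 a2 a3 a4
  have p2 := hole_piece hρ hc hd hB hM (-a : ℂ)
    (fun z hz => by
      have := t2 z; have := t3 z
      simp only [DC, mem_diff, mem_closedBall, mem_ball, mem_union, not_or, not_lt] at hz ⊢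
      exact ⟨by linarith [hz.1], by linarith [hz.1], hz.2⟩)
    (fun z hz => by
      have := t2 z; have := t3 z
      simp only [DD, mem_diff, mem_closedBall, mem_ball, mem_union, not_or, not_le] at hz ⊢
      exact ⟨by linarith [hz.1], by linarith [hz.1], hz.2⟩)
    (fun z hz h => hz.2 (Or.inr h)) b1 b2 b3 b4
  set χ₀ : ℂ → ℂ := fun z => 1 - χ₁ z - χ₂ z with hχ₀
  set χ₀' : ℂ → ℂ →L[ℝ] ℂ := fun z => -χ₁' z - χ₂' z with hχ₀'
  have c1 : ∀ z, HasFDerivAt χ₀ (χ₀' z) z := fun z => ((a1 z).const_sub 1).sub (b1 z)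
  have c2 : Continuous χ₀' := a2.neg.sub b2
  have hχ : Continuous χ₀ := continuous_iff_continuousAt.2 fun z => (c1 z).continuousAt
  set N : Set ℂ := ball (a : ℂ) (2 * ρ) ∪ ball (-a : ℂ) (2 * ρ) with hN
  have hNo : IsOpen N := isOpen_ball.union isOpen_ball
  have c3 : ∀ z ∈ N, χ₀ z = 0 ∧ χ₀' z = 0 := by
    intro z hz
    have := t3 z
    rcases hz with hz | hz
    · have h5 : z ∉ closedBall (-a : ℂ) (3 * ρ) := by
        rw [mem_ball] at hz
        rw [mem_closedBall]; linarith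
      simp [hχ₀, hχ₀', (a3 z hz).1, (a3 z hz).2, (b4 z h5).1, (b4 z h5).2]
    · have h5 : z ∉ closedBall (a : ℂ) (3 * ρ) := by
        rw [mem_ball] at hz
        rw [mem_closedBall]; linarith
      simp [hχ₀, hχ₀', (b3 z hz).1, (b3 z hz).2, (a4 z h5).1, (a4 z h5).2]
  have c4 : ∀ z ∉ N, z ∉ closedBall (a : ℂ) ρ ∪ closedBall (-a : ℂ) ρ := by
    intro z hz h
    apply hz
    rcases h with h | h
    · left; rw [mem_closedBall] at h; rw [mem_ball]; linarith
    · right; rw [mem_closedBall] at h; rw [mem_ball]; linarith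
  have c5 : ∀ z ∈ N, (fun z => χ₀ z * W z) =ᶠ[𝓝 z] fun _ => 0 := fun z hz =>
    Filter.mem_of_superset (hNo.mem_nhds hz) fun w hw => by simp [(c3 w hw).1]
  have c6 : ∀ z ∈ N, dbar (χ₀ z • W' z + W z • χ₀' z) = 0 := fun z hz => by
    rw [(c3 z hz).1, (c3 z hz).2, zz, dbar_zero]
  obtain ⟨M', hM0, hM'⟩ := cut_bdd hc hM c1 c2
  have hg := green_annulus (fun z => χ₀ z * W z) (fun z => χ₀ z • W' z + W z • χ₀' z) 0 0 1
    le_rfl zero_le_one (by
      intro z hz
      by_cases hzN : z ∈ N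
      · exact (continuousAt_const.congr (c5 z hzN).symm).continuousWithinAt
      · have h5 := c4 z hzN
        have h6 : z ∈ DC a ρ := ⟨hz.1, fun h => h5 (h.imp (fun h => ball_subset_closedBall h)
          (fun h => ball_subset_closedBall h))⟩
        refine (hχ.continuousWithinAt.mul (hc z h6)).mono_of_mem_nhdsWithin ?_
        refine mem_nhdsWithin.2 ⟨_, (isClosed_closedBall.union isClosed_closedBall).isOpen_compl,
          h5, fun w hw => ⟨hw.2.1, fun h => hw.1 (h.imp (fun h => ball_subset_closedBall h)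
          (fun h => ball_subset_closedBall h))⟩⟩)
    (by
      intro z hz
      by_cases hzN : z ∈ N
      · have : χ₀ z • W' z + W z • χ₀' z = 0 := by rw [(c3 z hzN).1, (c3 z hzN).2, zz]
        rw [this]
        exact (hasFDerivAt_const 0 z).congr_of_eventuallyEq (c5 z hzN)
      · exact (c1 z).mul (hd z ⟨hz.1, c4 z hzN⟩))
    (by
      intro z hz
      by_cases hzN : z ∈ N
      · have : (fun z => dbar (χ₀ z • W' z + W z • χ₀' z)) =ᶠ[𝓝 z] fun _ => 0 :=
          Filter.mem_of_superset (hNo.mem_nhds hzN) c6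
        exact (continuousAt_const.congr this.symm).continuousWithinAt
      · have h6 : z ∈ DD a ρ := ⟨hz.1, c4 z hzN⟩
        exact ((cut_cont hc hB c1 c2).continuousAt
          ((DD_open a ρ).mem_nhds h6)).continuousWithinAt) M'
    (by
      intro z hz
      by_cases hzN : z ∈ N
      · rw [c6 z hzN, norm_zero]; exact hM0
      · exact hM' z ⟨hz.1, c4 z hzN⟩)
  have e1 : (∮ z in C(0, 1), χ₀ z * W z) = ∮ z in C(0, 1), W z := by
    refine circleIntegral.integral_congr zero_le_one fun z hz => ?_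
    rw [mem_sphere] at hz
    have h5 : z ∉ closedBall (a : ℂ) (3 * ρ) := by
      have := t1 z
      rw [mem_closedBall]; linarith
    have h6 : z ∉ closedBall (-a : ℂ) (3 * ρ) := by
      have := t2 z
      rw [mem_closedBall]; linarith
    simp [hχ₀, (a4 z h5).1, (b4 z h6).1]
  have e2 : ∫ z in ball (0 : ℂ) 1 \ closedBall 0 0, dbar (χ₀ z • W' z + W z • χ₀' z)
      = ∫ z in DD a ρ, dbar (χ₀ z • W' z + W z • χ₀' z) := by
    rw [setIntegral_congr_set (diff_null_ae_eq_self (by simp))]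
    refine setIntegral_eq_of_subset_of_forall_diff_eq_zero measurableSet_ball diff_subset ?_
    intro z hz
    apply c6
    by_contra hzN
    exact hz.2 ⟨hz.1, c4 z hzN⟩
  rw [e1, circleIntegral.integral_radius_zero, sub_zero, e2] at hg
  obtain ⟨M₁, -, hM₁⟩ := cut_bdd hc hM a1 a2
  obtain ⟨M₂, -, hM₂⟩ := cut_bdd hc hM b1 b2
  have i0 := int_DD (cut_cont hc hB c1 c2) hM'
  have i1 := int_DD (cut_cont hc hB a1 a2) hM₁
  have i2 := int_DD (cut_cont hc hB b1 b2) hM₂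
  have e3 : ∫ z in DD a ρ, dbar (W' z) = (∫ z in DD a ρ, dbar (χ₀ z • W' z + W z • χ₀' z))
      + (∫ z in DD a ρ, dbar (χ₁ z • W' z + W z • χ₁' z))
      + ∫ z in DD a ρ, dbar (χ₂ z • W' z + W z • χ₂' z) := by
    have i01 : IntegrableOn (fun z => dbar (χ₀ z • W' z + W z • χ₀' z)
      + dbar (χ₁ z • W' z + W z • χ₁' z)) (DD a ρ) := i0.add i1
    rw [← integral_add i0 i1, ← integral_add i01 i2]
    refine integral_congr_ae (Eventually.of_forall fun z => ?_)
    simp only [Pi.add_apply, hχ₀, hχ₀', dbar, add_apply, sub_apply, neg_apply, smul_apply,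
      smul_eq_mul]
    ring
  rw [e3]
  linear_combination hg + p1 + p2

/-- Cauchy theorem for the disc with two holes -/
theorem cauchyD (hρ : 0 < ρ) (h1 : 4 * ρ < a) (h2 : a < 1 / 4) (hc : ContinuousOn W (DC a ρ))
    (hd : DifferentiableOn ℂ W (DD a ρ)) :
    (∮ z in C(0, 1), W z) - (∮ z in C((a : ℂ), ρ), W z) - (∮ z in C((-a : ℂ), ρ), W z) = 0 := by
  have h0 : ∀ z, dbar (((ContinuousLinearMap.toSpanSingleton ℂ (deriv W z)).restrictScalars ℝ))
      = 0 := by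
    intro z
    simp only [dbar, ContinuousLinearMap.coe_restrictScalars',
      ContinuousLinearMap.toSpanSingleton_apply, smul_eq_mul]
    linear_combination (deriv W z / 2) * I_sq
  have := greenD (W := W) (W' := fun z =>
    ((ContinuousLinearMap.toSpanSingleton ℂ (deriv W z)).restrictScalars ℝ)) hρ h1 h2 hc
    (fun z hz => ((hd.differentiableAt
      ((DD_open a ρ).mem_nhds hz)).hasDerivAt.hasFDerivAt.restrictScalars ℝ))
    (by simp only [h0]; exact continuousOn_const) (M := 0) (by simp [h0])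
  rw [this]
  simp [h0]

end

end Pool.Agent.H213Z.Quad3
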