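import Mathlib
import Pool.Agent.H213Z.Quad3.GreenD

set_option autoImplicit false
set_option maxHeartbeats 400000

open Set Metric Filter Topology MeasureTheory Complex
open scoped Real ComplexConjugate

namespace Pool.Agent.H213Z.Quad3

variable {a ρ : ℝ}

lemma geo (h0 : 0 < a) (z : ℂ) : dist z 0 ≤ dist z (a : ℂ) + a ∧ dist z 0 ≤ dist z (-a : ℂ) + a ∧
    2 * a ≤ dist z (a : ℂ) + dist z (-a : ℂ) ∧ dist z (a : ℂ) ≤ dist z 0 + a ∧
    dist z (-a : ℂ) ≤ dist z 0 + a := by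
  have hda : dist (a : ℂ) (-a : ℂ) = 2 * a := by
    rw [dist_eq_norm, sub_neg_eq_add, ← two_mul, norm_mul]; simp [abs_of_pos h0]
  have hn1 : dist (a : ℂ) 0 = a := by simp [abs_of_pos h0]
  have hn2 : dist (-a : ℂ) 0 = a := by simp [abs_of_pos h0]
  have t1 := dist_triangle z (a : ℂ) 0
  have t2 := dist_triangle z (-a : ℂ) 0
  have t3 := dist_triangle_left (a : ℂ) (-a : ℂ) z
  have t4 := dist_triangle_right z (a : ℂ) 0
  have t5 := dist_triangle_right z (-a : ℂ) 0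
  simp only [hn1, hn2, hda] at t1 t2 t3 t4 t5
  exact ⟨t1, t2, t3, t4, t5⟩

lemma mem_DD {z : ℂ} : z ∈ DD a ρ ↔ dist z 0 < 1 ∧ ρ < dist z (a : ℂ) ∧ ρ < dist z (-a : ℂ) := by
  simp only [DD, mem_diff, mem_closedBall, mem_ball, mem_union, not_or, not_le]

lemma mem_DC {z : ℂ} : z ∈ DC a ρ ↔ dist z 0 ≤ 1 ∧ ρ ≤ dist z (a : ℂ) ∧ ρ ≤ dist z (-a : ℂ) := by
  simp only [DC, mem_diff, mem_closedBall, mem_ball, mem_union, not_or, not_lt]

lemma neg_DD {z : ℂ} (hz : z ∈ DD a ρ) : -z ∈ DD a ρ := by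
  rw [mem_DD] at hz ⊢
  refine ⟨by simpa using hz.1, ?_, ?_⟩
  · rw [← dist_neg_neg, neg_neg]; exact hz.2.2
  · rw [dist_neg_neg]; exact hz.2.1

lemma neg_DC {z : ℂ} (hz : z ∈ DC a ρ) : -z ∈ DC a ρ := by
  rw [mem_DC] at hz ⊢
  refine ⟨by simpa using hz.1, ?_, ?_⟩
  · rw [← dist_neg_neg, neg_neg]; exact hz.2.2
  · rw [dist_neg_neg]; exact hz.2.1

lemma sph0 (hρ : 0 < ρ) (h1 : 4 * ρ < a) (h2 : a < 1 / 4) : sphere (0 : ℂ) 1 ⊆ DC a ρ := by
  intro z hz
  obtain ⟨t1, t2, t3, t4, t5⟩ := geo (a := a) (by linarith) z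
  rw [mem_sphere] at hz
  rw [mem_DC]
  exact ⟨hz.le, by linarith, by linarith⟩

lemma sph1 (hρ : 0 < ρ) (h1 : 4 * ρ < a) (h2 : a < 1 / 4) : sphere (a : ℂ) ρ ⊆ DC a ρ := by
  intro z hz
  obtain ⟨t1, t2, t3, t4, t5⟩ := geo (a := a) (by linarith) z
  rw [mem_sphere] at hz
  rw [mem_DC]
  exact ⟨by linarith, hz.ge, by linarith⟩

lemma sph2 (hρ : 0 < ρ) (h1 : 4 * ρ < a) (h2 : a < 1 / 4) : sphere (-a : ℂ) ρ ⊆ DC a ρ := by
  intro z hz
  obtain ⟨t1, t2, t3, t4, t5⟩ := geo (a := a) (by linarith) z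
  rw [mem_sphere] at hz
  rw [mem_DC]
  exact ⟨by linarith, by linarith, hz.ge⟩

lemma DC_diff (hρ : 0 < ρ) (h1 : 4 * ρ < a) (h2 : a < 1 / 4) :
    DC a ρ \ DD a ρ = sphere (0 : ℂ) 1 ∪ sphere (a : ℂ) ρ ∪ sphere (-a : ℂ) ρ := by
  ext z
  constructor
  · rintro ⟨hz, hz'⟩
    rw [mem_DC] at hz
    rw [mem_DD] at hz'
    simp only [mem_union, mem_sphere]
    by_contra h
    push Not at h
    exact hz' ⟨lt_of_le_of_ne hz.1 h.1.1, lt_of_le_of_ne hz.2.1 h.1.2.symm,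
      lt_of_le_of_ne hz.2.2 h.2.symm⟩
  · rintro ((hz | hz) | hz)
    · exact ⟨sph0 hρ h1 h2 hz, fun h => (mem_DD.1 h).1.ne (mem_sphere.1 hz)⟩
    · exact ⟨sph1 hρ h1 h2 hz, fun h => (mem_DD.1 h).2.1.ne' (mem_sphere.1 hz)⟩
    · exact ⟨sph2 hρ h1 h2 hz, fun h => (mem_DD.1 h).2.2.ne' (mem_sphere.1 hz)⟩

lemma closure_compl_closedBall' (c : ℂ) (hρ : 0 < ρ) :
    closure (closedBall c ρ)ᶜ = (ball c ρ)ᶜ := by
  rw [closure_compl, interior_closedBall c hρ.ne']

lemma closure_DD (hρ : 0 < ρ) (h1 : 4 * ρ < a) (h2 : a < 1 / 4) : closure (DD a ρ) = DC a ρ := by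
  refine Subset.antisymm (closure_minimal (DD_sub a ρ) (DC_compact a ρ).isClosed) ?_
  intro z hz
  by_cases hD : z ∈ DD a ρ
  · exact subset_closure hD
  have h3 : z ∈ DC a ρ \ DD a ρ := ⟨hz, hD⟩
  rw [DC_diff hρ h1 h2] at h3
  obtain ⟨t1, t2, t3, t4, t5⟩ := geo (a := a) (by linarith) z
  rcases h3 with (h3 | h3) | h3
  · rw [mem_sphere] at h3
    have h4 : z ∈ (closedBall (a : ℂ) ρ ∪ closedBall (-a : ℂ) ρ)ᶜ ∩ closure (ball (0 : ℂ) 1) := by
      rw [closure_ball _ one_ne_zero]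
      simp only [mem_inter_iff, mem_compl_iff, mem_union, mem_closedBall, not_or, not_le]
      exact ⟨⟨by linarith, by linarith⟩, h3.le⟩
    have h5 := (isClosed_closedBall.union isClosed_closedBall).isOpen_compl.inter_closure h4
    refine closure_mono ?_ h5
    intro w hw
    exact ⟨hw.2, hw.1⟩
  · rw [mem_sphere] at h3
    have h4 : z ∈ (ball (0 : ℂ) 1 ∩ (closedBall (-a : ℂ) ρ)ᶜ) ∩
        closure (closedBall (a : ℂ) ρ)ᶜ := by
      rw [closure_compl_closedBall' _ hρ]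
      simp only [mem_inter_iff, mem_compl_iff, mem_closedBall, mem_ball, not_le, not_lt]
      exact ⟨⟨by linarith, by linarith⟩, h3.ge⟩
    have h5 := (isOpen_ball.inter isClosed_closedBall.isOpen_compl).inter_closure h4
    refine closure_mono ?_ h5
    intro w hw
    exact ⟨hw.1.1, fun h => h.elim hw.2 hw.1.2⟩
  · rw [mem_sphere] at h3
    have h4 : z ∈ (ball (0 : ℂ) 1 ∩ (closedBall (a : ℂ) ρ)ᶜ) ∩
        closure (closedBall (-a : ℂ) ρ)ᶜ := by
      rw [closure_compl_closedBall' _ hρ]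
      simp only [mem_inter_iff, mem_compl_iff, mem_closedBall, mem_ball, not_le, not_lt]
      exact ⟨⟨by linarith, by linarith⟩, h3.ge⟩
    have h5 := (isOpen_ball.inter isClosed_closedBall.isOpen_compl).inter_closure h4
    refine closure_mono ?_ h5
    intro w hw
    exact ⟨hw.1.1, fun h => h.elim hw.1.2 hw.2⟩

lemma lt_dist_iff (hρ : 0 < ρ) (z : ℂ) (c : ℝ) :
    ρ < dist z (c : ℂ) ↔ ρ ^ 2 < (z.re - c) ^ 2 + z.im ^ 2 := by
  rw [dist_eq_norm, ← sq_lt_sq₀ hρ.le (norm_nonneg _), Complex.sq_norm, Complex.normSq_apply]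
  simp only [sub_re, ofReal_re, sub_im, ofReal_im, sub_zero, sq]

lemma mem_DD' (hρ : 0 < ρ) {z : ℂ} : z ∈ DD a ρ ↔ z.re ^ 2 + z.im ^ 2 < 1 ∧
    ρ ^ 2 < (z.re - a) ^ 2 + z.im ^ 2 ∧ ρ ^ 2 < (z.re + a) ^ 2 + z.im ^ 2 := by
  rw [mem_DD, lt_dist_iff hρ, ← Complex.ofReal_neg, lt_dist_iff hρ, sub_neg_eq_add,
    dist_zero_right, ← sq_lt_one_iff₀ (norm_nonneg _), Complex.sq_norm, Complex.normSq_apply]
  simp only [sq]

lemma upper_conn (hρ : 0 < ρ) (h1 : 4 * ρ < a) (h2 : a < 1 / 4) :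
    IsPreconnected (DD a ρ ∩ {z | 0 ≤ z.im}) := by
  have hA : Convex ℝ (ball (0 : ℂ) 1 ∩ {z | 1 / 8 < z.im}) :=
    (convex_ball _ _).inter (convex_halfSpace_im_gt _)
  have hAs : ball (0 : ℂ) 1 ∩ {z | 1 / 8 < z.im} ⊆ DD a ρ ∩ {z | 0 ≤ z.im} := by
    rintro z ⟨hz1, hz2⟩
    have h3 : 1 / 8 < z.im := hz2
    refine ⟨?_, by change 0 ≤ z.im; linarith⟩
    rw [mem_DD, lt_dist_iff hρ, ← Complex.ofReal_neg, lt_dist_iff hρ]
    exact ⟨hz1, by nlinarith [sq_nonneg (z.re - a)], by nlinarith [sq_nonneg (z.re - -a)]⟩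
  have hx0 : (I / 2 : ℂ) ∈ ball (0 : ℂ) 1 ∩ {z | 1 / 8 < z.im} := by
    refine ⟨by simp; norm_num, ?_⟩
    change (1 / 8 : ℝ) < (I / 2).im
    simp; norm_num
  refine isPreconnected_of_forall (I / 2) fun y hy => ?_
  by_cases hyA : 1 / 8 < y.im
  · exact ⟨_, hAs, hx0, ⟨hy.1.1, hyA⟩, hA.isPreconnected⟩
  have hy0 : 0 ≤ y.im := hy.2
  obtain ⟨y1, y2, y3⟩ := (mem_DD' hρ).1 hy.1
  push Not at hyA
  by_cases hre : |y.re| ≤ 1 / 2
  · set y' : ℂ := ⟨y.re, 1 / 2⟩ with hy'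
    have hre2 : y.re ^ 2 ≤ 1 / 4 := by
      rw [abs_le] at hre; nlinarith
    have hy'A : y' ∈ ball (0 : ℂ) 1 ∩ {z | 1 / 8 < z.im} := by
      refine ⟨?_, by change (1 / 8 : ℝ) < 1 / 2; norm_num⟩
      rw [mem_ball, dist_zero_right, ← sq_lt_one_iff₀ (norm_nonneg _), Complex.sq_norm,
        Complex.normSq_apply]
      simp only [hy']
      nlinarith
    have hseg : segment ℝ y y' ⊆ DD a ρ ∩ {z | 0 ≤ z.im} := by
      rintro z ⟨s, t, hs, ht, hst, rfl⟩
      have e1 : (s • y + t • y').re = y.re := by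
        simp only [add_re, smul_re, smul_eq_mul, hy']
        linear_combination y.re * hst
      have e2 : (s • y + t • y').im = y.im + t * (1 / 2 - y.im) := by
        simp only [add_im, smul_im, smul_eq_mul, hy']
        linear_combination y.im * hst
      have e3 : 0 ≤ t * (1 / 2 - y.im) := mul_nonneg ht (by linarith)
      have e4 : t * (1 / 2 - y.im) ≤ 1 / 2 - y.im := by nlinarith
      refine ⟨(mem_DD' hρ).2 ?_, by rw [mem_setOf_eq, e2]; linarith⟩
      rw [e1, e2]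
      exact ⟨by nlinarith, by nlinarith, by nlinarith⟩
    refine ⟨_ ∪ segment ℝ y y', union_subset hAs hseg, Or.inl hx0,
      Or.inr (left_mem_segment _ _ _), ?_⟩
    exact IsPreconnected.union y' hy'A (right_mem_segment _ _ _) hA.isPreconnected
      (convex_segment _ _).isPreconnected
  · push Not at hre
    have key : ∀ (R : Set ℂ) (w : ℂ), Convex ℝ R → (∀ z ∈ R, 3 / 8 < |z.re|) → y ∈ R → w ∈ R →
        w ∈ ball (0 : ℂ) 1 ∩ {z | 1 / 8 < z.im} →
        ∃ t, t ⊆ DD a ρ ∩ {z | 0 ≤ z.im} ∧ I / 2 ∈ t ∧ y ∈ t ∧ IsPreconnected t := by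
      intro R w hR hR2 hyR hwR hwA
      have hC : Convex ℝ (ball (0 : ℂ) 1 ∩ {z | 0 ≤ z.im} ∩ R) :=
        ((convex_ball _ _).inter (convex_halfSpace_im_ge _)).inter hR
      have hCs : ball (0 : ℂ) 1 ∩ {z | 0 ≤ z.im} ∩ R ⊆ DD a ρ ∩ {z | 0 ≤ z.im} := by
        rintro z ⟨⟨hz1, hz2⟩, hz3⟩
        refine ⟨?_, hz2⟩
        have h4 := hR2 z hz3
        rw [mem_DD, lt_dist_iff hρ, ← Complex.ofReal_neg, lt_dist_iff hρ]
        refine ⟨hz1, ?_, ?_⟩
        · rcases lt_abs.1 h4 with h | h <;> nlinarith [sq_nonneg z.im]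
        · rcases lt_abs.1 h4 with h | h <;> nlinarith [sq_nonneg z.im]
      refine ⟨_ ∪ _, union_subset hAs hCs, Or.inl hx0, Or.inr ⟨⟨hy.1.1, hy0⟩, hyR⟩, ?_⟩
      refine IsPreconnected.union w hwA ⟨⟨hwA.1, ?_⟩, hwR⟩ hA.isPreconnected hC.isPreconnected
      have : 1 / 8 < w.im := hwA.2
      change 0 ≤ w.im
      linarith
    have hb : ∀ x : ℝ, x ^ 2 = 1 / 4 → (⟨x, 1 / 2⟩ : ℂ) ∈ ball (0 : ℂ) 1 ∩ {z | 1 / 8 < z.im} := by
      intro x hx
      refine ⟨?_, by change (1 / 8 : ℝ) < 1 / 2; norm_num⟩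
      rw [mem_ball, dist_zero_right, ← sq_lt_one_iff₀ (norm_nonneg _), Complex.sq_norm,
        Complex.normSq_apply]
      simp only
      nlinarith
    rcases lt_abs.1 hre with h | h
    · refine key {z | 3 / 8 < z.re} ⟨1 / 2, 1 / 2⟩ (convex_halfSpace_re_gt _)
        (fun z hz => lt_abs.2 (Or.inl hz)) (by change 3 / 8 < y.re; linarith)
        (by change (3 / 8 : ℝ) < 1 / 2; norm_num) (hb _ (by norm_num))
    · refine key {z | z.re < -(3 / 8)} ⟨-(1 / 2), 1 / 2⟩ (convex_halfSpace_re_lt _)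
        (fun z hz => lt_abs.2 (Or.inr (by have : z.re < -(3 / 8) := hz; linarith)))
        (by change y.re < -(3 / 8); linarith)
        (by change (-(1 / 2) : ℝ) < -(3 / 8); norm_num) (hb _ (by norm_num))

lemma zero_mem_DD (hρ : 0 < ρ) (h1 : 4 * ρ < a) : (0 : ℂ) ∈ DD a ρ := by
  rw [mem_DD' hρ]
  simp only [zero_re, zero_im]
  exact ⟨by norm_num, by nlinarith, by nlinarith⟩

lemma DD_conn (hρ : 0 < ρ) (h1 : 4 * ρ < a) (h2 : a < 1 / 4) : IsConnected (DD a ρ) := by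
  refine ⟨⟨0, zero_mem_DD hρ h1⟩, ?_⟩
  have h3 := upper_conn hρ h1 h2
  have h4 := h3.image (fun z : ℂ => -z) continuous_neg.continuousOn
  have h0 : (0 : ℂ) ∈ DD a ρ ∩ {z | 0 ≤ z.im} := ⟨zero_mem_DD hρ h1, by simp⟩
  have h5 := IsPreconnected.union (0 : ℂ) h0 (by exact ⟨0, h0, by simp⟩) h3 h4
  convert h5 using 1
  ext z
  constructor
  · intro hz
    rcases le_total 0 z.im with h | h
    · exact Or.inl ⟨hz, h⟩
    · exact Or.inr ⟨-z, ⟨neg_DD hz, by change 0 ≤ (-z).im; simpa using h⟩, neg_neg z⟩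
  · rintro (hz | ⟨w, hw, rfl⟩)
    · exact hz.1
    · exact neg_DD hw.1

lemma circle_inv (f : ℂ → ℂ) :
    (∮ z in C(0, 1), f z) = ∮ w in C(0, 1), f w⁻¹ * w⁻¹ ^ 2 := by
  rw [circleIntegral, circleIntegral]
  have h := intervalIntegral.integral_comp_sub_left (a := 0) (b := 2 * π)
    (fun θ : ℝ => deriv (circleMap 0 1) θ • f (circleMap 0 1 θ)) (2 * π)
  rw [sub_self, sub_zero] at h
  rw [← h]
  refine intervalIntegral.integral_congr fun θ _ => ?_
  have h1 : circleMap 0 1 (2 * π - θ) = (circleMap 0 1 θ)⁻¹ := by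
    simp only [circleMap, zero_add, ofReal_one, one_mul]
    push_cast
    rw [sub_mul, Complex.exp_sub, Complex.exp_two_pi_mul_I, one_div]
  have h2 : circleMap 0 1 θ ≠ 0 := circleMap_ne_center one_ne_zero
  simp only [deriv_circleMap, h1, smul_eq_mul]
  field_simp

theorem liouvilleD (hρ : 0 < ρ) (h1 : 4 * ρ < a) (h2 : a < 1 / 4) {E E₀ E₁ E₂ : ℂ → ℂ}
    (hc : ContinuousOn E (DC a ρ)) (hd : DifferentiableOn ℂ E (DD a ρ))
    (c0 : ContinuousOn E₀ (closedBall 0 1)) (d0 : DifferentiableOn ℂ E₀ (ball 0 1))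
    (e0 : ∀ w ∈ sphere (0 : ℂ) 1, E w⁻¹ = w * E₀ w)
    (c1 : ContinuousOn E₁ (closedBall (a : ℂ) ρ)) (d1 : DifferentiableOn ℂ E₁ (ball (a : ℂ) ρ))
    (e1 : ∀ w ∈ sphere (a : ℂ) ρ, E w = E₁ w)
    (c2 : ContinuousOn E₂ (closedBall (-a : ℂ) ρ)) (d2 : DifferentiableOn ℂ E₂ (ball (-a : ℂ) ρ))
    (e2 : ∀ w ∈ sphere (-a : ℂ) ρ, E w = E₂ w) : ∀ z ∈ DC a ρ, E z = 0 := by
  have main : ∀ z ∈ DD a ρ, E z = 0 := by
    intro z hz
    have hn := (DD_open a ρ).mem_nhds hz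
    have hC := cauchyD hρ h1 h2 (W := dslope E z)
      ((continuousOn_dslope (mem_of_superset hn (DD_sub a ρ))).2
        ⟨hc, hd.differentiableAt hn⟩) ((Complex.differentiableOn_dslope hn).2 hd)
    have hole : ∀ (c : ℂ) (E' : ℂ → ℂ), z ∉ closedBall c ρ → ContinuousOn E' (closedBall c ρ) →
        DifferentiableOn ℂ E' (ball c ρ) → (∀ w ∈ sphere c ρ, E w = E' w) →
        (∮ w in C(c, ρ), dslope E z w) = 0 := by
      intro c E' hzc c' d' e'
      have hne : ∀ w ∈ closedBall c ρ, w - z ≠ 0 := fun w hw h =>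
        hzc (by rwa [← sub_eq_zero.1 h])
      rw [circleIntegral.integral_congr (g := fun w => (w - z)⁻¹ * (E' w - E z)) hρ.le]
      · refine DiffContOnCl.circleIntegral_eq_zero hρ.le ⟨?_, ?_⟩
        · exact ((differentiableOn_id.sub_const z).inv fun w hw =>
            hne w (ball_subset_closedBall hw)).mul (d'.sub_const _)
        · rw [closure_ball _ hρ.ne']
          exact ((continuousOn_id.sub continuousOn_const).inv₀ hne).mul (c'.sub continuousOn_const)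
      · intro w hw
        have : w ≠ z := sub_ne_zero.1 (hne w (sphere_subset_closedBall hw))
        simp only [dslope_of_ne _ this, slope, vsub_eq_sub, smul_eq_mul, e' w hw]
    rw [hole _ _ (fun h => hz.2 (Or.inl h)) c1 d1 e1, hole _ _ (fun h => hz.2 (Or.inr h)) c2 d2 e2,
      sub_zero, sub_zero] at hC
    have hz1 : ‖z‖ < 1 := by simpa using hz.1
    have hne : ∀ w ∈ sphere (0 : ℂ) 1, w - z ≠ 0 := fun w hw h => by
      rw [← sub_eq_zero.1 h] at hz1
      simp at hw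
      linarith
    have hi : ContinuousOn (fun w : ℂ => (w - z)⁻¹) (sphere 0 1) :=
      (continuousOn_id.sub continuousOn_const).inv₀ hne
    have i1 : CircleIntegrable (fun w => (w - z)⁻¹ * E w) 0 1 :=
      (hi.mul (hc.mono (sph0 hρ h1 h2))).circleIntegrable zero_le_one
    have i2 : CircleIntegrable (fun w => E z * (w - z)⁻¹) 0 1 :=
      (continuousOn_const.mul hi).circleIntegrable zero_le_one
    rw [circleIntegral.integral_congr (g := fun w => (w - z)⁻¹ * E w - E z * (w - z)⁻¹)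
      zero_le_one, circleIntegral.integral_sub i1 i2,
      circleIntegral.integral_const_mul, circleIntegral.integral_sub_inv_of_mem_ball hz.1] at hC
    · have h0 : (∮ w in C(0, 1), (w - z)⁻¹ * E w) = 0 := by
        have hne' : ∀ w ∈ closedBall (0 : ℂ) 1, 1 - z * w ≠ 0 := by
          intro w hw h
          have h3 : ‖w‖ ≤ 1 := by simpa using hw
          have h4 : ‖z * w‖ = 1 := by rw [← sub_eq_zero.1 h]; simp
          rw [norm_mul] at h4
          nlinarith [norm_nonneg z, norm_nonneg w]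
        rw [circle_inv, circleIntegral.integral_congr (g := fun w => (1 - z * w)⁻¹ * E₀ w)
          zero_le_one]
        · refine DiffContOnCl.circleIntegral_eq_zero zero_le_one ⟨?_, ?_⟩
          · exact (((differentiableOn_id.const_mul z).const_sub 1).inv fun w hw =>
              hne' w (ball_subset_closedBall hw)).mul d0
          · rw [closure_ball _ one_ne_zero]
            exact ((continuousOn_const.sub (continuousOn_const.mul continuousOn_id)).inv₀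
              hne').mul c0
        · intro w hw
          have hw0 : w ≠ 0 := by
            rintro rfl
            simp at hw
          have h3 := hne' w (sphere_subset_closedBall hw)
          have h4 : w⁻¹ - z = w⁻¹ * (1 - z * w) := by field_simp
          simp only [e0 w hw, h4]
          field_simp
      rw [h0, zero_sub, neg_eq_zero, mul_eq_zero] at hC
      exact hC.resolve_right Complex.two_pi_I_ne_zero
    · intro w hw
      have : w ≠ z := sub_ne_zero.1 (hne w hw)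
      simp only [dslope_of_ne _ this, slope, vsub_eq_sub, smul_eq_mul]
      ring
  intro z hz
  have := ContinuousOn.image_closure (f := E) (s := DD a ρ) (by rwa [closure_DD hρ h1 h2])
    ⟨z, by rwa [closure_DD hρ h1 h2], rfl⟩
  have h3 : E '' DD a ρ ⊆ {0} := by
    rintro _ ⟨w, hw, rfl⟩
    exact main w hw
  exact closure_minimal h3 isClosed_singleton this

end Pool.Agent.H213Z.Quad3
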