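import Mathlib
import Pool.Agent.H213Z.Quad3.Fix
import Pool.Agent.H213Z.Quad3.Hol
import Pool.Agent.H213Z.Quad3.Topo

set_option autoImplicit false
set_option linter.unusedSectionVars false
set_option maxHeartbeats 400000

open Set Metric Filter Topology Complex
open scoped ComplexConjugate

namespace Pool.Agent.H213Z.Quad3

variable {B : Type} [NormedCommRing B] [NormedAlgebra ℝ B] [CompleteSpace B]

/-- local coordinate outside a hole -/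
noncomputable def uu (a ρ : ℝ) (z : ℂ) : ℂ := ρ / (z - a)

section uu

variable {a ρ : ℝ}

lemma uu_ne (hρ : 0 < ρ) {z : ℂ} (hz : ρ ≤ dist z (a : ℂ)) : z - a ≠ 0 := by
  rw [sub_ne_zero]
  rintro rfl
  simp at hz
  linarith

lemma uu_le (hρ : 0 < ρ) {z : ℂ} (hz : ρ ≤ dist z (a : ℂ)) : ‖uu a ρ z‖ ≤ 1 := by
  rw [dist_eq_norm] at hz
  rw [uu, norm_div, Complex.norm_real, Real.norm_of_nonneg hρ.le, div_le_one (by linarith)]
  exact hz

lemma uu_lt (hρ : 0 < ρ) {z : ℂ} (hz : ρ < dist z (a : ℂ)) : ‖uu a ρ z‖ < 1 := by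
  rw [dist_eq_norm] at hz
  rw [uu, norm_div, Complex.norm_real, Real.norm_of_nonneg hρ.le, div_lt_one (by linarith)]
  exact hz

lemma uu_deriv (hρ : 0 < ρ) {z : ℂ} (hz : ρ ≤ dist z (a : ℂ)) :
    HasDerivAt (uu a ρ) (-(uu a ρ z ^ 2 / ρ)) z := by
  have h := uu_ne hρ hz
  have h1 := (hasDerivAt_const z (ρ : ℂ)).div ((hasDerivAt_id z).sub_const (a : ℂ)) h
  have h2 : (ρ : ℂ) ≠ 0 := by exact_mod_cast hρ.ne'
  have h3 : -(uu a ρ z ^ 2 / ρ) = (0 * (id z - a) - ρ * 1) / (id z - a) ^ 2 := by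
    simp only [uu, id]
    field_simp
    ring
  rw [h3]
  exact h1

lemma uu_lip (hρ : 0 < ρ) {z w : ℂ} (hz : ρ ≤ dist z (a : ℂ)) (hw : ρ ≤ dist w (a : ℂ)) :
    ρ * ‖uu a ρ z - uu a ρ w‖ ≤ ‖z - w‖ := by
  have h1 := uu_ne hρ hz
  have h2 := uu_ne hρ hw
  have h3 : (ρ : ℂ) * (uu a ρ z - uu a ρ w) = -(uu a ρ z * uu a ρ w * (z - w)) := by
    simp only [uu]
    field_simp
    ring
  have h4 := congrArg norm h3
  rw [norm_mul, Complex.norm_real, Real.norm_of_nonneg hρ.le, norm_neg, norm_mul, norm_mul] at h4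
  rw [h4]
  exact mul_le_of_le_one_left (norm_nonneg _)
    (mul_le_one₀ (uu_le hρ hz) (norm_nonneg _) (uu_le hρ hw))

/-- holomorphic inside, continuous up to the boundary -/
def HolOn (s t : Set ℂ) (f : ℂ → ℂ) : Prop := ContinuousOn f t ∧ DifferentiableOn ℂ f s

lemma HolOn.const {s t : Set ℂ} (c : ℂ) : HolOn s t (fun _ => c) :=
  ⟨continuousOn_const, differentiableOn_const _⟩
lemma HolOn.id {s t : Set ℂ} : HolOn s t (fun z => z) := ⟨continuousOn_id, differentiableOn_id⟩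
lemma HolOn.add {s t : Set ℂ} {f g : ℂ → ℂ} (hf : HolOn s t f) (hg : HolOn s t g) :
    HolOn s t (fun z => f z + g z) := ⟨hf.1.add hg.1, hf.2.add hg.2⟩
lemma HolOn.sub {s t : Set ℂ} {f g : ℂ → ℂ} (hf : HolOn s t f) (hg : HolOn s t g) :
    HolOn s t (fun z => f z - g z) := ⟨hf.1.sub hg.1, hf.2.sub hg.2⟩
lemma HolOn.neg {s t : Set ℂ} {f : ℂ → ℂ} (hf : HolOn s t f) :
    HolOn s t (fun z => -f z) := ⟨hf.1.neg, hf.2.neg⟩
lemma HolOn.mul {s t : Set ℂ} {f g : ℂ → ℂ} (hf : HolOn s t f) (hg : HolOn s t g) :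
    HolOn s t (fun z => f z * g z) := ⟨hf.1.mul hg.1, hf.2.mul hg.2⟩
lemma HolOn.sq {s t : Set ℂ} {f : ℂ → ℂ} (hf : HolOn s t f) :
    HolOn s t (fun z => f z ^ 2) := ⟨hf.1.pow 2, hf.2.pow 2⟩
lemma HolOn.div {s t : Set ℂ} {f g : ℂ → ℂ} (hf : HolOn s t f) (hg : HolOn s t g) (hst : s ⊆ t)
    (h0 : ∀ z ∈ t, g z ≠ 0) : HolOn s t (fun z => f z / g z) :=
  ⟨hf.1.div hg.1 h0, hf.2.div hg.2 fun z hz => h0 z (hst hz)⟩
lemma HolOn.H (W : WB B) (x : B) {s t : Set ℂ} {f : ℂ → ℂ} (hf : HolOn s t f)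
    (h1 : ∀ z ∈ t, ‖f z‖ ≤ 1) (h2 : ∀ z ∈ s, ‖f z‖ < 1) : HolOn s t (fun z => W.H (f z) x) :=
  ⟨(W.contOn_H x).comp hf.1 fun z hz => by simpa using h1 z hz,
    (W.diffOn_H x).comp hf.2 fun z hz => by simpa using h2 z hz⟩
lemma HolOn.uu (hρ : 0 < ρ) {s t : Set ℂ} {f : ℂ → ℂ} (hf : HolOn s t f) (hst : s ⊆ t)
    (h1 : ∀ z ∈ t, ρ ≤ dist (f z) (a : ℂ)) : HolOn s t (fun z => uu a ρ (f z)) :=
  (HolOn.const _).div (hf.sub (HolOn.const _)) hst fun z hz => uu_ne hρ (h1 z hz)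
lemma HolOn.Hu (W : WB B) (x : B) (hρ : 0 < ρ) {s t : Set ℂ} {f : ℂ → ℂ} (hf : HolOn s t f)
    (hst : s ⊆ t) (h1 : ∀ z ∈ t, ρ ≤ dist (f z) (a : ℂ)) (h2 : ∀ z ∈ s, ρ < dist (f z) (a : ℂ)) :
    HolOn s t (fun z => W.H (Quad3.uu a ρ (f z)) x) :=
  (hf.uu hρ hst h1).H W x (fun z hz => uu_le hρ (h1 z hz)) (fun z hz => uu_lt hρ (h2 z hz))

end uu

namespace WB

variable (W : WB B) (v : ℝ × ℝ × B × B)

/-- radius of the holes -/
noncomputable def rho (v : ℝ × ℝ × B × B) : ℝ := 2 * v.1 * v.1 * v.2.1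
/-- local coordinate -/
noncomputable def u (v : ℝ × ℝ × B × B) (z : ℂ) : ℂ := uu v.1 (rho v) z
/-- square root of the derivative -/
noncomputable def psi (z : ℂ) : ℂ := 1 + v.1 * (W.H z v.2.2.1 + u v z * W.H (u v z) v.2.2.2
  + u v (-z) * W.H (u v (-z)) v.2.2.2)
/-- the conformal map -/
noncomputable def phi (z : ℂ) : ℂ := z + v.1 * (z * W.H z (W.J (W.wo v)))
  - v.1 * rho v * (u v z * W.H (u v z) (W.J (W.g1 v)) - u v (-z) * W.H (u v (-z)) (W.J (W.g1 v)))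
/-- its derivative -/
noncomputable def dphi (z : ℂ) : ℂ := 1 + v.1 * (W.H z (W.wo v)
  + u v z ^ 2 * W.H (u v z) (W.g1 v) + u v (-z) ^ 2 * W.H (u v (-z)) (W.g1 v))
/-- the holomorphic part -/
noncomputable def KK (z : ℂ) : ℂ := v.1 * (z * W.H z (W.k1 v)) + u v z * W.H (u v z) (W.m v)
  - u v (-z) * W.H (u v (-z)) (W.m v)

variable {W v}

lemma ev_smul (z : ℂ) (c : ℝ) (x : B) : W.ev z (c • x) = c * W.ev z x := by
  rw [map_smul, Complex.real_smul]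

section outer

variable {z : ℂ}

lemma ev_U1 (hv : v ∈ Dom B) (hz : ‖z‖ = 1) : W.ev z (W.U1 v) = u v z := by
  have h0 : z ≠ 0 := by rintro rfl; simp at hz
  unfold U1 V1
  rw [ev_smul, W.ev_mul z hz, W.ev_inv1 z hz (by linarith [W.n_aS hv]), ev_smul, W.ev_S z hz,
    u, uu, rho, ← mul_inv, div_eq_mul_inv]
  congr 2
  field_simp

lemma ev_U2 (hv : v ∈ Dom B) (hz : ‖z‖ = 1) : W.ev z (W.U2 v) = u v (-z) := by
  have h0 : z ≠ 0 := by rintro rfl; simp at hz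
  unfold U2 V2
  rw [ev_smul, map_neg, W.ev_mul z hz, W.ev_inv1 z hz (by linarith [W.n_aS' hv]), map_neg, ev_smul,
    W.ev_S z hz, u, uu, rho, ← mul_inv, div_eq_mul_inv, ← inv_neg]
  congr 2
  field_simp
  ring

lemma ev_C1 (hv : v ∈ Dom B) (hz : ‖z‖ = 1) (x : B) :
    W.ev z (W.C (W.U1 v) x) = W.H (u v z) x := by
  rw [W.ev_C z hz _ (by linarith [W.n_U1 hv]), ev_U1 hv hz]

lemma ev_C2 (hv : v ∈ Dom B) (hz : ‖z‖ = 1) (x : B) :
    W.ev z (W.C (W.U2 v) x) = W.H (u v (-z)) x := by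
  rw [W.ev_C z hz _ (by linarith [W.n_U2 hv]), ev_U2 hv hz]

lemma Fixed.psi_outer (h : W.Fixed v) (hz : ‖z‖ = 1) :
    W.psi v z = W.ev z (1 + v.1 • W.So v) := by
  have h1 : W.So v = W.P v.2.2.1 + W.U1 v * W.C (W.U1 v) v.2.2.2
      + W.U2 v * W.C (W.U2 v) v.2.2.2 := by
    rw [h.P_s]
    unfold So So1
    generalize W.C (W.U1 v) v.2.2.2 = c1
    generalize W.C (W.U2 v) v.2.2.2 = c2
    unfold U1 U2
    simp only [Algebra.smul_def, map_mul, map_ofNat]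
    ring
  rw [map_add, W.ev_one z hz, ev_smul, h1, map_add, map_add, W.ev_P z hz, W.ev_mul z hz,
    W.ev_mul z hz, ev_C1 h.dom hz, ev_C2 h.dom hz, ev_U1 h.dom hz, ev_U2 h.dom hz, psi]

lemma Fixed.phi_outer (h : W.Fixed v) (hz : ‖z‖ = 1) :
    W.phi v z = W.ev z (W.T + v.1 • W.pto v) := by
  unfold pto Go
  rw [← W.PJ (W.wo v)]
  simp only [map_add, map_sub, ev_smul, W.ev_mul z hz, W.ev_T z hz, W.ev_P z hz,
    ev_C1 h.dom hz, ev_C2 h.dom hz, ev_U1 h.dom hz, ev_U2 h.dom hz, phi, rho]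
  ring

lemma Fixed.KK_outer (h : W.Fixed v) (hz : ‖z‖ = 1) :
    W.KK v z = conj (W.phi v z) * W.psi v z - conj (z * W.psi v z) := by
  have h1 := congrArg (W.ev z) h.outerK
  rw [map_sub, map_sub, W.ev_mul z hz (W.σ _), W.ev_σ z hz, W.ev_σ z hz, W.ev_mul z hz W.T (1 + _),
    ← h.psi_outer hz, ← h.phi_outer hz, W.ev_T z hz] at h1
  rw [← h1]
  have h2 : W.ev z (W.k1 v) = W.H z (W.k1 v) := by
    rw [← W.ev_P z hz]; unfold k1; rw [PP]
  simp only [map_add, ev_smul, W.ev_mul z hz, W.ev_T z hz, h2,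
    ev_C1 h.dom hz, ev_C2 h.dom hz, ev_U1 h.dom hz, ev_U2 h.dom hz, KK]

lemma Fixed.E_outer (h : W.Fixed v) (hz : ‖z‖ = 1) :
    W.psi v z ^ 2 - W.dphi v z = v.1 * (z⁻¹ * W.H z⁻¹ (W.σ (W.T * W.wo v))
      - u v z ^ 2 * W.H (u v z) (W.g1 v) - u v (-z) ^ 2 * W.H (u v (-z)) (W.g1 v)) := by
  have h1 := congrArg (W.ev z) (W.dec1 (W.wo v))
  rw [map_add, W.ev_P z hz, W.ev_mul z hz, W.ev_σP z hz, W.ev_S z hz] at h1
  have h2 : W.psi v z ^ 2 = 1 + v.1 * W.ev z (W.wo v) := by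
    rw [h.psi_outer hz]
    unfold wo
    simp only [map_add, ev_smul, W.ev_mul z hz, W.ev_one z hz]
    push_cast
    ring
  rw [h2, ← h1, dphi]
  ring

end outer

section hole

variable {z : ℂ}

lemma ev_Z (hz : ‖z‖ = 1) : W.ev z (W.Z v) = v.1 + rho v * z := by
  unfold Z Z1
  simp only [map_add, ev_smul, W.ev_one z hz, W.ev_T z hz, rho]
  push_cast
  ring

lemma ev_Uh (hv : v ∈ Dom B) (ha : 0 < v.1) (hz : ‖z‖ = 1) :
    W.ev z (W.Uh v) = u v (-(v.1 + rho v * z)) := by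
  have h0 : (v.1 : ℂ) ≠ 0 := by exact_mod_cast ha.ne'
  unfold Uh
  rw [map_neg, ev_smul, W.ev_inv1 z hz (by linarith [W.n_yy hv])]
  unfold yy
  rw [map_neg, ev_smul, W.ev_T z hz, u, uu, rho]
  have h1 : -((v.1 : ℂ) + ((2 * v.1 * v.1 * v.2.1 : ℝ) : ℂ) * z) - v.1
      = (-2 * v.1) * (1 - -(((v.1 * v.2.1 : ℝ) : ℂ) * z)) := by
    push_cast; ring
  rw [h1, div_eq_mul_inv, mul_inv]
  push_cast
  field_simp

lemma u_hole (hρ : 0 < rho v) (hz : ‖z‖ = 1) : u v (v.1 + rho v * z) = z⁻¹ := by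
  have h0 : z ≠ 0 := by rintro rfl; simp at hz
  have h1 : ((rho v : ℝ) : ℂ) ≠ 0 := by exact_mod_cast hρ.ne'
  rw [u, uu, add_sub_cancel_left]
  field_simp

lemma ev_CZ (hv : v ∈ Dom B) (hz : ‖z‖ = 1) (x : B) :
    W.ev z (W.C (W.Z v) x) = W.H (v.1 + rho v * z) x := by
  rw [W.ev_C z hz _ (by linarith [W.n_Z hv]), ev_Z hz]

lemma ev_Ch (hv : v ∈ Dom B) (ha : 0 < v.1) (hz : ‖z‖ = 1) (x : B) :
    W.ev z (W.C (W.Uh v) x) = W.H (u v (-(v.1 + rho v * z))) x := by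
  rw [W.ev_C z hz _ (by linarith [W.n_Uh hv]), ev_Uh hv ha hz]

lemma Fixed.psi_hole (h : W.Fixed v) (ha : 0 < v.1) (hρ : 0 < rho v) (hz : ‖z‖ = 1) :
    W.psi v (v.1 + rho v * z) = W.ev z (1 + v.1 • W.Sh v) := by
  have h1 : W.ev z (W.σ v.2.2.2) = W.H z⁻¹ v.2.2.2 := by
    rw [← W.ev_σP z hz, h.P_p]
  unfold Sh
  simp only [map_add, ev_smul, W.ev_mul z hz, W.ev_one z hz, W.ev_S z hz, h1, ev_CZ h.dom hz,
    ev_Ch h.dom ha hz, ev_Uh h.dom ha hz, psi, u_hole hρ hz]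

lemma Fixed.phi_hole (h : W.Fixed v) (ha : 0 < v.1) (hρ : 0 < rho v) (hz : ‖z‖ = 1) :
    W.phi v (v.1 + rho v * z) = W.ev z (v.1 • (1 + v.1 • W.phh v)) := by
  have h1 : W.ev z (W.σ (W.J (W.g1 v))) = W.H z⁻¹ (W.J (W.g1 v)) := by
    rw [← W.ev_σP z hz, PJ]
  unfold phh Z1
  simp only [map_add, map_sub, ev_smul, W.ev_mul z hz, W.ev_one z hz, W.ev_S z hz, W.ev_T z hz, h1,
    ev_CZ h.dom hz, ev_Ch h.dom ha hz, ev_Uh h.dom ha hz, phi, u_hole hρ hz]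
  generalize W.H (v.1 + rho v * z) (W.J (W.wo v)) = c1
  generalize u v (-(v.1 + rho v * z)) = c2
  unfold rho
  push_cast
  ring

lemma Fixed.KK_hole (h : W.Fixed v) (ha : 0 < v.1) (hρ : 0 < rho v) (hz : ‖z‖ = 1) :
    W.KK v (v.1 + rho v * z) = conj (W.phi v (v.1 + rho v * z)) * W.psi v (v.1 + rho v * z)
      + conj (z * W.psi v (v.1 + rho v * z)) := by
  have h1 := congrArg (W.ev z) h.holeK
  rw [map_sub, map_add (W.ev z) (W.σ _ * _), W.ev_mul z hz (W.σ _), W.ev_σ z hz, W.ev_σ z hz,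
    W.ev_mul z hz W.T (1 + _), ← h.psi_hole ha hρ hz, ← h.phi_hole ha hρ hz, W.ev_T z hz] at h1
  rw [← h1]
  simp only [map_add, ev_smul, W.ev_mul z hz, W.ev_S z hz, W.ev_σP z hz, ev_Z hz,
    ev_CZ h.dom hz, ev_Ch h.dom ha hz, ev_Uh h.dom ha hz, KK, u_hole hρ hz]

lemma Fixed.E_hole (h : W.Fixed v) (ha : 0 < v.1) (hρ : 0 < rho v) (hz : ‖z‖ = 1) :
    W.psi v (v.1 + rho v * z) ^ 2 - W.dphi v (v.1 + rho v * z)
      = v.1 * (W.H z (W.wh v) - W.H (v.1 + rho v * z) (W.wo v)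
        - u v (-(v.1 + rho v * z)) ^ 2 * W.H (u v (-(v.1 + rho v * z))) (W.g1 v)) := by
  have h1 := congrArg (W.ev z) (W.dec2 (W.wh v))
  rw [h.cm_wh, zero_smul, add_zero, map_add, W.ev_P z hz, W.ev_mul z hz, W.ev_mul z hz,
    W.ev_σP z hz, W.ev_S z hz] at h1
  have h2 : W.psi v (v.1 + rho v * z) ^ 2 = 1 + v.1 * W.ev z (W.wh v) := by
    rw [h.psi_hole ha hρ hz]
    unfold wh
    simp only [map_add, ev_smul, W.ev_mul z hz, W.ev_one z hz]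
    push_cast
    ring
  rw [h2, ← h1, dphi, u_hole hρ hz]
  unfold g1
  ring

end hole

lemma Fixed.psi_neg (h : W.Fixed v) {z : ℂ} (hz : ‖z‖ ≤ 1) : W.psi v (-z) = W.psi v z := by
  simp only [psi, neg_neg, W.H_neg z hz, h.ι_s]
  ring

lemma Fixed.dphi_neg (h : W.Fixed v) {z : ℂ} (hz : ‖z‖ ≤ 1) : W.dphi v (-z) = W.dphi v z := by
  simp only [dphi, neg_neg, W.H_neg z hz, h.ι_wo]
  ring

lemma Fixed.phi_neg (h : W.Fixed v) {z : ℂ} (hz : ‖z‖ ≤ 1) : W.phi v (-z) = -W.phi v z := by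
  simp only [phi, neg_neg, W.H_neg z hz, ιJ, h.ι_wo]
  ring

lemma Fixed.KK_neg (h : W.Fixed v) {z : ℂ} (hz : ‖z‖ ≤ 1) : W.KK v (-z) = -W.KK v z := by
  simp only [KK, neg_neg, W.H_neg z hz, h.ι_k1]
  ring

section analysis

lemma d1 {a ρ : ℝ} {z : ℂ} (hz : z ∈ DC a ρ) : ρ ≤ dist z (a : ℂ) := (mem_DC.1 hz).2.1
lemma d2 {a ρ : ℝ} {z : ℂ} (hz : z ∈ DC a ρ) : ρ ≤ dist (-z) (a : ℂ) := d1 (neg_DC hz)
lemma d0 {a ρ : ℝ} {z : ℂ} (hz : z ∈ DC a ρ) : ‖z‖ ≤ 1 := by simpa using (mem_DC.1 hz).1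
lemma o1 {a ρ : ℝ} {z : ℂ} (hz : z ∈ DD a ρ) : ρ < dist z (a : ℂ) := (mem_DD.1 hz).2.1
lemma o2 {a ρ : ℝ} {z : ℂ} (hz : z ∈ DD a ρ) : ρ < dist (-z) (a : ℂ) := o1 (neg_DD hz)
lemma o0 {a ρ : ℝ} {z : ℂ} (hz : z ∈ DD a ρ) : ‖z‖ < 1 := by simpa using (mem_DD.1 hz).1

variable (W v)

lemma hol0 (x : B) : HolOn (DD v.1 (rho v)) (DC v.1 (rho v)) (fun z => W.H z x) :=
  HolOn.id.H W x (fun _ hz => d0 hz) (fun _ hz => o0 hz)
lemma holu1 (hρ : 0 < rho v) : HolOn (DD v.1 (rho v)) (DC v.1 (rho v)) (fun z => u v z) :=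
  HolOn.id.uu hρ (DD_sub _ _) (fun _ hz => d1 hz)
lemma holu2 (hρ : 0 < rho v) : HolOn (DD v.1 (rho v)) (DC v.1 (rho v)) (fun z => u v (-z)) :=
  HolOn.id.neg.uu hρ (DD_sub _ _) (fun _ hz => d2 hz)
lemma hol1 (hρ : 0 < rho v) (x : B) :
    HolOn (DD v.1 (rho v)) (DC v.1 (rho v)) (fun z => W.H (u v z) x) :=
  HolOn.id.Hu W x hρ (DD_sub _ _) (fun _ hz => d1 hz) (fun _ hz => o1 hz)
lemma hol2 (hρ : 0 < rho v) (x : B) :
    HolOn (DD v.1 (rho v)) (DC v.1 (rho v)) (fun z => W.H (u v (-z)) x) :=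
  HolOn.id.neg.Hu W x hρ (DD_sub _ _) (fun _ hz => d2 hz) (fun _ hz => o2 hz)

lemma hol_psi (hρ : 0 < rho v) : HolOn (DD v.1 (rho v)) (DC v.1 (rho v)) (W.psi v) :=
  (HolOn.const _).add ((HolOn.const _).mul (((W.hol0 v _).add ((holu1 v hρ).mul
    (W.hol1 v hρ _))).add ((holu2 v hρ).mul (W.hol2 v hρ _))))

lemma hol_dphi (hρ : 0 < rho v) : HolOn (DD v.1 (rho v)) (DC v.1 (rho v)) (W.dphi v) :=
  (HolOn.const _).add ((HolOn.const _).mul (((W.hol0 v _).add ((holu1 v hρ).sq.mul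
    (W.hol1 v hρ _))).add ((holu2 v hρ).sq.mul (W.hol2 v hρ _))))

lemma hol_KK (hρ : 0 < rho v) : HolOn (DD v.1 (rho v)) (DC v.1 (rho v)) (W.KK v) :=
  (((HolOn.const _).mul (HolOn.id.mul (W.hol0 v _))).add ((holu1 v hρ).mul
    (W.hol1 v hρ _))).sub ((holu2 v hρ).mul (W.hol2 v hρ _))

lemma deriv_phi (hρ : 0 < rho v) {z : ℂ} (hz : z ∈ DC v.1 (rho v)) :
    HasDerivWithinAt (W.phi v) (W.dphi v z) (DC v.1 (rho v)) z := by
  have e0 := (W.deriv_I (W.wo v) z (by simpa using d0 hz)).mono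
    (show DC v.1 (rho v) ⊆ closedBall 0 1 from diff_subset)
  have e1 := (W.deriv_I (W.g1 v) (u v z) (mem_closedBall_zero_iff.2 (uu_le hρ (d1 hz)))).comp z
    (uu_deriv hρ (d1 hz)).hasDerivWithinAt (s := DC v.1 (rho v))
    (fun w hw => mem_closedBall_zero_iff.2 (uu_le hρ (d1 hw)))
  have e3 : HasDerivAt (fun z => uu v.1 (rho v) (-z)) (-(uu v.1 (rho v) (-z) ^ 2 / rho v) * (-1)) z :=
    (uu_deriv hρ (d2 hz)).comp z (hasDerivAt_neg z)
  have e2 := (W.deriv_I (W.g1 v) (u v (-z)) (mem_closedBall_zero_iff.2 (uu_le hρ (d2 hz)))).comp z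
    e3.hasDerivWithinAt (s := DC v.1 (rho v))
    (fun w hw => mem_closedBall_zero_iff.2 (uu_le hρ (d2 hw)))
  have e4 := ((hasDerivWithinAt_id z _).add (e0.const_mul (v.1 : ℂ))).sub
    ((e1.sub e2).const_mul ((v.1 : ℂ) * rho v))
  have h1 : ((rho v : ℝ) : ℂ) ≠ 0 := by exact_mod_cast hρ.ne'
  refine HasDerivWithinAt.congr_deriv e4 ?_
  simp only [dphi, u]
  field_simp
  ring

lemma dphi_near (ha : 0 < v.1) (hρ : 0 < rho v)
    (hs : v.1 * (‖W.wo v‖ + 2 * ‖W.g1 v‖) ≤ 1 / 2) {z : ℂ} (hz : z ∈ DC v.1 (rho v)) :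
    ‖W.dphi v z - 1‖ ≤ 1 / 2 := by
  have k : ∀ w : ℂ, ‖w‖ ≤ 1 → ‖w ^ 2 * W.H w (W.g1 v)‖ ≤ ‖W.g1 v‖ := by
    intro w hw
    rw [norm_mul, norm_pow]
    exact (mul_le_of_le_one_left (norm_nonneg _) (pow_le_one₀ (norm_nonneg _) hw)).trans
      (W.norm_H w hw _)
  rw [dphi, add_sub_cancel_left, norm_mul, Complex.norm_real, Real.norm_of_nonneg ha.le]
  refine le_trans (mul_le_mul_of_nonneg_left ?_ ha.le) hs
  refine (norm_add₃_le).trans ?_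
  have := W.norm_H z (d0 hz) (W.wo v)
  have := k _ (uu_le hρ (d1 hz))
  have := k _ (uu_le hρ (d2 hz))
  simp only [u]
  linarith

lemma phi_lip (ha : 0 < v.1) (hρ : 0 < rho v)
    (hs : v.1 * (‖W.wo v‖ + 2 * ‖W.g1 v‖) ≤ 1 / 2) {z w : ℂ} (hz : z ∈ DC v.1 (rho v))
    (hw : w ∈ DC v.1 (rho v)) : ‖W.phi v z - W.phi v w - (z - w)‖ ≤ 1 / 2 * ‖z - w‖ := by
  have k0 := W.lip_I (W.wo v) z w (d0 hz) (d0 hw)
  have k1 := W.lip_I (W.g1 v) _ _ (uu_le hρ (d1 hz)) (uu_le hρ (d1 hw))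
  have k2 := W.lip_I (W.g1 v) _ _ (uu_le hρ (d2 hz)) (uu_le hρ (d2 hw))
  have l1 := uu_lip hρ (d1 hz) (d1 hw)
  have l2 := uu_lip hρ (d2 hz) (d2 hw)
  rw [neg_sub_neg, norm_sub_rev w z] at l2
  have e : W.phi v z - W.phi v w - (z - w) = v.1 *
      ((z * W.H z (W.J (W.wo v)) - w * W.H w (W.J (W.wo v)))
      + (-rho v) * (u v z * W.H (u v z) (W.J (W.g1 v)) - u v w * W.H (u v w) (W.J (W.g1 v)))
      + rho v * (u v (-z) * W.H (u v (-z)) (W.J (W.g1 v))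
        - u v (-w) * W.H (u v (-w)) (W.J (W.g1 v)))) := by
    simp only [phi]; ring
  rw [e, norm_mul, Complex.norm_real, Real.norm_of_nonneg ha.le]
  have hn := norm_nonneg (z - w)
  refine le_trans (mul_le_mul_of_nonneg_left (c := (‖W.wo v‖ + 2 * ‖W.g1 v‖) * ‖z - w‖) ?_ ha.le)
    (by nlinarith)
  refine (norm_add₃_le).trans ?_
  rw [norm_mul, norm_mul, norm_neg, Complex.norm_real, Real.norm_of_nonneg hρ.le]
  simp only [u]
  have m1 := mul_le_mul_of_nonneg_left k1 hρ.le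
  have m2 := mul_le_mul_of_nonneg_left k2 hρ.le
  have m3 := mul_le_mul_of_nonneg_right l1 (norm_nonneg (W.g1 v))
  have m4 := mul_le_mul_of_nonneg_right l2 (norm_nonneg (W.g1 v))
  nlinarith

variable {W v}

lemma Fixed.sq_eq (h : W.Fixed v) (ha : 0 < v.1) (hρ : 0 < rho v) (h1 : 4 * rho v < v.1)
    (h2 : v.1 < 1 / 4) : ∀ z ∈ DC v.1 (rho v), W.psi v z ^ 2 - W.dphi v z = 0 := by
  have hE := (W.hol_psi v hρ).sq.sub (W.hol_dphi v hρ)
  have hρ' : ((rho v : ℝ) : ℂ) ≠ 0 := by exact_mod_cast hρ.ne'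
  -- the function inside the first hole
  have in1 : HolOn (ball (v.1 : ℂ) (rho v)) (closedBall (v.1 : ℂ) (rho v))
      (fun z => v.1 * (W.H ((z - v.1) / rho v) (W.wh v) - W.H z (W.wo v)
        - u v (-z) ^ 2 * W.H (u v (-z)) (W.g1 v))) := by
    have g1 : ∀ z ∈ closedBall (v.1 : ℂ) (rho v), rho v < dist (-z) (v.1 : ℂ) := by
      intro z hz
      obtain ⟨t1, t2, t3, t4, t5⟩ := geo ha z
      rw [mem_closedBall] at hz
      rw [← dist_neg_neg, neg_neg]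
      linarith
    have g2 : ∀ z ∈ closedBall (v.1 : ℂ) (rho v), ‖z‖ < 1 := by
      intro z hz
      obtain ⟨t1, t2, t3, t4, t5⟩ := geo ha z
      rw [mem_closedBall] at hz
      rw [dist_zero_right] at t1
      linarith
    refine (HolOn.const _).mul (HolOn.sub (HolOn.sub ?_ ?_) (HolOn.mul ?_ ?_))
    · refine HolOn.H W _ ((HolOn.id.sub (HolOn.const _)).div (HolOn.const _)
        ball_subset_closedBall fun _ _ => hρ') ?_ ?_
      · intro z hz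
        rw [mem_closedBall, dist_eq_norm] at hz
        rwa [norm_div, Complex.norm_real, Real.norm_of_nonneg hρ.le, div_le_one hρ]
      · intro z hz
        rw [mem_ball, dist_eq_norm] at hz
        rwa [norm_div, Complex.norm_real, Real.norm_of_nonneg hρ.le, div_lt_one hρ]
    · exact HolOn.id.H W _ (fun z hz => (g2 z hz).le)
        (fun z hz => g2 z (ball_subset_closedBall hz))
    · exact (HolOn.id.neg.uu hρ ball_subset_closedBall fun z hz => (g1 z hz).le).sq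
    · exact HolOn.id.neg.Hu W _ hρ ball_subset_closedBall (fun z hz => (g1 z hz).le)
        (fun z hz => g1 z (ball_subset_closedBall hz))
  have eq1 : ∀ w ∈ sphere (v.1 : ℂ) (rho v), W.psi v w ^ 2 - W.dphi v w
      = v.1 * (W.H ((w - v.1) / rho v) (W.wh v) - W.H w (W.wo v)
        - u v (-w) ^ 2 * W.H (u v (-w)) (W.g1 v)) := by
    intro w hw
    have hz : ‖(w - v.1) / rho v‖ = 1 := by
      rw [mem_sphere, dist_eq_norm] at hw
      rw [norm_div, hw, Complex.norm_real, Real.norm_of_nonneg hρ.le, div_self hρ.ne']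
    have := h.E_hole ha hρ hz
    have e : (v.1 : ℂ) + rho v * ((w - v.1) / rho v) = w := by field_simp; ring
    rwa [e] at this
  -- the function at infinity
  have q : ∀ (c : ℝ), |c| = v.1 → ∀ w : ℂ, ‖w‖ ≤ 1 → (1 - c * w ≠ 0) ∧
      ‖rho v * w / (1 - c * w)‖ < 1 := by
    intro c hc w hw
    have k1 : ‖(c : ℂ) * w‖ ≤ v.1 := by
      rw [norm_mul, Complex.norm_real, Real.norm_eq_abs, hc]
      exact mul_le_of_le_one_right ha.le hw
    have k2 : 1 - v.1 ≤ ‖1 - (c : ℂ) * w‖ := by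
      have := norm_sub_norm_le (1 : ℂ) (c * w)
      rw [norm_one] at this
      linarith
    refine ⟨norm_pos_iff.1 (by linarith), ?_⟩
    rw [norm_div, norm_mul, Complex.norm_real, Real.norm_of_nonneg hρ.le,
      div_lt_one (by linarith)]
    nlinarith
  have r : ∀ (c : ℝ), |c| = v.1 → HolOn (ball 0 1) (closedBall 0 1)
      (fun w : ℂ => rho v / (1 - c * w)) := fun c hc =>
    (HolOn.const _).div ((HolOn.const _).sub ((HolOn.const _).mul HolOn.id))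
      ball_subset_closedBall fun w hw => (q c hc w (by simpa using hw)).1
  have r' : ∀ (c : ℝ), |c| = v.1 → HolOn (ball 0 1) (closedBall 0 1)
      (fun w : ℂ => rho v * w / (1 - c * w)) := fun c hc =>
    ((HolOn.const _).mul HolOn.id).div ((HolOn.const _).sub ((HolOn.const _).mul HolOn.id))
      ball_subset_closedBall fun w hw => (q c hc w (by simpa using hw)).1
  have ap : |v.1| = v.1 := abs_of_pos ha
  have an : |-v.1| = v.1 := by rw [abs_neg, ap]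
  have in0 : HolOn (ball 0 1) (closedBall 0 1)
      (fun w : ℂ => v.1 * (W.H w (W.σ (W.T * W.wo v))
        - w * (rho v / (1 - v.1 * w)) ^ 2 * W.H (rho v * w / (1 - v.1 * w)) (W.g1 v)
        - w * (rho v / (1 - (-v.1 : ℝ) * w)) ^ 2
          * W.H (-(rho v * w / (1 - (-v.1 : ℝ) * w))) (W.g1 v))) := by
    refine (HolOn.const _).mul (HolOn.sub (HolOn.sub ?_ (HolOn.mul ?_ ?_)) (HolOn.mul ?_ ?_))
    · exact HolOn.id.H W _ (fun z hz => by simpa using hz) (fun z hz => by simpa using hz)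
    · exact HolOn.id.mul (r _ ap).sq
    · exact (r' _ ap).H W _ (fun z hz => (q _ ap z (by simpa using hz)).2.le)
        (fun z hz => (q _ ap z (by simpa using (ball_subset_closedBall hz))).2)
    · exact HolOn.id.mul (r _ an).sq
    · exact (r' _ an).neg.H W _
        (fun z hz => by rw [norm_neg]; exact (q _ an z (by simpa using hz)).2.le)
        (fun z hz => by
          rw [norm_neg]; exact (q _ an z (by simpa using (ball_subset_closedBall hz))).2)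
  refine liouvilleD hρ h1 h2 hE.1 hE.2 in0.1 in0.2 ?_ in1.1 in1.2 eq1
    (E₂ := fun z => v.1 * (W.H ((-z - v.1) / rho v) (W.wh v) - W.H (-z) (W.wo v)
        - u v (- -z) ^ 2 * W.H (u v (- -z)) (W.g1 v))) ?_ ?_ ?_
  · intro w hw
    have hw1 : ‖w‖ = 1 := by simpa using hw
    have hw0 : w ≠ 0 := by rintro rfl; simp at hw1
    have e1 : u v w⁻¹ = rho v * w / (1 - v.1 * w) := by
      have := (q _ ap w hw1.le).1
      have e : w⁻¹ - v.1 = w⁻¹ * (1 - v.1 * w) := by field_simp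
      rw [u, uu, e]
      field_simp
    have e2 : u v (-w⁻¹) = -(rho v * w / (1 - (-v.1 : ℝ) * w)) := by
      have := (q _ an w hw1.le).1
      have e : -w⁻¹ - v.1 = -(w⁻¹ * (1 - (-v.1 : ℝ) * w)) := by push_cast; field_simp; ring
      rw [u, uu, e]
      field_simp
    rw [h.E_outer (by simpa using hw1), inv_inv, e1, e2]
    ring
  · exact in1.1.comp continuousOn_neg fun z hz => by
      rw [mem_closedBall] at hz ⊢
      rwa [← dist_neg_neg, neg_neg]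
  · exact in1.2.comp (differentiableOn_neg _) fun z hz => by
      rw [mem_ball] at hz ⊢
      rwa [← dist_neg_neg, neg_neg]
  · intro w hw
    have hw1 := d0 (sph2 hρ h1 h2 hw)
    rw [← h.psi_neg hw1, ← h.dphi_neg hw1]
    refine eq1 (-w) ?_
    rw [mem_sphere] at hw ⊢
    rwa [← dist_neg_neg, neg_neg]

end analysis

end WB

theorem package : ∃ (a ρ : ℝ) (φ φ' ψ K : ℂ → ℂ), 0 < ρ ∧ 4 * ρ < a ∧ a < 1 / 4 ∧
    (∀ z ∈ DC a ρ, HasDerivWithinAt φ (φ' z) (DC a ρ) z) ∧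
    HolOn (DD a ρ) (DC a ρ) ψ ∧ HolOn (DD a ρ) (DC a ρ) K ∧
    (∀ z ∈ DC a ρ, φ' z = ψ z ^ 2) ∧ (∀ z ∈ DC a ρ, ‖φ' z - 1‖ ≤ 1 / 2) ∧
    (∀ z ∈ DC a ρ, ∀ w ∈ DC a ρ, ‖φ z - φ w - (z - w)‖ ≤ 1 / 2 * ‖z - w‖) ∧
    (∀ t : ℂ, ‖t‖ = 1 → K t = conj (φ t) * ψ t - conj (t * ψ t)) ∧
    (∀ t : ℂ, ‖t‖ = 1 → K (a + ρ * t) = conj (φ (a + ρ * t)) * ψ (a + ρ * t)
      + conj (t * ψ (a + ρ * t))) ∧
    (∀ t : ℂ, ‖t‖ = 1 → K (-a + ρ * t) = conj (φ (-a + ρ * t)) * ψ (-a + ρ * t)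
      + conj (t * ψ (-a + ρ * t))) := by
  obtain ⟨B, _, _, _, ⟨W⟩⟩ := exists_WB
  obtain ⟨v, h, ha, ha', hq, hs⟩ := W.exists_Fixed
  have hρ : 0 < WB.rho v := by unfold WB.rho; positivity
  have hq2 := (Dom.facts h.dom).2.2.2.1
  have h1 : 4 * WB.rho v < v.1 := by
    unfold WB.rho
    have : v.1 * v.2.1 ≤ 1 / 50 := by nlinarith
    nlinarith
  have h2 : v.1 < 1 / 4 := by linarith
  refine ⟨v.1, WB.rho v, W.phi v, W.dphi v, W.psi v, W.KK v, hρ, h1, h2,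
    fun z hz => W.deriv_phi v hρ hz, W.hol_psi v hρ, W.hol_KK v hρ,
    fun z hz => (sub_eq_zero.1 (h.sq_eq ha hρ h1 h2 z hz)).symm,
    fun z hz => W.dphi_near v ha hρ hs hz, fun z hz w hw => W.phi_lip v ha hρ hs hz hw,
    fun t ht => h.KK_outer ht, fun t ht => h.KK_hole ha hρ ht, fun t ht => ?_⟩
  have e := h.KK_hole ha hρ (z := -t) (by simpa using ht)
  have e2 : (v.1 : ℂ) + WB.rho v * -t = -(-v.1 + WB.rho v * t) := by ring
  have hn : ‖-(v.1 : ℂ) + WB.rho v * t‖ ≤ 1 := by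
    refine (norm_add_le _ _).trans ?_
    rw [norm_neg, norm_mul, ht, Complex.norm_real, Complex.norm_real, Real.norm_of_nonneg ha.le,
      Real.norm_of_nonneg hρ.le]
    linarith
  rw [e2, h.KK_neg hn, h.phi_neg hn, h.psi_neg hn, neg_mul, map_neg, map_neg] at e
  linear_combination -e

end Pool.Agent.H213Z.Quad3
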