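import Mathlib
import Pool.Agent.H213Z.Quad3.Fun
import Pool.Agent.Helper123.Quad.ArcMeasure

set_option autoImplicit false
set_option maxHeartbeats 400000

open Set Metric Filter Topology Complex MeasureTheory
open scoped ComplexConjugate Real ENNReal NNReal

namespace Pool.Agent.H213Z.Quad3

lemma det_mulc (c : ℂ) :
    (((ContinuousLinearMap.toSpanSingleton ℂ c).restrictScalars ℝ : ℂ →L[ℝ] ℂ)).det = ‖c‖ ^ 2 := by
  rw [← Complex.normSq_eq_norm_sq, ← Algebra.norm_complex_apply, Algebra.norm_apply,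
    ContinuousLinearMap.det]
  congr 1
  ext <;> simp [mul_comm]

lemma image_circleMap_Ico (c : ℂ) {r : ℝ} (hr : 0 < r) :
    circleMap c r '' Ico 0 (2 * π) = sphere c r := by
  have hpi := Real.pi_pos
  refine Subset.antisymm ?_ ?_
  · rintro _ ⟨t, -, rfl⟩
    exact circleMap_mem_sphere c hr.le t
  · intro z hz
    rw [← abs_of_pos hr, ← image_circleMap_Ioc] at hz
    obtain ⟨t, ht, rfl⟩ := hz
    rcases eq_or_lt_of_le ht.2 with h | h
    · refine ⟨0, ⟨le_rfl, by positivity⟩, ?_⟩
      have := periodic_circleMap c r 0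
      rw [zero_add] at this
      rw [h, this]
    · exact ⟨t, ⟨ht.1.le, h⟩, rfl⟩

section curve

variable {S : Set ℂ} {φ φ' : ℂ → ℂ} {c : ℂ} {r : ℝ}

lemma curve_deriv (hr : 0 < r) (hs : sphere c r ⊆ S)
    (hd : ∀ z ∈ S, HasDerivWithinAt φ (φ' z) S z) (θ : ℝ) :
    HasDerivAt (fun θ => φ (circleMap c r θ)) (φ' (circleMap c r θ) * (circleMap 0 r θ * I)) θ :=
  (hd _ (hs (circleMap_mem_sphere c hr.le θ))).comp_hasDerivAt θ (hasDerivAt_circleMap c r θ)
    (Eventually.of_forall fun t => hs (circleMap_mem_sphere c hr.le t))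

lemma curve_deriv_cont (hr : 0 < r) (hs : sphere c r ⊆ S) (hc : ContinuousOn φ' S) :
    Continuous fun θ => φ' (circleMap c r θ) * (circleMap 0 r θ * I) :=
  (hc.comp_continuous (continuous_circleMap c r)
    fun t => hs (circleMap_mem_sphere c hr.le t)).mul (by fun_prop)

lemma curve_measure (hr : 0 < r) (hs : sphere c r ⊆ S)
    (hd : ∀ z ∈ S, HasDerivWithinAt φ (φ' z) S z) (hc : ContinuousOn φ' S) (hinj : InjOn φ S)
    (hlip : ∀ z ∈ S, ∀ w ∈ S, ‖φ z - φ w‖ ≤ 2 * ‖z - w‖) :
    MeasurableSet (φ '' sphere c r) ∧ μH[1] (φ '' sphere c r) < ⊤ ∧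
    ∀ F : ℂ → ℂ, ContinuousOn F (φ '' sphere c r) → ∫ z in φ '' sphere c r, F z ∂μH[1]
      = ∫ θ in (0 : ℝ)..(2 * π), ((‖φ' (circleMap c r θ)‖ * r : ℝ) : ℂ) * F (φ (circleMap c r θ)) := by
  have hpi := Real.pi_pos
  have hm : ∀ t, circleMap c r t ∈ S := fun t => hs (circleMap_mem_sphere c hr.le t)
  set γ : ℝ → ℂ := fun t => φ (circleMap c r t) with hγ
  set wt : ℝ → ℝ := fun t => ‖φ' (circleMap c r t)‖ * r with hwt
  have hγlip : LipschitzWith (2 * Real.nnabs r) γ := by
    apply LipschitzWith.of_dist_le_mul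
    intro a b
    have h1 := (lipschitzWith_circleMap c r).dist_le_mul a b
    rw [dist_eq_norm] at h1 ⊢
    refine (hlip _ (hm a) _ (hm b)).trans ?_
    push_cast at h1 ⊢
    linarith
  have hγinj : InjOn γ (Ico 0 (2 * π)) := fun a ha b hb hab =>
    injOn_circleMap_of_abs_sub_le' hr.ne' (by simp) ha hb (hinj (hm a) (hm b) hab)
  have hwc : Continuous wt :=
    (hc.comp_continuous (continuous_circleMap c r) hm).norm.mul continuous_const
  have harc := Quad.arc_measure γ wt _ hγlip hγinj hwc (fun θ => by positivity) univ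
    MeasurableSet.univ (by simp) (fun θ _ => ⟨_, by
      simp [hwt, abs_of_pos hr], hasStrictDerivAt_of_hasDerivAt_of_continuousAt
        (Eventually.of_forall (curve_deriv hr hs hd)) (curve_deriv_cont hr hs hc).continuousAt⟩)
  have hγim : γ '' Ico 0 (2 * π) = φ '' sphere c r := by
    rw [← image_circleMap_Ico c hr, image_image]
  rw [hγim] at harc
  have hγm : Measurable γ := hγlip.continuous.measurable
  have hWm : Measurable (fun θ => ENNReal.ofReal (wt θ)) := hwc.measurable.ennreal_ofReal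
  have hwint : Integrable wt (volume.restrict (Ico 0 (2 * π))) :=
    (hwc.continuousOn.integrableOn_Icc (a := 0) (b := 2 * π)).mono_set Ico_subset_Icc_self
  have hmeas : MeasurableSet (φ '' sphere c r) := by
    rw [← hγim]
    exact measurableSet_Ico.image_of_continuousOn_injOn hγlip.continuous.continuousOn hγinj
  refine ⟨hmeas, ?_, fun F hF => ?_⟩
  · have h1 := congr_arg (fun m => m univ) harc
    simp only [Measure.restrict_apply MeasurableSet.univ, univ_inter,
      Measure.map_apply hγm MeasurableSet.univ, preimage_univ,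
      withDensity_apply _ MeasurableSet.univ, Measure.restrict_univ] at h1
    rw [h1, ← ofReal_integral_eq_lintegral_ofReal hwint
      (Filter.Eventually.of_forall (fun θ => by simp only [hwt]; positivity))]
    exact ENNReal.ofReal_lt_top
  · have hFm : AEStronglyMeasurable F ((μH[1] : Measure ℂ).restrict (φ '' sphere c r)) :=
      hF.aestronglyMeasurable hmeas
    rw [harc] at hFm ⊢
    rw [integral_map hγm.aemeasurable hFm,
      integral_withDensity_eq_integral_toReal_smul hWm
        (Filter.Eventually.of_forall (fun θ => ENNReal.ofReal_lt_top))]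
    rw [intervalIntegral.integral_of_le (by positivity), ← integral_Icc_eq_integral_Ioc,
      integral_Icc_eq_integral_Ico]
    congr 1
    ext θ
    rw [ENNReal.toReal_ofReal (by simp only [hwt]; positivity), Complex.real_smul]

lemma circle_id {ψ K G : ℂ → ℂ} (hr : 0 < r) (ε : ℂ)
    (hψ : ContinuousOn ψ (sphere c r)) (hK : ContinuousOn K (sphere c r))
    (hφ : ContinuousOn φ (sphere c r)) (hG : ContinuousOn G (sphere c r))
    (hsq : ∀ z ∈ sphere c r, φ' z = ψ z ^ 2)
    (hb : ∀ t : ℂ, ‖t‖ = 1 → K (c + r * t) = conj (φ (c + r * t)) * ψ (c + r * t)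
      + ε * conj (t * ψ (c + r * t))) :
    (∮ z in C(c, r), G z * ψ z ^ 2 * conj (φ z)) = (∮ z in C(c, r), G z * ψ z * K z)
      - ε * I * ∫ θ in (0 : ℝ)..(2 * π),
        ((‖φ' (circleMap c r θ)‖ * r : ℝ) : ℂ) * G (circleMap c r θ) := by
  have i1 : CircleIntegrable (fun z => G z * ψ z ^ 2 * conj (φ z)) c r :=
    ((hG.mul (hψ.pow 2)).mul (Complex.continuous_conj.comp_continuousOn hφ)).circleIntegrable hr.le
  have i2 : CircleIntegrable (fun z => G z * ψ z * K z) c r :=
    ((hG.mul hψ).mul hK).circleIntegrable hr.le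
  have key : (∮ z in C(c, r), G z * ψ z * K z) - (∮ z in C(c, r), G z * ψ z ^ 2 * conj (φ z))
      = ε * I * ∫ θ in (0 : ℝ)..(2 * π),
        ((‖φ' (circleMap c r θ)‖ * r : ℝ) : ℂ) * G (circleMap c r θ) := by
    rw [← circleIntegral.integral_sub i2 i1, circleIntegral, ← intervalIntegral.integral_const_mul]
    refine intervalIntegral.integral_congr fun θ _ => ?_
    have ht : ‖exp (θ * I)‖ = 1 := Complex.norm_exp_ofReal_mul_I θ
    have h1 := hb _ ht
    have h2 := hsq _ (circleMap_mem_sphere c hr.le θ)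
    have h3 : conj (exp (θ * I)) * exp (θ * I) = 1 := by
      rw [Complex.conj_mul', ht]; simp
    have h4 := Complex.conj_mul' (ψ (circleMap c r θ))
    simp only [deriv_circleMap, smul_eq_mul, h2, norm_pow]
    simp only [circleMap, zero_add] at h4 ⊢
    rw [h1, map_mul]
    push_cast
    rw [← h4]
    linear_combination (ε * I * r * G (c + r * exp (θ * I)) * ψ (c + r * exp (θ * I))
      * conj (ψ (c + r * exp (θ * I)))) * h3
  linear_combination -key

end curve

theorem main : ∃ Ω : Set ℂ, IsOpen Ω ∧ IsConnected Ω ∧ Bornology.IsBounded Ω ∧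
    (∃ γ : Fin 3 → Circle → ℂ,
      (∀ i, Continuous (γ i)) ∧ (∀ i, Function.Injective (γ i)) ∧
      (∀ i, ContDiff ℝ 1 (fun θ : ℝ => γ i (Circle.exp θ))) ∧
      (∀ i θ, deriv (fun θ : ℝ => γ i (Circle.exp θ)) θ ≠ 0) ∧
      (∀ i j, i ≠ j → Disjoint (Set.range (γ i)) (Set.range (γ j))) ∧
      (∀ i, μH[1] (Set.range (γ i)) < ⊤) ∧
      frontier Ω = ⋃ i, Set.range (γ i) ∧
      (∀ i t, connectedComponentIn (frontier Ω) (γ i t) = Set.range (γ i))) ∧
    0 < μH[1] (frontier Ω) ∧
    ∀ f : ℂ → ℂ, DifferentiableOn ℂ f Ω → ContinuousOn f (closure Ω) →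
      (volume Ω).toReal⁻¹ * ∫ z in Ω, (f z).re =
        (μH[1] (frontier Ω)).toReal⁻¹ * ∫ z in frontier Ω, (f z).re ∂μH[1] := by
  obtain ⟨a, ρ, φ, φ', ψ, K, hρ, h1, h2, hd, hψ, hK, hsq, hnear, hl, b0, b1, b2⟩ := package
  have hφc : ContinuousOn φ (DC a ρ) := fun z hz => (hd z hz).continuousWithinAt
  have hφ'c : ContinuousOn φ' (DC a ρ) := (hψ.1.pow 2).congr hsq
  have hinj : InjOn φ (DC a ρ) := by
    intro z hz w hw h
    have h3 := hl z hz w hw
    rw [h, sub_self, zero_sub, norm_neg] at h3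
    have := norm_nonneg (z - w)
    exact sub_eq_zero.1 (norm_eq_zero.1 (by linarith))
  have hlip : ∀ z ∈ DC a ρ, ∀ w ∈ DC a ρ, ‖φ z - φ w‖ ≤ 2 * ‖z - w‖ := by
    intro z hz w hw
    have h3 := hl z hz w hw
    have h4 := norm_add_le (φ z - φ w - (z - w)) (z - w)
    rw [sub_add_cancel] at h4
    have := norm_nonneg (z - w)
    linarith
  have hne : ∀ z ∈ DC a ρ, φ' z ≠ 0 := by
    intro z hz h
    have := hnear z hz
    rw [h] at this
    norm_num at this
  have hdD : ∀ z ∈ DD a ρ, HasDerivAt φ (φ' z) z := fun z hz =>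
    (hd z (DD_sub a ρ hz)).hasDerivAt
      (mem_of_superset ((DD_open a ρ).mem_nhds hz) (DD_sub a ρ))
  have hdiff : DifferentiableOn ℂ φ (DD a ρ) := fun w hw =>
    (hdD w hw).differentiableAt.differentiableWithinAt
  have hopen : IsOpen (φ '' DD a ρ) := by
    rw [isOpen_iff_mem_nhds]
    rintro _ ⟨z, hz, rfl⟩
    have han : AnalyticAt ℂ φ z := hdiff.analyticAt ((DD_open a ρ).mem_nhds hz)
    have hst : HasStrictDerivAt φ (φ' z) z := by
      have h1 := han.hasStrictDerivAt
      rwa [(hdD z hz).deriv] at h1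
    rw [← hst.map_nhds_eq (hne z (DD_sub a ρ hz))]
    exact image_mem_map ((DD_open a ρ).mem_nhds hz)
  have hcomp : IsCompact (φ '' DC a ρ) := (DC_compact a ρ).image_of_continuousOn hφc
  have hclos : closure (φ '' DD a ρ) = φ '' DC a ρ := by
    apply Subset.antisymm
    · exact closure_minimal (image_mono (DD_sub a ρ)) hcomp.isClosed
    · have h3 := ContinuousOn.image_closure (f := φ) (s := DD a ρ)
        (by rw [closure_DD hρ h1 h2]; exact hφc)
      rwa [closure_DD hρ h1 h2] at h3
  let c : Fin 3 → ℂ := ![0, a, -a]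
  let r : Fin 3 → ℝ := ![1, ρ, ρ]
  have hr : ∀ i, 0 < r i := by
    intro i; fin_cases i
    · exact one_pos
    · exact hρ
    · exact hρ
  have hs : ∀ i, sphere (c i) (r i) ⊆ DC a ρ := by
    intro i; fin_cases i
    · exact sph0 hρ h1 h2
    · exact sph1 hρ h1 h2
    · exact sph2 hρ h1 h2
  have hfront : frontier (φ '' DD a ρ) = ⋃ i, φ '' sphere (c i) (r i) := by
    rw [hopen.frontier_eq, hclos, ← hinj.image_diff_subset (DD_sub a ρ), DC_diff hρ h1 h2,
      image_union, image_union]
    ext z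
    simp only [mem_union, mem_iUnion, Fin.exists_fin_succ, or_assoc]
    simp [c, r]
  have hdisj : ∀ i j, i ≠ j → Disjoint (φ '' sphere (c i) (r i)) (φ '' sphere (c j) (r j)) := by
    intro i j hij
    rw [Set.disjoint_left]
    rintro _ ⟨z, hi, rfl⟩ ⟨w, hj, hzw⟩
    have hwz : w = z := hinj (hs j hj) (hs i hi) hzw
    rw [hwz] at hj
    obtain ⟨t1, t2, t3, t4, t5⟩ := geo (a := a) (by linarith) z
    rw [mem_sphere] at hi hj
    fin_cases i <;> fin_cases j <;> simp only [c, r, Fin.zero_eta, Fin.mk_one, Fin.reduceFinMk,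
      Matrix.cons_val_zero, Matrix.cons_val_one, Matrix.cons_val] at hi hj hij <;>
      first | exact hij rfl | linarith
  have hcm := fun i => curve_measure (hr i) (hs i) hd hφ'c hinj hlip
  have hmemS : ∀ i (t : Circle), c i + r i * (t : ℂ) ∈ sphere (c i) (r i) := by
    intro i t
    simp [abs_of_pos (hr i)]
  have hrange : ∀ i, range (fun t : Circle => φ (c i + r i * (t : ℂ))) = φ '' sphere (c i) (r i) := by
    intro i
    refine Subset.antisymm ?_ ?_
    · rintro _ ⟨t, rfl⟩
      exact ⟨_, hmemS i t, rfl⟩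
    · rintro _ ⟨z, hz, rfl⟩
      rw [← image_circleMap_Ico _ (hr i)] at hz
      obtain ⟨θ, -, rfl⟩ := hz
      exact ⟨Circle.exp θ, by simp [circleMap]⟩
  have hexp : ∀ i, (fun θ : ℝ => φ (c i + r i * (Circle.exp θ : ℂ)))
      = fun θ => φ (circleMap (c i) (r i) θ) := by
    intro i
    ext θ
    simp [circleMap]
  have hcont : ∀ i, Continuous fun t : Circle => φ (c i + r i * (t : ℂ)) := fun i =>
    hφc.comp_continuous (by fun_prop) fun t => hs i (hmemS i t)
  have hfin : μH[1] (frontier (φ '' DD a ρ)) < ⊤ := by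
    rw [hfront]
    refine (measure_iUnion_fintype_le _ _).trans_lt ?_
    exact ENNReal.sum_lt_top.2 fun i _ => (hcm i).2.1
  have hfsub : frontier (φ '' DD a ρ) ⊆ φ '' DC a ρ := by
    rw [← hclos]; exact frontier_subset_closure
  have hintF : ∀ F : ℂ → ℂ, ContinuousOn F (φ '' DC a ρ) →
      IntegrableOn F (frontier (φ '' DD a ρ)) (μH[1] : Measure ℂ) := by
    intro F hF
    obtain ⟨M, hM⟩ := hcomp.exists_bound_of_continuousOn hF
    exact IntegrableOn.of_bound hfin ((hF.mono hfsub).aestronglyMeasurable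
      isClosed_frontier.measurableSet) M
      ((ae_restrict_mem isClosed_frontier.measurableSet).mono fun z hz => hM z (hfsub hz))
  have hquad : ∀ F : ℂ → ℂ, ContinuousOn F (φ '' DC a ρ) → DifferentiableOn ℂ F (φ '' DD a ρ) →
      ∫ z in φ '' DD a ρ, F z = (1 / 2 : ℝ) * ∫ z in frontier (φ '' DD a ρ), F z ∂μH[1] := by
    intro F hFc hFd
    have hG : HolOn (DD a ρ) (DC a ρ) (fun z => F (φ z)) :=
      ⟨hFc.comp hφc (mapsTo_image _ _), hFd.comp hdiff (mapsTo_image _ _)⟩
    have hA := integral_image_eq_integral_abs_det_fderiv_smul (volume : Measure ℂ)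
      (s := DD a ρ) (f := φ)
      (f' := fun z => ((ContinuousLinearMap.toSpanSingleton ℂ (φ' z)).restrictScalars ℝ))
      (DD_open a ρ).measurableSet
      (fun z hz => ((hdD z hz).hasFDerivAt.restrictScalars ℝ).hasFDerivWithinAt)
      (hinj.mono (DD_sub a ρ)) F
    have hH := hG.mul hψ.sq
    set L : ℂ → ℂ →L[ℝ] ℂ := fun z =>
      (F (φ z) * ψ z ^ 2) • ((Complex.conjCLE : ℂ →L[ℝ] ℂ).comp
        ((ContinuousLinearMap.toSpanSingleton ℂ (φ' z)).restrictScalars ℝ))
      + conj (φ z) • ((ContinuousLinearMap.toSpanSingleton ℂ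
        (deriv (fun z => F (φ z) * ψ z ^ 2) z)).restrictScalars ℝ) with hL
    have hdb : ∀ z, dbar (L z) = F (φ z) * ψ z ^ 2 * conj (φ' z) := by
      intro z
      simp only [hL, dbar, add_apply, smul_apply, ContinuousLinearMap.comp_apply,
        ContinuousLinearMap.coe_restrictScalars', ContinuousLinearMap.toSpanSingleton_apply,
        smul_eq_mul, ContinuousLinearEquiv.coe_coe, Complex.conjCLE_apply, map_mul, conj_I, one_mul]
      linear_combination (conj (φ z) * deriv (fun z => F (φ z) * ψ z ^ 2) z / 2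
        - F (φ z) * ψ z ^ 2 * conj (φ' z) / 2) * I_sq
    have hBc : ContinuousOn (fun z => F (φ z) * ψ z ^ 2 * conj (φ' z)) (DC a ρ) :=
      hH.1.mul (Complex.continuous_conj.comp_continuousOn hφ'c)
    obtain ⟨M, hM⟩ := (DC_compact a ρ).exists_bound_of_continuousOn hBc
    have hgr := greenD (W := fun z => F (φ z) * ψ z ^ 2 * conj (φ z)) (W' := L) hρ h1 h2
      (hH.1.mul (Complex.continuous_conj.comp_continuousOn hφc))
      (fun z hz => ((hH.2.differentiableAt
        ((DD_open a ρ).mem_nhds hz)).hasDerivAt.hasFDerivAt.restrictScalars ℝ).mul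
        ((Complex.conjCLE : ℂ →L[ℝ] ℂ).hasFDerivAt.comp z
          ((hdD z hz).hasFDerivAt.restrictScalars ℝ)))
      (by simp only [hdb]; exact hBc.mono (DD_sub a ρ)) (M := M)
      (fun z hz => by rw [hdb]; exact hM z (DD_sub a ρ hz))
    have hca := cauchyD (W := fun z => F (φ z) * ψ z * K z) hρ h1 h2 ((hG.mul hψ).mul hK).1
      ((hG.mul hψ).mul hK).2
    have hci : ∀ i (ε : ℂ), (∀ t : ℂ, ‖t‖ = 1 → K (c i + r i * t)
        = conj (φ (c i + r i * t)) * ψ (c i + r i * t) + ε * conj (t * ψ (c i + r i * t))) →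
        (∮ z in C(c i, r i), F (φ z) * ψ z ^ 2 * conj (φ z))
          = (∮ z in C(c i, r i), F (φ z) * ψ z * K z)
            - ε * I * ∫ z in φ '' sphere (c i) (r i), F z ∂μH[1] := by
      intro i ε hb
      rw [(hcm i).2.2 F (hFc.mono (image_mono (hs i)))]
      exact circle_id (G := fun z => F (φ z)) (hr i) ε (hψ.1.mono (hs i)) (hK.1.mono (hs i))
        (hφc.mono (hs i)) (hG.1.mono (hs i)) (fun z hz => hsq z (hs i hz)) hb
    have e0 := hci 0 (-1) (fun t ht => by
      have := b0 t ht
      simp only [c, r, Matrix.cons_val_zero, zero_add, ofReal_one, one_mul]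
      linear_combination this)
    have e1 := hci 1 1 (fun t ht => by
      have := b1 t ht
      simp only [c, r, Matrix.cons_val_zero, Matrix.cons_val_one, one_mul]
      exact this)
    have e2 := hci 2 1 (fun t ht => by
      have := b2 t ht
      simp only [c, r, Matrix.cons_val, one_mul]
      exact this)
    have hsum : ∫ z in frontier (φ '' DD a ρ), F z ∂μH[1]
        = ∑ i, ∫ z in φ '' sphere (c i) (r i), F z ∂μH[1] := by
      have hi := hintF F hFc
      rw [hfront] at hi ⊢
      exact integral_iUnion_fintype (fun i => (hcm i).1) (fun i j hij => hdisj i j hij)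
        (fun i => hi.mono_set (subset_iUnion (fun i => φ '' sphere (c i) (r i)) i))
    have hA2 : ∫ z in φ '' DD a ρ, F z = ∫ z in DD a ρ, dbar (L z) := by
      rw [hA]
      refine setIntegral_congr_fun (DD_open a ρ).measurableSet fun z hz => ?_
      simp only [hdb, det_mulc, Complex.real_smul]
      rw [← hsq z (DD_sub a ρ hz), abs_of_nonneg (by positivity), mul_assoc, Complex.mul_conj']
      push_cast
      ring
    rw [hsum, Fin.sum_univ_three, hA2]
    simp only [c, r, Matrix.cons_val_zero, Matrix.cons_val_one, Matrix.cons_val] at e0 e1 e2 ⊢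
    rw [e0, e1, e2] at hgr
    apply mul_left_cancel₀ (mul_ne_zero two_ne_zero I_ne_zero)
    push_cast
    linear_combination -hgr + hca
  have hbdd : Bornology.IsBounded (φ '' DD a ρ) := hcomp.isBounded.subset (image_mono (DD_sub a ρ))
  have hvol : (volume (φ '' DD a ρ)).toReal = 1 / 2 * (μH[1] (frontier (φ '' DD a ρ))).toReal := by
    have h3 := hquad (fun _ => 1) continuousOn_const (differentiableOn_const _)
    rw [setIntegral_const, setIntegral_const] at h3
    simp only [Measure.real, Complex.real_smul, mul_one] at h3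
    exact_mod_cast h3
  have hconn := (DD_conn hρ h1 h2).image φ (hφc.mono (DD_sub a ρ))
  have hvpos : 0 < (volume (φ '' DD a ρ)).toReal :=
    ENNReal.toReal_pos (hopen.measure_pos volume hconn.nonempty).ne' hbdd.measure_lt_top.ne
  have hPpos : 0 < (μH[1] (frontier (φ '' DD a ρ))).toReal := by linarith
  refine ⟨φ '' DD a ρ, hopen, hconn, hbdd, ⟨fun i t => φ (c i + r i * (t : ℂ)), hcont, ?_, ?_, ?_,
    ?_, ?_, ?_, ?_⟩, (ENNReal.toReal_pos_iff.1 hPpos).1, ?_⟩
  · intro i t t' h
    have h3 := hinj (hs i (hmemS i t)) (hs i (hmemS i t')) h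
    have h4 : ((r i : ℝ) : ℂ) ≠ 0 := by exact_mod_cast (hr i).ne'
    exact Circle.ext (mul_left_cancel₀ h4 (add_left_cancel h3))
  · intro i
    rw [hexp i, contDiff_one_iff_deriv]
    refine ⟨fun θ => (curve_deriv (hr i) (hs i) hd θ).differentiableAt, ?_⟩
    have : deriv (fun θ => φ (circleMap (c i) (r i) θ))
        = fun θ => φ' (circleMap (c i) (r i) θ) * (circleMap 0 (r i) θ * I) :=
      funext fun θ => (curve_deriv (hr i) (hs i) hd θ).deriv
    rw [this]
    exact curve_deriv_cont (hr i) (hs i) hφ'c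
  · intro i θ
    rw [hexp i, (curve_deriv (hr i) (hs i) hd θ).deriv]
    exact mul_ne_zero (hne _ (hs i (circleMap_mem_sphere _ (hr i).le θ)))
      (mul_ne_zero (circleMap_ne_center (hr i).ne') I_ne_zero)
  · intro i j hij
    rw [hrange, hrange]
    exact hdisj i j hij
  · intro i
    rw [hrange]
    exact (hcm i).2.1
  · simp only [hrange]
    exact hfront
  · intro i t
    have hsub : ∀ j, range (fun t : Circle => φ (c j + r j * (t : ℂ))) ⊆
        frontier (φ '' DD a ρ) := by
      intro j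
      rw [hrange, hfront]
      exact subset_iUnion (fun i => φ '' sphere (c i) (r i)) j
    refine Subset.antisymm ?_ ((isPreconnected_range (hcont i)).subset_connectedComponentIn
      ⟨t, rfl⟩ (hsub i))
    have hcl : ∀ j, IsClosed (φ '' sphere (c j) (r j)) := fun j => by
      rw [← hrange]; exact (isCompact_range (hcont j)).isClosed
    have hmem : φ (c i + r i * (t : ℂ)) ∈ φ '' sphere (c i) (r i) := ⟨_, hmemS i t, rfl⟩
    have hdj : Disjoint (φ '' sphere (c i) (r i))
        (⋃ j : {j // j ≠ i}, φ '' sphere (c j) (r j)) :=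
      disjoint_iUnion_right.2 fun j => hdisj i j j.2.symm
    have := isPreconnected_iff_subset_of_disjoint_closed.1
      (isPreconnected_connectedComponentIn (F := frontier (φ '' DD a ρ))
        (x := φ (c i + r i * (t : ℂ)))) _ _ (hcl i)
      (isClosed_iUnion_of_finite fun j : {j // j ≠ i} => hcl j) (by
        intro z hz
        have h3 := connectedComponentIn_subset _ _ hz
        rw [hfront, mem_iUnion] at h3
        obtain ⟨j, hj⟩ := h3
        by_cases hji : j = i
        · left; rwa [← hji]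
        · right; exact mem_iUnion.2 ⟨⟨j, hji⟩, hj⟩) (by rw [hdj.inter_eq, inter_empty])
    rw [hrange]
    refine this.resolve_right fun h => ?_
    exact Set.disjoint_left.1 hdj hmem (h (mem_connectedComponentIn (hsub i ⟨t, rfl⟩)))
  · intro F hFd hFc
    rw [hclos] at hFc
    obtain ⟨M, hM⟩ := hcomp.exists_bound_of_continuousOn hFc
    have hi1 : IntegrableOn F (φ '' DD a ρ) volume :=
      IntegrableOn.of_bound hbdd.measure_lt_top ((hFc.mono
        (image_mono (DD_sub a ρ))).aestronglyMeasurable hopen.measurableSet) M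
        ((ae_restrict_mem hopen.measurableSet).mono fun z hz =>
          hM z (image_mono (DD_sub a ρ) hz))
    have h3 := congr_arg Complex.re (hquad F hFc hFd)
    rw [Complex.re_ofReal_mul] at h3
    have h4 : ∫ z in φ '' DD a ρ, (F z).re = (∫ z in φ '' DD a ρ, F z).re := integral_re hi1
    have h5 : ∫ z in frontier (φ '' DD a ρ), (F z).re ∂μH[1]
        = (∫ z in frontier (φ '' DD a ρ), F z ∂μH[1]).re := integral_re (hintF F hFc)
    rw [h4, h5, h3, hvol]
    field_simp

end Pool.Agent.H213Z.Quad3
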